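import Pool.Agent.Lib_helper91.BT.WantedA

/-!
# Project BT, block A5d: the encircling component
-/

set_option autoImplicit false

open Finset Polynomial Pool.Agent.Lib_helper77.VC Pool.Agent.Lib_helper61.VCP Pool.Agent.TB

namespace Pool.Agent.BT

/-- the explicit kernel of the encircling component -/
noncomputable def a5d_K (N i j k l : ℕ) : ℂ :=
  ∑ x ∈ range N, ∑ k1 ∈ range N, ∑ l1 ∈ range N, ∑ k2 ∈ range N, ∑ l2 ∈ range N, ∑ l3 ∈ range N,
    (-(rt N) ^ 2) ^ x * Rneg N j x k1 l1 * Rneg N i k1 k2 l2 * Rneg N k2 l2 k l3 *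
      Rneg N l3 l1 l x * (-(rt N) ^ 2) ^ ((x : ℤ) - ((N : ℤ) - 1))

theorem a5d_shift (p : ℕ) : shiftBy p (circ 0) = circ p := by
  unfold circ
  simp only [shiftBy_cons, shiftBy_nil, shift_twist, shift_cup, shift_cap, zero_add]
  simp only [add_comm 2 p, add_comm 1 p]

theorem a5d_twist1 (N p : ℕ) (φ : List ℕ → ℂ) :
    (Piece.twist p (-1)).act N φ = crossAct (Rneg N) N p φ := by
  simp [Piece.act]

theorem a5d_twist2 (N p : ℕ) (φ : List ℕ → ℂ) :
    (Piece.twist p (-2)).act N φ = crossAct (Rneg N) N p (crossAct (Rneg N) N p φ) := by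
  simp [Piece.act]

theorem a5d_app (R : ℕ → ℕ → ℕ → ℕ → ℂ) (N : ℕ) (φ : List ℕ → ℂ) (p : ℕ) (a : List ℕ) (i j : ℕ)
    (r s : List ℕ) (hp : p = a.length) (hs : s = a ++ i :: j :: r) :
    crossAct R N p φ s =
      ∑ k ∈ range N, ∑ l ∈ range N, R i j k l * φ (a ++ k :: l :: r) := by
  subst hp hs
  exact Pool.Agent.Lib_helper61.VCP.crossAct_app R N φ a i j r

/-- the encircling component acts by a kernel -/
theorem a5d_sem {N : ℕ} (hN : 1 ≤ N) : Sem N (circ 0) (a5d_K N) := by
  intro φ a b i j hi hj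
  rw [a5d_shift]
  unfold circ
  rw [fold_cons, fold_cons, fold_cons, fold_cons, fold_cons, fold_nil, a5d_twist1, a5d_twist1,
    a5d_twist2]
  set φ1 := (Piece.cup (a.length + 2)).act N φ with hφ1
  set φ2 := crossAct (Rneg N) N (a.length + 1) φ1 with hφ2
  set φ3 := crossAct (Rneg N) N a.length (crossAct (Rneg N) N a.length φ2) with hφ3
  set φ4 := crossAct (Rneg N) N (a.length + 1) φ3 with hφ4
  have h0 : (Piece.cap (a.length + 2)).act N φ4 (a ++ i :: j :: b) =
      ∑ x ∈ range N, (-(rt N) ^ 2) ^ x * φ4 (a ++ i :: j :: x :: (N - 1 - x) :: b) := by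
    have h := cap_app N φ4 (a ++ [i, j]) b
    have e1 : (a ++ [i, j]).length = a.length + 2 := by simp
    rw [e1] at h
    simp only [List.append_assoc, List.cons_append, List.nil_append] at h
    exact h
  have h1 : ∀ (k l y z : ℕ) (r : List ℕ), y < N → z < N →
      φ1 (a ++ k :: l :: y :: z :: r) =
        if y + z = N - 1 then (-(rt N) ^ 2) ^ ((y : ℤ) - ((N : ℤ) - 1)) * φ (a ++ k :: l :: r)
        else 0 := by
    intro k l y z r _ _
    have h := cup_app N φ (a ++ [k, l]) y z r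
    have e1 : (a ++ [k, l]).length = a.length + 2 := by simp
    rw [e1] at h
    simp only [List.append_assoc, List.cons_append, List.nil_append] at h
    exact h
  have h2 : ∀ (k l y : ℕ) (r : List ℕ), φ2 (a ++ k :: l :: y :: r) =
      ∑ k4 ∈ range N, ∑ l4 ∈ range N, Rneg N l y k4 l4 * φ1 (a ++ k :: k4 :: l4 :: r) := by
    intro k l y r
    have h := a5d_app (Rneg N) N φ1 (a.length + 1) (a ++ [k]) l y r (a ++ k :: l :: y :: r)
      (by simp) (by simp)
    simpa using h
  have h3 : ∀ (i k : ℕ) (r : List ℕ), φ3 (a ++ i :: k :: r) =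
      ∑ k2 ∈ range N, ∑ l2 ∈ range N, Rneg N i k k2 l2 *
        ∑ k3 ∈ range N, ∑ l3 ∈ range N, Rneg N k2 l2 k3 l3 * φ2 (a ++ k3 :: l3 :: r) := by
    intro i k r
    rw [hφ3, a5d_app (Rneg N) N _ a.length a i k r _ rfl rfl]
    refine sum_congr rfl fun k2 _ => sum_congr rfl fun l2 _ => ?_
    rw [a5d_app (Rneg N) N _ a.length a k2 l2 r _ rfl rfl]
  have h4 : ∀ (k l y : ℕ) (r : List ℕ), φ4 (a ++ k :: l :: y :: r) =
      ∑ k4 ∈ range N, ∑ l4 ∈ range N, Rneg N l y k4 l4 * φ3 (a ++ k :: k4 :: l4 :: r) := by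
    intro k l y r
    have h := a5d_app (Rneg N) N φ3 (a.length + 1) (a ++ [k]) l y r (a ++ k :: l :: y :: r)
      (by simp) (by simp)
    simpa using h
  rw [h0]
  -- the value of `φ2` on the states used
  have h5 : ∀ (k l y x : ℕ), x < N →
      φ2 (a ++ k :: l :: y :: (N - 1 - x) :: b) =
      ∑ k4 ∈ range N, Rneg N l y k4 x * ((-(rt N) ^ 2) ^ ((x : ℤ) - ((N : ℤ) - 1)) *
        φ (a ++ k :: k4 :: b)) := by
    intro k l y x hx
    rw [h2]
    refine sum_congr rfl fun k4 _ => ?_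
    rw [sum_eq_single_of_mem x (mem_range.mpr hx)]
    · rw [h1 _ _ _ _ _ hx (by omega), if_pos (by omega)]
    · intro l4 hl4 hne
      rw [mem_range] at hl4
      rw [h1 _ _ _ _ _ hl4 (by omega), if_neg (by omega), mul_zero]
  have h6 : ∀ x ∈ range N, (-(rt N) ^ 2) ^ x * φ4 (a ++ i :: j :: x :: (N - 1 - x) :: b) =
      ∑ k ∈ range N, ∑ l ∈ range N, ∑ k1 ∈ range N, ∑ l1 ∈ range N, ∑ k2 ∈ range N,
        ∑ l2 ∈ range N, ∑ l3 ∈ range N, (-(rt N) ^ 2) ^ x * Rneg N j x k1 l1 *
        Rneg N i k1 k2 l2 * Rneg N k2 l2 k l3 *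
      Rneg N l3 l1 l x * (-(rt N) ^ 2) ^ ((x : ℤ) - ((N : ℤ) - 1)) * φ (a ++ k :: l :: b) := by
    intro x hx
    rw [mem_range] at hx
    rw [h4, mul_sum]
    have e1 : ∀ k1 ∈ range N, (-(rt N) ^ 2) ^ x * ∑ l1 ∈ range N, Rneg N j x k1 l1 *
        φ3 (a ++ i :: k1 :: l1 :: (N - 1 - x) :: b) =
        ∑ l1 ∈ range N, ∑ k2 ∈ range N, ∑ l2 ∈ range N, ∑ k ∈ range N, ∑ l3 ∈ range N,
        ∑ l ∈ range N, (-(rt N) ^ 2) ^ x * Rneg N j x k1 l1 *
        Rneg N i k1 k2 l2 * Rneg N k2 l2 k l3 *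
        Rneg N l3 l1 l x * (-(rt N) ^ 2) ^ ((x : ℤ) - ((N : ℤ) - 1)) * φ (a ++ k :: l :: b) := by
      intro k1 _
      rw [mul_sum]
      refine sum_congr rfl fun l1 _ => ?_
      rw [h3, mul_sum, mul_sum]
      refine sum_congr rfl fun k2 _ => ?_
      rw [mul_sum, mul_sum]
      refine sum_congr rfl fun l2 _ => ?_
      rw [mul_sum, mul_sum, mul_sum]
      refine sum_congr rfl fun k _ => ?_
      rw [mul_sum, mul_sum, mul_sum]
      refine sum_congr rfl fun l3 _ => ?_
      rw [h5 _ _ _ _ hx, mul_sum, mul_sum, mul_sum, mul_sum]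
      refine sum_congr rfl fun l _ => ?_
      ring
    rw [sum_congr rfl e1]
    -- move the sums over `k`, `l` to the front
    have mv : ∀ f : ℕ → ℕ → ℕ → ℕ → ℕ → ℕ → ℕ → ℂ,
        ∑ k1 ∈ range N, ∑ l1 ∈ range N, ∑ k2 ∈ range N, ∑ l2 ∈ range N, ∑ k ∈ range N,
          ∑ l3 ∈ range N, ∑ l ∈ range N, f k1 l1 k2 l2 k l3 l =
        ∑ k ∈ range N, ∑ l ∈ range N, ∑ k1 ∈ range N, ∑ l1 ∈ range N, ∑ k2 ∈ range N,
          ∑ l2 ∈ range N, ∑ l3 ∈ range N, f k1 l1 k2 l2 k l3 l := by
      intro f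
      calc ∑ k1 ∈ range N, ∑ l1 ∈ range N, ∑ k2 ∈ range N, ∑ l2 ∈ range N, ∑ k ∈ range N,
          ∑ l3 ∈ range N, ∑ l ∈ range N, f k1 l1 k2 l2 k l3 l
          = ∑ k1 ∈ range N, ∑ l1 ∈ range N, ∑ k2 ∈ range N, ∑ k ∈ range N, ∑ l2 ∈ range N,
            ∑ l ∈ range N, ∑ l3 ∈ range N, f k1 l1 k2 l2 k l3 l := by
            refine sum_congr rfl fun k1 _ => sum_congr rfl fun l1 _ => sum_congr rfl fun k2 _ => ?_
            rw [sum_comm]
            refine sum_congr rfl fun k _ => sum_congr rfl fun l2 _ => ?_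
            rw [sum_comm]
        _ = ∑ k1 ∈ range N, ∑ l1 ∈ range N, ∑ k ∈ range N, ∑ k2 ∈ range N, ∑ l ∈ range N,
            ∑ l2 ∈ range N, ∑ l3 ∈ range N, f k1 l1 k2 l2 k l3 l := by
            refine sum_congr rfl fun k1 _ => sum_congr rfl fun l1 _ => ?_
            rw [sum_comm]
            refine sum_congr rfl fun k _ => sum_congr rfl fun k2 _ => ?_
            rw [sum_comm]
        _ = ∑ k1 ∈ range N, ∑ k ∈ range N, ∑ l1 ∈ range N, ∑ l ∈ range N, ∑ k2 ∈ range N,
            ∑ l2 ∈ range N, ∑ l3 ∈ range N, f k1 l1 k2 l2 k l3 l := by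
            refine sum_congr rfl fun k1 _ => ?_
            rw [sum_comm]
            refine sum_congr rfl fun k _ => sum_congr rfl fun l1 _ => ?_
            rw [sum_comm]
        _ = ∑ k ∈ range N, ∑ k1 ∈ range N, ∑ l ∈ range N, ∑ l1 ∈ range N, ∑ k2 ∈ range N,
            ∑ l2 ∈ range N, ∑ l3 ∈ range N, f k1 l1 k2 l2 k l3 l := by
            rw [sum_comm]
            refine sum_congr rfl fun k _ => sum_congr rfl fun k1 _ => ?_
            rw [sum_comm]
        _ = _ := by
            refine sum_congr rfl fun k _ => ?_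
            rw [sum_comm]
    exact mv _
  rw [sum_congr rfl h6, sum_comm]
  refine sum_congr rfl fun k _ => ?_
  rw [sum_comm]
  refine sum_congr rfl fun l _ => ?_
  unfold a5d_K
  simp only [sum_mul]

/-- the delta function of a state -/
noncomputable def a5d_del (k l : ℕ) : List ℕ → ℂ := fun s => if s = [k, l] then 1 else 0

theorem a5d_KO {N : ℕ} (hN : 1 ≤ N) {i j k l : ℕ} (hi : i < N) (hj : j < N) (hk : k < N)
    (hl : l < N) : KO N i j k l = a5d_K N i j k l := by
  have h := a5d_sem hN (a5d_del k l) [] [] i j hi hj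
  rw [a5d_shift] at h
  have e : ([] : List ℕ).length = 0 := rfl
  rw [e] at h
  simp only [List.nil_append] at h
  unfold KO
  have h' : fold N (circ 0) (fun s => if s = [k, l] then 1 else 0) [i, j] =
      ∑ m ∈ range N, ∑ n ∈ range N, a5d_K N i j m n * a5d_del k l [m, n] := h
  rw [h', sum_eq_single_of_mem k (mem_range.mpr hk), sum_eq_single_of_mem l (mem_range.mpr hl)]
  · simp [a5d_del]
  · intro n _ hn
    simp [a5d_del, hn]
  · intro m _ hm
    refine sum_eq_zero fun n _ => ?_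
    simp [a5d_del, hm]

theorem a5d_semKO {N : ℕ} (hN : 1 ≤ N) : Sem N (circ 0) (KO N) :=
  sem_congr (a5d_sem hN) fun i hi j hj k hk l hl => (a5d_KO hN hi hj hk hl).symm

theorem a5d_Rneg {N i j k l : ℕ} (h : Rneg N i j k l ≠ 0) : k + l = i + j := by
  unfold Rneg Rpos at h
  by_contra hne
  rw [if_neg (by omega), map_zero] at h
  exact h rfl

/-- the kernel preserves the weight -/
theorem a5d_wt {N : ℕ} {i j k l : ℕ} (h : i + j ≠ k + l) : a5d_K N i j k l = 0 := by
  unfold a5d_K
  refine sum_eq_zero fun x _ => sum_eq_zero fun k1 _ => sum_eq_zero fun l1 _ =>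
    sum_eq_zero fun k2 _ => sum_eq_zero fun l2 _ => sum_eq_zero fun l3 _ => ?_
  by_cases h1 : Rneg N j x k1 l1 = 0
  · rw [h1]; ring
  by_cases h2 : Rneg N i k1 k2 l2 = 0
  · rw [h2]; ring
  by_cases h3 : Rneg N k2 l2 k l3 = 0
  · rw [h3]; ring
  by_cases h4 : Rneg N l3 l1 l x = 0
  · rw [h4]; ring
  have := a5d_Rneg h1
  have := a5d_Rneg h2
  have := a5d_Rneg h3
  have := a5d_Rneg h4
  omega

/-- the relation of commutation with `F` for matrix entries -/
def a5d_FR (N : ℕ) (K : ℕ → ℕ → ℕ → ℕ → ℂ) : Prop := ∀ i j k l : ℕ, i < N → j < N → k < N →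
  l < N → (if 1 ≤ i then br (rt N) i * rt N ^ (2 * (j : ℤ) - N + 1) * K (i - 1) j k l else 0) +
      (if 1 ≤ j then rt N ^ ((N : ℤ) - 1 - 2 * i) * br (rt N) j * K i (j - 1) k l else 0) =
    (if k + 1 < N then br (rt N) ((k : ℤ) + 1) * rt N ^ (2 * (l : ℤ) - N + 1) * K i j (k + 1) l
      else 0) +
    (if l + 1 < N then rt N ^ ((N : ℤ) - 1 - 2 * k) * br (rt N) ((l : ℤ) + 1) * K i j k (l + 1)
      else 0)

/-- the relation of commutation with `E` for matrix entries -/
def a5d_ER (N : ℕ) (K : ℕ → ℕ → ℕ → ℕ → ℂ) : Prop := ∀ i j k l : ℕ, i < N → j < N → k < N →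
  l < N → (if i + 1 < N then br (rt N) ((i : ℤ) + 1) * rt N ^ (2 * (j : ℤ) - N + 1) *
      K (i + 1) j k l else 0) +
      (if j + 1 < N then rt N ^ ((N : ℤ) - 1 - 2 * i) * br (rt N) ((j : ℤ) + 1) *
        K i (j + 1) k l else 0) =
    (if 1 ≤ k then br (rt N) k * rt N ^ (2 * (l : ℤ) - N + 1) * K i j (k - 1) l else 0) +
    (if 1 ≤ l then rt N ^ ((N : ℤ) - 1 - 2 * k) * br (rt N) l * K i j k (l - 1) else 0)

theorem a5d_kfac0 (N i j : ℕ) : kfac N [i, j] 0 = rt N ^ (2 * (j : ℤ) - N + 1) := by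
  unfold kfac Yg ce
  simp
  congr 1
  ring

theorem a5d_kfac1 (N i j : ℕ) : kfac N [i, j] 1 = rt N ^ ((N : ℤ) - 1 - 2 * i) := by
  unfold kfac Yg ce
  simp

theorem a5d_FL (N : ℕ) (ψ : List ℕ → ℂ) (i j : ℕ) : FL N ψ [i, j] =
    (if 1 ≤ i then br (rt N) i * rt N ^ (2 * (j : ℤ) - N + 1) * ψ [i - 1, j] else 0) +
      (if 1 ≤ j then rt N ^ ((N : ℤ) - 1 - 2 * i) * br (rt N) j * ψ [i, j - 1] else 0) := by
  unfold FL
  have e : ([i, j] : List ℕ).length = 2 := rfl
  rw [e, sum_range_succ, sum_range_succ, range_zero, sum_empty, zero_add, a5d_kfac0, a5d_kfac1]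
  simp only [List.getD_cons_zero, List.getD_cons_succ, List.set_cons_zero, List.set_cons_succ]
  congr 1
  by_cases h : 1 ≤ j
  · rw [if_pos h, if_pos h]; ring
  · rw [if_neg h, if_neg h]

theorem a5d_EL (N : ℕ) (ψ : List ℕ → ℂ) (i j : ℕ) : EL N ψ [i, j] =
    (if i + 1 < N then br (rt N) ((i : ℤ) + 1) * rt N ^ (2 * (j : ℤ) - N + 1) * ψ [i + 1, j]
      else 0) +
      (if j + 1 < N then rt N ^ ((N : ℤ) - 1 - 2 * i) * br (rt N) ((j : ℤ) + 1) * ψ [i, j + 1]
        else 0) := by
  unfold EL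
  have e : ([i, j] : List ℕ).length = 2 := rfl
  rw [e, sum_range_succ, sum_range_succ, range_zero, sum_empty, zero_add, a5d_kfac0, a5d_kfac1]
  simp only [List.getD_cons_zero, List.getD_cons_succ, List.set_cons_zero, List.set_cons_succ]
  congr 1
  by_cases h : j + 1 < N
  · rw [if_pos h, if_pos h]; ring
  · rw [if_neg h, if_neg h]

theorem a5d_fold {N : ℕ} (hN : 1 ≤ N) (φ : List ℕ → ℂ) {i j : ℕ} (hi : i < N) (hj : j < N) :
    fold N (circ 0) φ [i, j] = ∑ m ∈ range N, ∑ n ∈ range N, KO N i j m n * φ [m, n] := by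
  have h := a5d_semKO hN φ [] [] i j hi hj
  rw [a5d_shift] at h
  exact h

theorem a5d_KO_FR {N : ℕ} (hN : 2 ≤ N) : a5d_FR N (KO N) := by
  intro i j k l hi hj hk hl
  have h := fold_F hN (circ 0) 2 2 (circ_strands 0 2 (by omega)) (a5d_del k l) [i, j] rfl
    (by intro v hv; simp at hv; rcases hv with rfl | rfl <;> assumption)
  rw [a5d_FL, a5d_fold (by omega) _ hi hj] at h
  have e1 : ∀ x y : ℕ, fold N (circ 0) (a5d_del k l) [x, y] = KO N x y k l := fun x y => rfl
  rw [e1, e1] at h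
  rw [h]
  have e2 : ∀ m ∈ range N, ∀ n ∈ range N, KO N i j m n * FL N (a5d_del k l) [m, n] =
      (if m = k + 1 then (if n = l then br (rt N) ((k : ℤ) + 1) *
        rt N ^ (2 * (l : ℤ) - N + 1) * KO N i j (k + 1) l else 0) else 0) +
      (if m = k then (if n = l + 1 then rt N ^ ((N : ℤ) - 1 - 2 * k) *
        br (rt N) ((l : ℤ) + 1) * KO N i j k (l + 1) else 0) else 0) := by
    intro m _ n _
    rw [a5d_FL]
    unfold a5d_del
    rw [mul_add]
    congr 1
    · by_cases h1 : 1 ≤ m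
      · rw [if_pos h1]
        by_cases h2 : m = k + 1
        · rw [if_pos h2]
          by_cases h3 : n = l
          · subst h2 h3
            rw [if_pos rfl, if_pos (by simp)]
            push_cast
            ring
          · rw [if_neg h3, if_neg (by simp [h3]), mul_zero, mul_zero]
        · rw [if_neg h2, if_neg (by
            intro h4
            simp only [List.cons.injEq] at h4
            omega), mul_zero, mul_zero]
      · rw [if_neg h1, if_neg (by omega), mul_zero]
    · by_cases h1 : 1 ≤ n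
      · rw [if_pos h1]
        by_cases h2 : m = k
        · rw [if_pos h2]
          by_cases h3 : n = l + 1
          · subst h2 h3
            rw [if_pos rfl, if_pos (by simp)]
            push_cast
            ring
          · rw [if_neg h3, if_neg (by
              intro h4
              simp only [List.cons.injEq] at h4
              omega), mul_zero, mul_zero]
        · rw [if_neg h2, if_neg (by simp [h2]), mul_zero, mul_zero]
      · rw [if_neg h1, if_neg (show ¬ n = l + 1 by omega), ite_self, mul_zero]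
  rw [sum_congr rfl fun m hm => sum_congr rfl fun n hn => e2 m hm n hn]
  simp only [sum_add_distrib]
  congr 1
  · by_cases h1 : k + 1 < N
    · rw [if_pos h1, sum_eq_single_of_mem (k + 1) (mem_range.mpr h1),
        sum_eq_single_of_mem l (mem_range.mpr hl)]
      · rw [if_pos rfl, if_pos rfl]
      · intro n _ hn
        rw [if_pos rfl, if_neg hn]
      · intro m _ hm
        exact sum_eq_zero fun n _ => if_neg hm
    · rw [if_neg h1]
      refine sum_eq_zero fun m hm => sum_eq_zero fun n _ => ?_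
      rw [mem_range] at hm
      rw [if_neg (by omega)]
  · by_cases h1 : l + 1 < N
    · rw [if_pos h1, sum_eq_single_of_mem k (mem_range.mpr hk),
        sum_eq_single_of_mem (l + 1) (mem_range.mpr h1)]
      · rw [if_pos rfl, if_pos rfl]
      · intro n _ hn
        rw [if_pos rfl, if_neg hn]
      · intro m _ hm
        exact sum_eq_zero fun n _ => if_neg hm
    · rw [if_neg h1]
      refine sum_eq_zero fun m _ => sum_eq_zero fun n hn => ?_
      rw [mem_range] at hn
      rw [if_neg (show ¬ n = l + 1 by omega), ite_self]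

theorem a5d_KO_ER {N : ℕ} (hN : 2 ≤ N) : a5d_ER N (KO N) := by
  intro i j k l hi hj hk hl
  have h := fold_E hN (circ 0) 2 2 (circ_strands 0 2 (by omega)) (a5d_del k l) [i, j] rfl
    (by intro v hv; simp at hv; rcases hv with rfl | rfl <;> assumption)
  rw [a5d_EL, a5d_fold (by omega) _ hi hj] at h
  have e1 : ∀ x y : ℕ, fold N (circ 0) (a5d_del k l) [x, y] = KO N x y k l := fun x y => rfl
  rw [e1, e1] at h
  rw [h]
  have e2 : ∀ m ∈ range N, ∀ n ∈ range N, KO N i j m n * EL N (a5d_del k l) [m, n] =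
      (if m + 1 = k then (if n = l then br (rt N) k *
        rt N ^ (2 * (l : ℤ) - N + 1) * KO N i j (k - 1) l else 0) else 0) +
      (if m = k then (if n + 1 = l then rt N ^ ((N : ℤ) - 1 - 2 * k) *
        br (rt N) l * KO N i j k (l - 1) else 0) else 0) := by
    intro m _ n _
    rw [a5d_EL]
    unfold a5d_del
    rw [mul_add]
    congr 1
    · by_cases h1 : m + 1 = k
      · rw [if_pos h1]
        subst h1
        rw [if_pos hk]
        by_cases h3 : n = l
        · subst h3
          rw [if_pos rfl, if_pos (by simp)]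
          push_cast
          ring
        · rw [if_neg h3, if_neg (by simp [h3]), mul_zero, mul_zero]
      · rw [if_neg h1]
        have h4 : ([m + 1, n] : List ℕ) ≠ [k, l] := by
          intro h4
          simp only [List.cons.injEq] at h4
          omega
        rw [if_neg h4, mul_zero, ite_self, mul_zero]
    · by_cases h2 : m = k
      · rw [if_pos h2]
        subst h2
        by_cases h3 : n + 1 = l
        · subst h3
          rw [if_pos rfl, if_pos hl, if_pos (by simp)]
          push_cast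
          ring
        · have h4 : ([m, n + 1] : List ℕ) ≠ [m, l] := by
            intro h4
            simp only [List.cons.injEq] at h4
            omega
          rw [if_neg h3, if_neg h4, mul_zero, ite_self, mul_zero]
      · have h4 : ([m, n + 1] : List ℕ) ≠ [k, l] := by
          intro h4
          simp only [List.cons.injEq] at h4
          omega
        rw [if_neg h2, if_neg h4, mul_zero, ite_self, mul_zero]
  rw [sum_congr rfl fun m hm => sum_congr rfl fun n hn => e2 m hm n hn]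
  simp only [sum_add_distrib]
  congr 1
  · by_cases h1 : 1 ≤ k
    · rw [if_pos h1, sum_eq_single_of_mem (k - 1) (mem_range.mpr (by omega)),
        sum_eq_single_of_mem l (mem_range.mpr hl)]
      · rw [if_pos (by omega), if_pos rfl]
      · intro n _ hn
        rw [if_neg hn, ite_self]
      · intro m _ hm
        exact sum_eq_zero fun n _ => if_neg (by omega)
    · rw [if_neg h1]
      refine sum_eq_zero fun m hm => sum_eq_zero fun n _ => ?_
      rw [if_neg (by omega)]
  · by_cases h1 : 1 ≤ l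
    · rw [if_pos h1, sum_eq_single_of_mem k (mem_range.mpr hk),
        sum_eq_single_of_mem (l - 1) (mem_range.mpr (by omega))]
      · rw [if_pos rfl, if_pos (by omega)]
      · intro n _ hn
        rw [if_pos rfl, if_neg (by omega)]
      · intro m _ hm
        exact sum_eq_zero fun n _ => if_neg hm
    · rw [if_neg h1]
      refine sum_eq_zero fun m _ => sum_eq_zero fun n hn => ?_
      rw [if_neg (show ¬ n + 1 = l by omega), ite_self]

/-- the relations for polynomials of the Casimir operator -/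
theorem a5d_ent_FR {N : ℕ} (hN : 2 ≤ N) (f : ℂ[X]) : a5d_FR N (entN N f) := by
  intro i j k l hi hj hk hl
  have h := ent_F (by omega : 1 ≤ N) f i j k l
  unfold entN
  have c1 : (if 1 ≤ i then br (rt N) i * rt N ^ (2 * (j : ℤ) - N + 1) *
      ent N f ((i - 1 : ℕ) : ℤ) j k l else 0) =
      br (rt N) i * rt N ^ (2 * (j : ℤ) - N + 1) * ent N f ((i : ℤ) - 1) j k l := by
    by_cases h1 : 1 ≤ i
    · rw [if_pos h1, show ((i - 1 : ℕ) : ℤ) = (i : ℤ) - 1 by omega]
    · obtain rfl : i = 0 := by omega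
      rw [if_neg h1, Nat.cast_zero, br_zero]; ring
  have c2 : (if 1 ≤ j then rt N ^ ((N : ℤ) - 1 - 2 * i) * br (rt N) j *
      ent N f i ((j - 1 : ℕ) : ℤ) k l else 0) =
      rt N ^ ((N : ℤ) - 1 - 2 * i) * br (rt N) j * ent N f i ((j : ℤ) - 1) k l := by
    by_cases h1 : 1 ≤ j
    · rw [if_pos h1, show ((j - 1 : ℕ) : ℤ) = (j : ℤ) - 1 by omega]
    · obtain rfl : j = 0 := by omega
      rw [if_neg h1, Nat.cast_zero, br_zero]; ring
  have c3 : (if k + 1 < N then br (rt N) ((k : ℤ) + 1) * rt N ^ (2 * (l : ℤ) - N + 1) *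
      ent N f i j ((k + 1 : ℕ) : ℤ) l else 0) =
      br (rt N) ((k : ℤ) + 1) * rt N ^ (2 * (l : ℤ) - N + 1) * ent N f i j ((k : ℤ) + 1) l := by
    by_cases h1 : k + 1 < N
    · rw [if_pos h1]; push_cast; rfl
    · rw [if_neg h1, show ((k : ℤ) + 1) = N by omega, br_top (by omega)]; ring
  have c4 : (if l + 1 < N then rt N ^ ((N : ℤ) - 1 - 2 * k) * br (rt N) ((l : ℤ) + 1) *
      ent N f i j k ((l + 1 : ℕ) : ℤ) else 0) =
      rt N ^ ((N : ℤ) - 1 - 2 * k) * br (rt N) ((l : ℤ) + 1) * ent N f i j k ((l : ℤ) + 1) := by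
    by_cases h1 : l + 1 < N
    · rw [if_pos h1]; push_cast; rfl
    · rw [if_neg h1, show ((l : ℤ) + 1) = N by omega, br_top (by omega)]; ring
  rw [c1, c2, c3, c4]
  exact h

theorem a5d_Eo_ev {N : ℕ} (a b : ℤ) :
    Eo (rt N) N (ev a b) = (br (rt N) a * rt N ^ (2 * b - (N : ℤ) + 1)) • ev (a - 1) b +
      (rt N ^ ((N : ℤ) - 1 - 2 * a) * br (rt N) b) • ev a (b - 1) := by
  funext i j
  rw [Eo_apply, Pi.add_apply, Pi.add_apply, Pi.smul_apply, Pi.smul_apply, Pi.smul_apply,
    Pi.smul_apply, smul_eq_mul, smul_eq_mul]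
  unfold ev
  congr 1
  · by_cases h : i = a - 1 ∧ j = b
    · obtain ⟨rfl, rfl⟩ := h
      rw [if_pos ⟨by ring, rfl⟩, if_pos ⟨rfl, rfl⟩, show a - 1 + 1 = a by ring]
    · rw [if_neg h, if_neg (by omega)]; ring
  · by_cases h : i = a ∧ j = b - 1
    · obtain ⟨rfl, rfl⟩ := h
      rw [if_pos ⟨rfl, by ring⟩, if_pos ⟨rfl, rfl⟩, show b - 1 + 1 = b by ring]
    · rw [if_neg h, if_neg (by omega)]; ring

theorem a5d_ent_E (N : ℕ) (f : ℂ[X]) (i j k l : ℤ) :
    br (rt N) (i + 1) * rt N ^ (2 * j - N + 1) * ent N f (i + 1) j k l +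
      rt N ^ ((N : ℤ) - 1 - 2 * i) * br (rt N) (j + 1) * ent N f i (j + 1) k l =
    br (rt N) k * rt N ^ (2 * l - N + 1) * ent N f i j (k - 1) l +
      rt N ^ ((N : ℤ) - 1 - 2 * k) * br (rt N) l * ent N f i j k (l - 1) := by
  have h := Eo_aeval (rt_ne N) N f (ev k l)
  have h2 := congrFun (congrFun h i) j
  rw [a5d_Eo_ev, map_add, map_smul, map_smul, Pi.add_apply, Pi.add_apply, Pi.smul_apply,
    Pi.smul_apply, Pi.smul_apply, Pi.smul_apply, smul_eq_mul, smul_eq_mul, Eo_apply] at h2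
  exact h2

theorem a5d_ent_ER {N : ℕ} (hN : 2 ≤ N) (f : ℂ[X]) : a5d_ER N (entN N f) := by
  intro i j k l hi hj hk hl
  have h := a5d_ent_E N f i j k l
  unfold entN
  have c1 : (if i + 1 < N then br (rt N) ((i : ℤ) + 1) * rt N ^ (2 * (j : ℤ) - N + 1) *
      ent N f ((i + 1 : ℕ) : ℤ) j k l else 0) =
      br (rt N) ((i : ℤ) + 1) * rt N ^ (2 * (j : ℤ) - N + 1) * ent N f ((i : ℤ) + 1) j k l := by
    by_cases h1 : i + 1 < N
    · rw [if_pos h1]; push_cast; rfl
    · rw [if_neg h1, show ((i : ℤ) + 1) = N by omega, br_top (by omega)]; ring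
  have c2 : (if j + 1 < N then rt N ^ ((N : ℤ) - 1 - 2 * i) * br (rt N) ((j : ℤ) + 1) *
      ent N f i ((j + 1 : ℕ) : ℤ) k l else 0) =
      rt N ^ ((N : ℤ) - 1 - 2 * i) * br (rt N) ((j : ℤ) + 1) * ent N f i ((j : ℤ) + 1) k l := by
    by_cases h1 : j + 1 < N
    · rw [if_pos h1]; push_cast; rfl
    · rw [if_neg h1, show ((j : ℤ) + 1) = N by omega, br_top (by omega)]; ring
  have c3 : (if 1 ≤ k then br (rt N) k * rt N ^ (2 * (l : ℤ) - N + 1) *
      ent N f i j ((k - 1 : ℕ) : ℤ) l else 0) =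
      br (rt N) k * rt N ^ (2 * (l : ℤ) - N + 1) * ent N f i j ((k : ℤ) - 1) l := by
    by_cases h1 : 1 ≤ k
    · rw [if_pos h1, show ((k - 1 : ℕ) : ℤ) = (k : ℤ) - 1 by omega]
    · obtain rfl : k = 0 := by omega
      rw [if_neg h1, Nat.cast_zero, br_zero]; ring
  have c4 : (if 1 ≤ l then rt N ^ ((N : ℤ) - 1 - 2 * k) * br (rt N) l *
      ent N f i j k ((l - 1 : ℕ) : ℤ) else 0) =
      rt N ^ ((N : ℤ) - 1 - 2 * k) * br (rt N) l * ent N f i j k ((l : ℤ) - 1) := by
    by_cases h1 : 1 ≤ l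
    · rw [if_pos h1, show ((l - 1 : ℕ) : ℤ) = (l : ℤ) - 1 by omega]
    · obtain rfl : l = 0 := by omega
      rw [if_neg h1, Nat.cast_zero, br_zero]; ring
  rw [c1, c2, c3, c4]
  exact h

/-- two kernels with the relations of commutation, which preserve the weight, are equal if
the entries `(0, k; k, 0)` are equal -/
theorem a5d_uniq {N : ℕ} {K : ℕ → ℕ → ℕ → ℕ → ℂ} (hF : a5d_FR N K) (hE : a5d_ER N K)
    (hW : ∀ i j k l : ℕ, i < N → j < N → k < N → l < N → i + j ≠ k + l → K i j k l = 0)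
    (h0 : ∀ k, k < N → K 0 k k 0 = 0) :
    ∀ l k i j : ℕ, l < N → k < N → i < N → j < N → K i j k l = 0 := by
  have ht := rt_ne N
  have hcol : ∀ k, k < N → ∀ i j : ℕ, i < N → j < N → K i j k 0 = 0 := by
    intro k
    induction k with
    | zero =>
      intro hk i j hi hj
      by_cases h : i + j = 0
      · obtain rfl : i = 0 := by omega
        obtain rfl : j = 0 := by omega
        exact h0 0 hk
      · exact hW i j 0 0 hi hj hk hk (by omega)
    | succ k ih =>
      intro hk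
      have ih' := ih (by omega)
      -- induction on the first output index
      have key : ∀ i, i ≤ k + 1 → K i (k + 1 - i) (k + 1) 0 = 0 := by
        intro i
        induction i with
        | zero =>
          intro _
          exact h0 (k + 1) hk
        | succ i ihi =>
          intro hi
          have h1 := hE i (k - i) (k + 1) 0 (by omega) (by omega) hk (by omega)
          rw [if_pos (by omega), if_pos (by omega), if_pos (by omega), if_neg (by omega)] at h1
          have h2 := ihi (by omega)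
          rw [show k + 1 - i = k - i + 1 by omega] at h2
          have h3 : K i (k - i) (k + 1 - 1) 0 = 0 := by
            rw [Nat.add_sub_cancel]
            exact ih' i (k - i) (by omega) (by omega)
          rw [h2, h3, mul_zero, mul_zero, add_zero, add_zero] at h1
          have h4 : br (rt N) ((i : ℤ) + 1) * rt N ^ (2 * ((k - i : ℕ) : ℤ) - N + 1) ≠ 0 :=
            mul_ne_zero (br_ne (by omega) (by omega)) (zpow_ne_zero _ ht)
          rw [show k + 1 - (i + 1) = k - i by omega]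
          exact (mul_eq_zero.mp h1).resolve_left h4
      intro i j hi hj
      by_cases h : i + j = k + 1
      · have := key i (by omega)
        rwa [show k + 1 - i = j by omega] at this
      · exact hW i j (k + 1) 0 hi hj hk (by omega) (by omega)
  intro l
  induction l with
  | zero =>
    intro k i j _ hk hi hj
    exact hcol k hk i j hi hj
  | succ l ih =>
    intro k i j hl hk hi hj
    have h1 := hF i j k l hi hj hk (by omega)
    have e1 : (if 1 ≤ i then br (rt N) i * rt N ^ (2 * (j : ℤ) - N + 1) * K (i - 1) j k l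
        else 0) = 0 := by
      by_cases h : 1 ≤ i
      · rw [if_pos h, ih k (i - 1) j (by omega) hk (by omega) hj, mul_zero]
      · rw [if_neg h]
    have e2 : (if 1 ≤ j then rt N ^ ((N : ℤ) - 1 - 2 * i) * br (rt N) j * K i (j - 1) k l
        else 0) = 0 := by
      by_cases h : 1 ≤ j
      · rw [if_pos h, ih k i (j - 1) (by omega) hk hi (by omega), mul_zero]
      · rw [if_neg h]
    have e3 : (if k + 1 < N then br (rt N) ((k : ℤ) + 1) * rt N ^ (2 * (l : ℤ) - N + 1) *
        K i j (k + 1) l else 0) = 0 := by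
      by_cases h : k + 1 < N
      · rw [if_pos h, ih (k + 1) i j (by omega) h hi hj, mul_zero]
      · rw [if_neg h]
    rw [e1, e2, e3, if_pos hl, add_zero, zero_add] at h1
    have h4 : rt N ^ ((N : ℤ) - 1 - 2 * k) * br (rt N) ((l : ℤ) + 1) ≠ 0 :=
      mul_ne_zero (zpow_ne_zero _ ht) (br_ne (by omega) (by omega))
    exact (mul_eq_zero.mp h1.symm).resolve_left h4

theorem a5d_FR_sub {N : ℕ} {K K' : ℕ → ℕ → ℕ → ℕ → ℂ} (h : a5d_FR N K) (h' : a5d_FR N K') :
    a5d_FR N (fun i j k l => K i j k l - K' i j k l) := by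
  intro i j k l hi hj hk hl
  have h1 := h i j k l hi hj hk hl
  have h2 := h' i j k l hi hj hk hl
  split_ifs at h1 h2 ⊢ <;> linear_combination h1 - h2

theorem a5d_ER_sub {N : ℕ} {K K' : ℕ → ℕ → ℕ → ℕ → ℂ} (h : a5d_ER N K) (h' : a5d_ER N K') :
    a5d_ER N (fun i j k l => K i j k l - K' i j k l) := by
  intro i j k l hi hj hk hl
  have h1 := h i j k l hi hj hk hl
  have h2 := h' i j k l hi hj hk hl
  split_ifs at h1 h2 ⊢ <;> linear_combination h1 - h2

/-- A5d: conclusion; uses A5a, A5b, A5c -/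
theorem rep_circ_pr {N : ℕ} (hN : 2 ≤ N) : Rep N (circ 0) (cg N) := by
  refine ⟨C ((-1) ^ (N - 1)) * Chebyshev.S ℂ (N - 1 : ℕ), ?_, ?_⟩
  · set f : ℂ[X] := C ((-1) ^ (N - 1)) * Chebyshev.S ℂ (N - 1 : ℕ) with hf
    refine sem_congr (a5d_semKO (by omega)) ?_
    intro i hi j hj k hk l hl
    have h := a5d_uniq (a5d_FR_sub (a5d_KO_FR hN) (a5d_ent_FR hN f))
      (a5d_ER_sub (a5d_KO_ER hN) (a5d_ent_ER hN f))
      (fun i j k l hi hj hk hl hne => by
        have h1 : KO N i j k l = 0 := by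
          rw [a5d_KO (by omega) hi hj hk hl, a5d_wt hne]
        have h2 : entN N f i j k l = 0 := by
          by_contra h3
          unfold entN at h3
          have := ent_supp (N := N) f (by omega) (by omega) (by omega) (by omega) h3
          omega
        simp only [h1, h2, sub_zero])
      (fun k hk => by
        have := KO_entry hN hk
        simp only [this, hf, sub_self])
      l k i j hl hk hi hj
    exact sub_eq_zero.mp h
  · intro j _
    refine ⟨rfl, ?_⟩
    have hd : Differentiable ℂ (tp (C ((-1) ^ (N - 1)) * Chebyshev.S ℂ (N - 1 : ℕ))) := by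
      intro w
      have h1 : DifferentiableAt ℂ (fun w : ℂ => -2 * Complex.cos w) w := by fun_prop
      exact (Polynomial.differentiable (𝕜 := ℂ) _ _).comp w h1
    exact (hd _).hasDerivAt

end Pool.Agent.BT
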