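import Pool.Agent.Lib_helper43.BT.Wanted5

/-!
# Block COR: other numbers of half twists
-/

set_option autoImplicit false

open Complex Pool.Agent.VCdt.Geo Filter Topology

namespace Pool.Agent.BT

open Pool.Agent.TB

theorem psol_cor_pr (K : Plan) (a : ℕ → ℤ) (κ : ℕ → Fin 4 → ℂ) (x w m r : ℕ → ℂ) :
    (psol K κ x w m r).Cor (psol (K.setA a) κ x w m r) := by
  have hb : ∀ v, (bk (K.setA a).mid (vEq K.mid (fun i => a (i + 1)) v)).u = (bk K.mid v).u := by
    intro v
    have h := bk_vEq K.mid (fun i => a (i + 1)) v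
    change (bk (setV K.mid fun i => a (i + 1)) (vEq K.mid (fun i => a (i + 1)) v)).u = _
    rw [h]
  have ht : ∀ v, tmL (K.setA a).mid (vEq K.mid (fun i => a (i + 1)) v) = tmL K.mid v :=
    fun v => tmL_vEq K.mid (fun i => a (i + 1)) v
  have hf : ∀ v k, face (K.setA a).blks v k = face K.blks v k := by
    intro v k
    rw [setA_blks]
    exact (setA_facts K.blks a).2.1 v k
  have hl : (K.setA a).mid.length = K.mid.length := setV_length K.mid _
  refine ⟨?_, ?_, ?_, ?_, ?_, ?_, ?_, rfl⟩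
  · intro v
    funext j
    change κ (tmL (K.setA a).mid (vEq K.mid _ v) + 1) (kc (bk (K.setA a).mid (vEq K.mid _ v)).u j) =
      κ (tmL K.mid v + 1) (kc (bk K.mid v).u j)
    rw [hb, ht]
  · intro v
    funext j
    change exp (r ((face (K.setA a).blks (tmL (K.setA a).mid (vEq K.mid _ v) + 1)
      (kc (bk (K.setA a).mid (vEq K.mid _ v)).u j)).getD 0)) =
      exp (r ((face K.blks (tmL K.mid v + 1) (kc (bk K.mid v).u j)).getD 0))
    rw [hb, ht, hf]
  · intro v
    change x (tmL (K.setA a).mid (vEq K.mid _ v) + 1) = x (tmL K.mid v + 1)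
    rw [ht]
  · intro v
    change w (tmL (K.setA a).mid (vEq K.mid _ v) + 1) = w (tmL K.mid v + 1)
    rw [ht]
  · intro v
    change exp (m (tmL (K.setA a).mid (vEq K.mid _ v) + 1)) = exp (m (tmL K.mid v + 1))
    rw [ht]
  · funext b
    change x (if b then (K.setA a).mid.length + 1 else 0) = x (if b then K.mid.length + 1 else 0)
    rw [hl]
  · funext b
    change w (if b then (K.setA a).mid.length + 1 else 0) = w (if b then K.mid.length + 1 else 0)
    rw [hl]

/-- the facts used -/
structure cor_E (S S' : Sk) : Prop where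
  len : S'.length = S.length
  face : ∀ v k, face S' v k = face S v k
  ori : ∀ v < S.length, ori S' v = ori S v

theorem cor_setA (S : Sk) (a : ℕ → ℤ) : cor_E S (setA S a) := by
  obtain ⟨h1, h2, h3, -⟩ := setA_facts S a
  refine ⟨h1, h2, fun v hv => ?_⟩
  unfold ori
  rw [h3 v hv]

theorem cor_end {S S' : Sk} (h : cor_E S S') (v : ℕ) : isEnd S' v = isEnd S v := by
  unfold isEnd
  rw [h.len]

theorem cor_sum {R : Type} [AddCommMonoid R] {S S' : Sk} (h : cor_E S S') (F F' : ℕ → R)
    (hF : ∀ v < S.length, F' v = F v) : ∑ v : Fin S'.length, F' v = ∑ v : Fin S.length, F v := by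
  rw [Fin.sum_univ_eq_sum_range F' S'.length, Fin.sum_univ_eq_sum_range F S.length, h.len]
  exact Finset.sum_congr rfl fun v hv => hF v (Finset.mem_range.1 hv)

theorem cor_lin {R : Type} [CommRing R] {S S' : Sk} (h : cor_E S S') (M : R)
    (κ : ℕ → Fin 4 → R) (x : ℕ → R) (hl : Lin S (ori S) M (fun v k => κ v k) (fun v => x v)) :
    Lin S' (ori S') M (fun v k => κ v k) (fun v => x v) := by
  have hlt : ∀ v : Fin S'.length, v.1 < S.length := fun v => by
    have := v.2
    have h2 := h.len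
    omega
  refine ⟨?_, ?_, ?_, ?_⟩
  · intro v
    exact hl.vert ⟨v.1, hlt v⟩
  · intro f hf
    have h1 := hl.face f (by rw [← h.len]; exact hf)
    rw [← h1]
    exact cor_sum h (fun v => ∑ k, if BT.face S v k = some f then κ v k else 0)
      (fun v => ∑ k, if BT.face S' v k = some f then κ v k else 0) fun v _ => by
        simp only [h.face]
  · intro v k hv
    rw [h.face] at hv
    exact hl.out ⟨v.1, hlt v⟩ k hv
  · intro v k h1 h2
    rw [h.face] at h2
    rw [cor_end h] at h1
    rw [h.ori v (hlt v)]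
    exact hl.ends ⟨v.1, hlt v⟩ k h1 h2

theorem cor_msol {S S' : Sk} (h : cor_E S S') (κ : ℕ → Fin 4 → ℂ) (x w m r : ℕ → ℂ)
    (hs : MSol S (fun v k => κ v k) (fun v => x v) (fun v => w v) (fun v => m v) r) :
    MSol S' (fun v k => κ v k) (fun v => x v) (fun v => w v) (fun v => m v) r := by
  have hlt : ∀ v : Fin S'.length, v.1 < S.length := fun v => by
    have := v.2
    have h2 := h.len
    omega
  refine ⟨cor_lin h _ κ x hs.lin, ?_, ?_, ?_⟩
  · intro v k f h1 h2
    rw [cor_end h] at h1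
    rw [h.face] at h2
    rw [h.ori v (hlt v)]
    exact hs.mult ⟨v.1, hlt v⟩ k f h1 h2
  · intro v h1
    rw [cor_end h] at h1
    rw [h.ori v (hlt v)]
    exact hs.vert ⟨v.1, hlt v⟩ h1
  · intro v k k' f f' h1 h2 h3 h4 h5
    rw [cor_end h] at h1
    rw [h.face] at h2 h3
    rw [h.ori v (hlt v)] at h4 h5
    exact hs.vertE ⟨v.1, hlt v⟩ k k' f f' h1 h2 h3 h4 h5

theorem msol_setA_pr (K : Plan) (a : ℕ → ℤ) (κ : ℕ → Fin 4 → ℂ) (x w m r : ℕ → ℂ)
    (hs : MSol K.blks (fun v k => κ v k) (fun v => x v) (fun v => w v) (fun v => m v) r) :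
    MSol (K.setA a).blks (fun v k => κ v k) (fun v => x v) (fun v => w v) (fun v => m v) r := by
  rw [setA_blks]
  exact cor_msol (cor_setA K.blks a) κ x w m r hs

theorem ang_setA_pr (K : Plan) (a : ℕ → ℤ) (κ : ℕ → Fin 4 → ℝ) (x : ℕ → ℝ)
    (hA : Ang K.blks (ori K.blks) (fun v k => κ v k) (fun v => x v)) :
    Ang (K.setA a).blks (ori (K.setA a).blks) (fun v k => κ v k) (fun v => x v) := by
  rw [setA_blks]
  have h := cor_setA K.blks a
  have hlt : ∀ v : Fin (setA K.blks a).length, v.1 < K.blks.length := fun v => by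
    have := v.2
    have h2 := h.len
    omega
  refine ⟨cor_lin h _ κ x hA.lin, ?_, ?_⟩
  · intro v
    exact hA.col ⟨v.1, hlt v⟩
  · intro v k h1 h2
    rw [cor_end h] at h1
    rw [h.face] at h2
    rw [h.ori v (hlt v)]
    exact hA.pos ⟨v.1, hlt v⟩ k h1 h2

theorem vc_setA_pr (K : Plan) (a : ℕ → ℤ) (κ : ℕ → Fin 4 → ℂ) (x w : ℕ → ℂ) :
    VC (K.setA a).blks (fun v k => κ v k) (fun v => x v) (fun v => w v) =
      VC K.blks (fun v k => κ v k) (fun v => x v) (fun v => w v) := by
  rw [setA_blks]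
  have h := cor_setA K.blks a
  unfold VC
  congr 1
  · exact cor_sum h (fun v => 2 * Lbc (x v) + Lbc (Real.pi / 2 - x v - w v / 2) +
      Lbc (Real.pi / 2 - x v + w v / 2)) _ fun v _ => rfl
  · refine cor_sum h (fun v => if isEnd K.blks v = false then
      ∑ k : Fin 4, (Lbc (Real.pi - sl (ori K.blks v) (Real.pi : ℂ) (x v) k - κ v k) +
        if face K.blks v k = none then 0 else Lbc (κ v k)) else 0)
      (fun v => if isEnd (setA K.blks a) v = false then
      ∑ k : Fin 4, (Lbc (Real.pi - sl (ori (setA K.blks a) v) (Real.pi : ℂ) (x v) k - κ v k) +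
        if face (setA K.blks a) v k = none then 0 else Lbc (κ v k)) else 0) fun v hv => ?_
    simp only [cor_end h, h.face, h.ori v hv]

end Pool.Agent.BT
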