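import Mathlib

/-! Cochains of a group on bar words, with values in a vector space with an action: coboundary,
one letter and two letter operators, and the identities between them. -/

set_option linter.unusedSectionVars false
set_option linter.unusedSimpArgs false

namespace BurgheleaT

/-- `inn w φ = Σ_{i=1}^{n-1} (-1)^i φ(..,gᵢgᵢ₊₁,..) + (-1)^n φ(g₁..gₙ₋₁)`. -/
def inn {N : Type*} [Group N] {A : Type*} [AddCommGroup A] : List N → (List N → A) → A
  | [], _ => 0
  | [_], φ => - φ []
  | g :: h :: l, φ => - φ (g * h :: l) - inn (h :: l) (fun l' => φ (g :: l'))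

/-- The coboundary of a cochain, for the maps `a g : A → A`. -/
def cob {N : Type*} [Group N] {A : Type*} [AddCommGroup A] (a : N → A → A) (φ : List N → A) :
    List N → A
  | [] => 0
  | g :: l => a g (φ l) + inn (g :: l) φ

section gen
variable {N : Type*} [Group N] {A : Type*} [AddCommGroup A] {A' : Type*} [AddCommGroup A']

theorem inn_map (f : A →+ A') : ∀ (l : List N) (φ : List N → A),
    inn l (fun l' => f (φ l')) = f (inn l φ)
  | [], φ => by simp [inn]
  | [_], φ => by simp [inn]
  | g :: h :: l, φ => by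
      simp only [inn, map_sub, map_neg]
      rw [inn_map f (h :: l) (fun l' => φ (g :: l'))]

theorem inn_add : ∀ (l : List N) (φ ψ : List N → A),
    inn l (φ + ψ) = inn l φ + inn l ψ
  | [], φ, ψ => by simp [inn]
  | [_], φ, ψ => by simp [inn]; abel
  | g :: h :: l, φ, ψ => by
      have h1 : (fun l' => (φ + ψ) (g :: l')) = (fun l' => φ (g :: l')) + (fun l' => ψ (g :: l')) := rfl
      simp only [inn]
      rw [h1, inn_add (h :: l)]
      simp only [Pi.add_apply]
      abel

theorem cob_map (f : A →+ A') (a : N → A → A) (a' : N → A' → A')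
    (haf : ∀ g v, f (a g v) = a' g (f v)) (φ : List N → A) :
    cob a' (fun l => f (φ l)) = fun l => f (cob a φ l) := by
  funext l
  cases l with
  | nil => simp [cob]
  | cons g l => simp only [cob, map_add, haf, inn_map]

/-- parity sign operator -/
theorem inn_sign : ∀ (l : List N) (φ : List N → A),
    inn l (fun l' => ((-1 : ℤ) ^ l'.length) • φ l') = - ((-1 : ℤ) ^ l.length) • inn l φ
  | [], φ => by simp [inn]
  | [_], φ => by simp [inn]
  | g :: h :: l, φ => by
      simp only [inn, List.length_cons]
      have h1 := inn_sign (h :: l) (fun l' => φ (g :: l'))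
      have h2 : (fun l' : List N => ((-1 : ℤ) ^ (l'.length + 1)) • φ (g :: l'))
          = fun l' : List N => (negAddMonoidHom : A →+ A) (((-1 : ℤ) ^ l'.length) • φ (g :: l')) := by
        funext l'
        simp [pow_succ]
      rw [h2, inn_map, h1]
      simp only [List.length_cons, negAddMonoidHom_apply, pow_succ, mul_neg, mul_one, neg_neg,
        smul_sub, smul_neg, neg_smul]

end gen

section ops
variable {N : Type*} [Group N] {K : Type*} [Field K] {A : Type*} [AddCommGroup A] [Module K A]

/-- cochains of all degrees -/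
abbrev Co (N : Type*) (A : Type*) := List N → A

/-- The coboundary as a linear operator. -/
def dl (a : N → Module.End K A) : Module.End K (Co N A) where
  toFun φ := cob (fun g v => a g v) φ
  map_add' φ ψ := by
    funext l
    cases l with
    | nil => simp [cob]
    | cons g l => simp only [cob, inn_add, Pi.add_apply, map_add]; abel
  map_smul' r φ := by
    funext l
    cases l with
    | nil => simp [cob]
    | cons g l =>
      have h := inn_map ((LinearMap.lsmul K A r).toAddMonoidHom) (g :: l) φ
      simp only [LinearMap.toAddMonoidHom_coe, LinearMap.lsmul_apply] at h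
      have h2 : (r • φ : Co N A) = fun l' => r • φ l' := rfl
      simp only [cob, RingHom.id_apply, Pi.smul_apply, map_smul, smul_add]
      rw [h2, h]

/-- one letter operator -/
def T1 (A₁ : N → Module.End K A) : Module.End K (Co N A) where
  toFun φ := fun
    | [] => 0
    | g :: l => A₁ g (φ l)
  map_add' φ ψ := by funext l; cases l <;> simp
  map_smul' r φ := by funext l; cases l <;> simp

/-- two letter operator -/
def T2 (B : N → N → Module.End K A) : Module.End K (Co N A) where
  toFun φ := fun
    | [] => 0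
    | [_] => 0
    | g :: h :: l => B g h (φ l)
  map_add' φ ψ := by funext l; rcases l with _ | ⟨g, _ | ⟨h, l⟩⟩ <;> simp
  map_smul' r φ := by funext l; rcases l with _ | ⟨g, _ | ⟨h, l⟩⟩ <;> simp

/-- three letter operator -/
def T3 (B : N → N → N → Module.End K A) : Module.End K (Co N A) where
  toFun φ := fun
    | [] => 0
    | [_] => 0
    | [_, _] => 0
    | g :: h :: k :: l => B g h k (φ l)
  map_add' φ ψ := by funext l; rcases l with _ | ⟨g, _ | ⟨h, _ | ⟨k, l⟩⟩⟩ <;> simp
  map_smul' r φ := by funext l; rcases l with _ | ⟨g, _ | ⟨h, _ | ⟨k, l⟩⟩⟩ <;> simp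

/-- parity operator -/
def ep : Module.End K (Co N A) where
  toFun φ := fun l => ((-1 : ℤ) ^ l.length) • φ l
  map_add' φ ψ := by funext l; simp
  map_smul' r φ := by
    funext l
    simp only [Pi.smul_apply, RingHom.id_apply]
    rw [smul_comm]

variable (a : N → Module.End K A)

theorem T1_mul_T1 (A₁ A₂ : N → Module.End K A) :
    T1 A₁ * T1 A₂ = T2 (fun g h => A₁ g * A₂ h) := by
  apply LinearMap.ext; intro φ; funext l
  rcases l with _ | ⟨g, _ | ⟨h, l⟩⟩ <;> simp [T1, T2, Module.End.mul_apply]

theorem T2_mul_T1 (B : N → N → Module.End K A) (A₂ : N → Module.End K A) :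
    T2 B * T1 A₂ = T3 (fun g h k => B g h * A₂ k) := by
  apply LinearMap.ext; intro φ; funext l
  rcases l with _ | ⟨g, _ | ⟨h, _ | ⟨k, l⟩⟩⟩ <;> simp [T1, T2, T3, Module.End.mul_apply]

theorem T1_mul_T2 (A₂ : N → Module.End K A) (B : N → N → Module.End K A) :
    T1 A₂ * T2 B = T3 (fun g h k => A₂ g * B h k) := by
  apply LinearMap.ext; intro φ; funext l
  rcases l with _ | ⟨g, _ | ⟨h, _ | ⟨k, l⟩⟩⟩ <;> simp [T1, T2, T3, Module.End.mul_apply]

theorem dl_T1 (A₁ : N → Module.End K A) :
    dl a * T1 A₁ + T1 A₁ * dl a = T2 (fun g h => a g * A₁ h - A₁ (g * h) + A₁ g * a h) := by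
  apply LinearMap.ext; intro φ; funext l
  rcases l with _ | ⟨g, _ | ⟨h, l⟩⟩
  · simp [T1, T2, dl, cob, Module.End.mul_apply]
  · simp [T1, T2, dl, cob, inn, Module.End.mul_apply]
  · have h1 := inn_map ((A₁ g).toAddMonoidHom) (h :: l) φ
    simp only [LinearMap.toAddMonoidHom_coe] at h1
    simp only [T1, T2, dl, cob, inn, Module.End.mul_apply, LinearMap.add_apply, LinearMap.coe_mk,
      AddHom.coe_mk, Pi.add_apply, LinearMap.sub_apply, map_add]
    rw [h1]
    abel

theorem dl_T2 (B : N → N → Module.End K A) :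
    dl a * T2 B - T2 B * dl a =
      T3 (fun g h k => a g * B h k - B (g * h) k + B g (h * k) - B g h * a k) := by
  apply LinearMap.ext; intro φ; funext l
  rcases l with _ | ⟨g, _ | ⟨h, _ | ⟨k, l⟩⟩⟩
  · simp [T2, T3, dl, cob, Module.End.mul_apply]
  · simp [T2, T3, dl, cob, inn, Module.End.mul_apply]
  · simp [T2, T3, dl, cob, inn, Module.End.mul_apply]
  · have h1 := inn_map ((B g h).toAddMonoidHom) (k :: l) φ
    simp only [LinearMap.toAddMonoidHom_coe] at h1
    simp only [T2, T3, dl, cob, inn, Module.End.mul_apply, LinearMap.add_apply, LinearMap.coe_mk,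
      AddHom.coe_mk, Pi.add_apply, LinearMap.sub_apply, map_add, Pi.sub_apply]
    rw [h1]
    abel

theorem ep_dl : (ep : Module.End K (Co N A)) * dl a = - (dl a * ep) := by
  apply LinearMap.ext; intro φ; funext l
  cases l with
  | nil => simp [ep, dl, cob, Module.End.mul_apply]
  | cons g l =>
    have h1 := inn_sign (g :: l) φ
    simp only [ep, dl, cob, Module.End.mul_apply, LinearMap.neg_apply, LinearMap.coe_mk,
      AddHom.coe_mk, Pi.neg_apply]
    rw [h1]
    simp only [List.length_cons, pow_succ, mul_neg, mul_one, neg_smul, smul_add, neg_neg, map_zsmul]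
    abel

theorem ep_T1 (A₁ : N → Module.End K A) : (ep : Module.End K (Co N A)) * T1 A₁ = - (T1 A₁ * ep) := by
  apply LinearMap.ext; intro φ; funext l
  cases l with
  | nil => simp [ep, T1, Module.End.mul_apply]
  | cons g l =>
    simp [ep, T1, Module.End.mul_apply, pow_succ]

theorem ep_T2 (B : N → N → Module.End K A) : (ep : Module.End K (Co N A)) * T2 B = T2 B * ep := by
  apply LinearMap.ext; intro φ; funext l
  rcases l with _ | ⟨g, _ | ⟨h, l⟩⟩
  · simp [ep, T2, Module.End.mul_apply]
  · simp [ep, T2, Module.End.mul_apply]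
  · simp [ep, T2, Module.End.mul_apply, pow_succ]

theorem ep_ep : (ep : Module.End K (Co N A)) * ep = 1 := by
  apply LinearMap.ext; intro φ; funext l
  simp only [ep, Module.End.mul_apply, LinearMap.coe_mk, AddHom.coe_mk, Module.End.one_apply,
    smul_smul]
  rw [← mul_pow]
  simp

theorem T1_add (A₁ A₂ : N → Module.End K A) : T1 (fun g => A₁ g + A₂ g) = T1 A₁ + T1 A₂ := by
  apply LinearMap.ext; intro φ; funext l
  cases l <;> simp [T1]

theorem T2_add (B₁ B₂ : N → N → Module.End K A) :
    T2 (fun g h => B₁ g h + B₂ g h) = T2 B₁ + T2 B₂ := by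
  apply LinearMap.ext; intro φ; funext l
  rcases l with _ | ⟨g, _ | ⟨h, l⟩⟩ <;> simp [T2]

theorem T2_sub (B₁ B₂ : N → N → Module.End K A) :
    T2 (fun g h => B₁ g h - B₂ g h) = T2 B₁ - T2 B₂ := by
  apply LinearMap.ext; intro φ; funext l
  rcases l with _ | ⟨g, _ | ⟨h, l⟩⟩ <;> simp [T2]

theorem T3_sub (B₁ B₂ : N → N → N → Module.End K A) :
    T3 (fun g h k => B₁ g h k - B₂ g h k) = T3 B₁ - T3 B₂ := by
  apply LinearMap.ext; intro φ; funext l
  rcases l with _ | ⟨g, _ | ⟨h, _ | ⟨k, l⟩⟩⟩ <;> simp [T3]

end ops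
end BurgheleaT
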