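import Mathlib

/-!
# The terms `T_k(x, ℚ)` of the periodic cyclic homology of a group algebra: definitions

`G` is a group, `x : G` has infinite order, `Cen x` is its centralizer, `RedCen x` the reduced
centralizer `Cen x / ⟨x⟩`.  Rational homology is computed by the (inhomogeneous) bar complex, the
Gysin homomorphisms `S` are the cap products with the class of the central extension
`1 → ⟨x⟩ → Cen x → RedCen x → 1`.
-/

namespace BurgheleaT

/-! ### Rational homology of a group -/

section homology

variable (N : Type*) [Group N]

/-- Bar chains of all degrees: rational combinations of words `[g₁|…|gₙ]`. -/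
abbrev Chains := List N →₀ ℚ

variable {N}

/-- The `i`-th face of a word: `face 0 [g₁|…|gₙ] = [g₂|…|gₙ]`,
`face i [g₁|…|gₙ] = [g₁|…|gᵢgᵢ₊₁|…|gₙ]` for `0 < i < n`, `face n [g₁|…|gₙ] = [g₁|…|gₙ₋₁]`. -/
def face : ℕ → List N → List N
  | 0, w => w.tail
  | _ + 1, [] => []
  | _ + 1, [_] => []
  | 1, g :: h :: w => g * h :: w
  | i + 2, g :: h :: w => g :: face (i + 1) (h :: w)

/-- The boundary of a word: `∑ i ≤ n, (-1) ^ i face i [g₁|…|gₙ]` for `n ≥ 1`, zero for `n = 0`. -/
noncomputable def bdryWord (w : List N) : Chains N :=
  if w = [] then 0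
  else ∑ i ∈ Finset.range (w.length + 1), Finsupp.single (face i w) ((-1 : ℚ) ^ i)

variable (N)

/-- The boundary operator. -/
noncomputable def bdry : Chains N →ₗ[ℚ] Chains N := Finsupp.linearCombination ℚ bdryWord

/-- The chains of degree `m` (zero if `m < 0`). -/
noncomputable def deg (m : ℤ) : Submodule ℚ (Chains N) :=
  Finsupp.supported ℚ ℚ {w : List N | (w.length : ℤ) = m}

/-- The cycles of degree `m`. -/
noncomputable def Cyc (m : ℤ) : Submodule ℚ (Chains N) := deg N m ⊓ LinearMap.ker (bdry N)

/-- The boundaries of degree `m`. -/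
noncomputable def Bdr (m : ℤ) : Submodule ℚ (Chains N) := (deg N (m + 1)).map (bdry N)

/-- The homology `H_m(N; ℚ)`, `m ∈ ℤ`: cycles modulo boundaries. -/
def H (m : ℤ) := Cyc N m ⧸ (Bdr N m).comap (Cyc N m).subtype

noncomputable instance (m : ℤ) : AddCommGroup (H N m) := Submodule.Quotient.addCommGroup _

noncomputable instance (m : ℤ) : Module ℚ (H N m) := Submodule.Quotient.module _

end homology

/-! ### The cap product with a 2-cocycle -/

section cap

variable {N : Type*} [Group N]

/-- Integral 2-cocycles. -/
def IsCoc (c : N → N → ℤ) : Prop := ∀ g h k, c g h + c (g * h) k = c g (h * k) + c h k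

/-- `[g₁|…|gₙ] ↦ c(g₁, g₂) [g₃|…|gₙ]` -/
noncomputable def capWord (c : N → N → ℤ) : List N → Chains N
  | g :: h :: w => Finsupp.single w ((c g h : ℤ) : ℚ)
  | _ => 0

/-- The cap product with `c` on chains. -/
noncomputable def cap (c : N → N → ℤ) : Chains N →ₗ[ℚ] Chains N :=
  Finsupp.linearCombination ℚ (capWord c)

end cap

/-! ### The centralizer, the reduced centralizer, the class of the central extension -/

section group

variable {G : Type*} [Group G] (x : G)

/-- The centralizer `G_x`. -/
abbrev Cen : Subgroup G := Subgroup.centralizer {x}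

/-- `x` as an element of its centralizer. -/
def gen : Cen x := ⟨x, Subgroup.mem_centralizer_singleton_iff.mpr rfl⟩

instance zpowers_gen_normal : (Subgroup.zpowers (gen x)).Normal where
  conj_mem := by
    intro n hn g
    have hc : ∀ m ∈ Subgroup.zpowers (gen x), g * m = m * g := by
      rintro _ ⟨k, rfl⟩
      have h1 : Commute g (gen x) := by
        apply Subtype.ext
        exact Subgroup.mem_centralizer_singleton_iff.mp g.2
      exact (h1.zpow_right k).eq
    rw [hc n hn, mul_assoc, mul_inv_cancel, mul_one]
    exact hn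

/-- The reduced centralizer `N_x = G_x / ⟨x⟩`. -/
def RedCen := Cen x ⧸ Subgroup.zpowers (gen x)

instance : Group (RedCen x) := QuotientGroup.Quotient.group _

/-- The projection `G_x → N_x`. -/
def proj : Cen x →* RedCen x := QuotientGroup.mk' (Subgroup.zpowers (gen x))

/-- A cocycle `c` of the central extension `1 → ⟨x⟩ → G_x → N_x → 1`: for some choice of
representatives `s g ∈ G_x` of the elements `g ∈ N_x`, `s(g) s(h) = s(gh) x ^ c(g, h)`. -/
structure EulerCocycle where
  /-- The representatives. -/
  s : RedCen x → Cen x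
  /-- They are representatives. -/
  hs : ∀ g : RedCen x, proj x (s g) = g
  /-- The cocycle. -/
  c : RedCen x → RedCen x → ℤ
  /-- The defining property. -/
  hc : ∀ g h : RedCen x, s g * s h = s (g * h) * gen x ^ c g h

end group

end BurgheleaT
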