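import Mathlib

/-! Operators modulo null-homotopic operators: a purely ring theoretic nilpotency lemma. -/

set_option linter.unusedSectionVars false

namespace BurgheleaT

variable {K : Type*} [Field K] [CharZero K] {R : Type*} [Ring R] [Algebra K R]

/-- `T` is null-homotopic for `δ` -/
def Null (δ T : R) : Prop := ∃ H : R, T = δ * H + H * δ

variable {δ : R}

theorem Null.zero : Null δ (0 : R) := ⟨0, by simp⟩

theorem Null.add {S T : R} (hS : Null δ S) (hT : Null δ T) : Null δ (S + T) := by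
  obtain ⟨H, rfl⟩ := hS; obtain ⟨H', rfl⟩ := hT
  exact ⟨H + H', by noncomm_ring⟩

theorem Null.neg {S : R} (hS : Null δ S) : Null δ (-S) := by
  obtain ⟨H, rfl⟩ := hS
  exact ⟨-H, by noncomm_ring⟩

theorem Null.sub {S T : R} (hS : Null δ S) (hT : Null δ T) : Null δ (S - T) := by
  rw [sub_eq_add_neg]; exact hS.add hT.neg

theorem Null.mul_left {S T : R} (hS : δ * S = S * δ) (hT : Null δ T) : Null δ (S * T) := by
  obtain ⟨H, rfl⟩ := hT
  refine ⟨S * H, ?_⟩
  have h1 : δ * (S * H) = S * (δ * H) := by rw [← mul_assoc, hS, mul_assoc]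
  rw [h1]; noncomm_ring

theorem Null.mul_right {S T : R} (hS : δ * S = S * δ) (hT : Null δ T) : Null δ (T * S) := by
  obtain ⟨H, rfl⟩ := hT
  refine ⟨H * S, ?_⟩
  have h1 : H * S * δ = H * δ * S := by rw [mul_assoc, ← hS, ← mul_assoc]
  rw [h1]; noncomm_ring

theorem Null.smul {T : R} (r : K) (hT : Null δ T) : Null δ (r • T) := by
  obtain ⟨H, rfl⟩ := hT
  exact ⟨r • H, by rw [mul_smul_comm, smul_mul_assoc, smul_add]⟩

theorem comm_pow {S : R} (hS : δ * S = S * δ) (n : ℕ) : δ * S ^ n = S ^ n * δ := by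
  have h : Commute δ S := hS
  exact (h.pow_right n)

theorem null_pow_comm {Q M : R} (hQ : δ * Q = Q * δ) (hM : δ * M = M * δ)
    (h : Null δ (Q * M - M * Q)) (n : ℕ) : Null δ (Q * M ^ n - M ^ n * Q) := by
  induction n with
  | zero => simpa using Null.zero
  | succ n ih =>
    have h1 : Q * M ^ (n + 1) - M ^ (n + 1) * Q
        = (Q * M ^ n - M ^ n * Q) * M + M ^ n * (Q * M - M * Q) := by
      rw [pow_succ]; noncomm_ring
    rw [h1]
    exact (ih.mul_right hM).add (h.mul_left (comm_pow hM n))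

theorem null_ad {D M Q : R} (hD : δ * D = D * δ) (hM : δ * M = M * δ) (hQ : δ * Q = Q * δ)
    (h1 : Null δ (D * M - M * D - Q)) (h2 : Null δ (Q * M - M * Q)) (n : ℕ) :
    Null δ (D * M ^ (n + 1) - M ^ (n + 1) * D - ((n + 1 : ℕ) : R) * (Q * M ^ n)) := by
  induction n with
  | zero => simpa using h1
  | succ n ih =>
    have e : D * M ^ (n + 1 + 1) - M ^ (n + 1 + 1) * D - ((n + 1 + 1 : ℕ) : R) * (Q * M ^ (n + 1))
        = (D * M ^ (n + 1) - M ^ (n + 1) * D - ((n + 1 : ℕ) : R) * (Q * M ^ n)) * M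
          + M ^ (n + 1) * (D * M - M * D - Q) - (Q * M ^ (n + 1) - M ^ (n + 1) * Q) := by
      rw [pow_succ M (n + 1), pow_succ M n]
      push_cast
      noncomm_ring
    rw [e]
    exact ((ih.mul_right hM).add (h1.mul_left (comm_pow hM _))).sub (null_pow_comm hQ hM h2 _)

/-- If `[D, M] = Q` with `Q` central modulo null-homotopic operators and `M ^ r` is
null-homotopic, then `Q ^ r` is null-homotopic (characteristic zero). -/
theorem null_pow (K : Type*) [Field K] [CharZero K] [Algebra K R]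
    {D M Q : R} (hD : δ * D = D * δ) (hM : δ * M = M * δ) (hQ : δ * Q = Q * δ)
    (h1 : Null δ (D * M - M * D - Q)) (h2 : Null δ (Q * M - M * Q))
    (h3 : Null δ (Q * D - D * Q)) (r : ℕ) (hr : Null δ (M ^ r)) : Null δ (Q ^ r) := by
  have key : ∀ j k : ℕ, j + k = r → Null δ (Q ^ j * M ^ k) := by
    intro j
    induction j with
    | zero => intro k hk; simp only [zero_add] at hk; subst hk; simpa using hr
    | succ j ih =>
      intro k hk
      have ih' := ih (k + 1) (by omega)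
      have hA := ih'.mul_left hD
      have hB := ih'.mul_right hD
      have hC := null_pow_comm (Q := D) (M := Q) hD hQ (by
        have := h3.neg; rwa [neg_sub] at this) j
      have hE := null_ad hD hM hQ h1 h2 k
      have e : ((k + 1 : ℕ) : R) * (Q ^ (j + 1) * M ^ k)
          = D * (Q ^ j * M ^ (k + 1)) - (Q ^ j * M ^ (k + 1)) * D
            - (D * Q ^ j - Q ^ j * D) * M ^ (k + 1)
            - Q ^ j * (D * M ^ (k + 1) - M ^ (k + 1) * D - ((k + 1 : ℕ) : R) * (Q * M ^ k)) := by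
        have hc : Q ^ j * (((k + 1 : ℕ) : R) * (Q * M ^ k))
            = ((k + 1 : ℕ) : R) * (Q ^ (j + 1) * M ^ k) := by
          rw [← mul_assoc, ← (Nat.cast_commute (k + 1) (Q ^ j)).eq, mul_assoc, pow_succ, mul_assoc]
        rw [mul_sub, hc]
        noncomm_ring
      have hN : Null δ (((k + 1 : ℕ) : R) * (Q ^ (j + 1) * M ^ k)) := by
        rw [e]
        exact ((hA.sub hB).sub (hC.mul_right (comm_pow hM _))).sub
          (hE.mul_left (comm_pow hQ _))
      have hk0 : ((k + 1 : ℕ) : K) ≠ 0 := Nat.cast_ne_zero.mpr (Nat.succ_ne_zero k)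
      have h5 := hN.smul (((k + 1 : ℕ) : K)⁻¹)
      have h6 : (((k + 1 : ℕ) : K)⁻¹) • (((k + 1 : ℕ) : R) * (Q ^ (j + 1) * M ^ k))
          = Q ^ (j + 1) * M ^ k := by
        have h7 : ((k + 1 : ℕ) : R) = algebraMap K R ((k + 1 : ℕ) : K) := by
          rw [map_natCast]
        rw [h7, ← Algebra.smul_def, smul_smul, inv_mul_cancel₀ hk0, one_smul]
      rwa [h6] at h5
  simpa using key r 0 (by omega)

/-- The same with anticommuting generators and a parity operator `e`. -/
theorem null_main (K : Type*) [Field K] [CharZero K] [Algebra K R]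
    {d e M₀ D₀ Q Fo H BM BD : R} (hee : e * e = 1) (hed : e * d = -(d * e))
    (heM : e * M₀ = -(M₀ * e)) (heD : e * D₀ = -(D₀ * e)) (heQ : e * Q = Q * e)
    (hdM : d * M₀ = -(M₀ * d)) (hdD : d * D₀ = -(D₀ * d)) (hdQ : d * Q = Q * d)
    (hQM : Q * M₀ - M₀ * Q = d * BM - BM * d) (hQD : Q * D₀ - D₀ * Q = d * BD - BD * d)
    (hrel : D₀ * M₀ - M₀ * D₀ = Q - (d * Fo + Fo * d) + (d * H + H * d))
    (r : ℕ) (hr : (M₀ * e) ^ r = 0) : Null d (Q ^ r) := by
  have hde : d * e = -(e * d) := by rw [hed, neg_neg]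
  have c1 : ∀ {T : R}, d * T = -(T * d) → d * (T * e) = (T * e) * d := by
    intro T hT
    rw [← mul_assoc, hT, mul_assoc T e d, hed, neg_mul, mul_neg, mul_assoc]
  have c2 : ∀ {T B : R}, Q * T - T * Q = d * B - B * d → Null d (Q * (T * e) - (T * e) * Q) := by
    intro T B hT
    refine ⟨B * e, ?_⟩
    have h2 : Q * (T * e) - (T * e) * Q = (Q * T - T * Q) * e := by
      rw [mul_assoc T e, heQ]; noncomm_ring
    rw [h2, hT, mul_assoc B e, hed]; noncomm_ring
  refine null_pow K (D := -(D₀ * e)) (M := M₀ * e) ?_ (c1 hdM) hdQ ?_ (c2 hQM) ?_ r ?_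
  · rw [mul_neg, c1 hdD, neg_mul]
  · have e1 : D₀ * e * (M₀ * e) = - (D₀ * M₀) := by
      rw [mul_assoc, ← mul_assoc e, heM, neg_mul, mul_assoc M₀, hee, mul_one, mul_neg]
    have e2 : M₀ * e * (D₀ * e) = - (M₀ * D₀) := by
      rw [mul_assoc, ← mul_assoc e, heD, neg_mul, mul_assoc D₀, hee, mul_one, mul_neg]
    refine ⟨H - Fo, ?_⟩
    rw [neg_mul, mul_neg, e1, e2, neg_neg, sub_neg_eq_add]
    have : D₀ * M₀ + -(M₀ * D₀) - Q = (D₀ * M₀ - M₀ * D₀) - Q := by noncomm_ring
    rw [this, hrel]; noncomm_ring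
  · have h := (c2 hQD).neg
    have e3 : Q * -(D₀ * e) - -(D₀ * e) * Q = -(Q * (D₀ * e) - (D₀ * e) * Q) := by noncomm_ring
    rw [e3]; exact h
  · rw [hr]; exact Null.zero

end BurgheleaT
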