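import Mathlib
import Pool.Agent.Lib_helper52.BT.Coch
import Pool.Agent.Lib_helper52.BT.Ring

/-! The operators `z ∧` and `y ⌟` on cochains with values in an exterior algebra. -/

set_option linter.unusedSectionVars false

namespace BurgheleaT

open CliffordAlgebra (contractLeft)

section alg
variable {K : Type*} [Field K] {Y : Type*} [AddCommGroup Y] [Module K Y]

theorem contract_map (f : Y →ₗ[K] Y) (d : Module.Dual K Y) (w : ExteriorAlgebra K Y) :
    contractLeft (Q := (0 : QuadraticForm K Y)) d (ExteriorAlgebra.map f w) =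
      ExteriorAlgebra.map f (contractLeft (Q := (0 : QuadraticForm K Y)) (d ∘ₗ f) w) := by
  induction w using CliffordAlgebra.left_induction with
  | algebraMap r =>
    rw [AlgHom.commutes]
    erw [CliffordAlgebra.contractLeft_algebraMap, CliffordAlgebra.contractLeft_algebraMap]
    rw [map_zero]
  | add x y hx hy => rw [map_add, map_add, map_add, map_add, hx, hy]
  | ι_mul x m hx =>
    have h1 : ExteriorAlgebra.map f (CliffordAlgebra.ι (0 : QuadraticForm K Y) m * x)
        = CliffordAlgebra.ι (0 : QuadraticForm K Y) (f m) * ExteriorAlgebra.map f x := by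
      rw [map_mul]; congr 1
      exact ExteriorAlgebra.map_apply_ι f m
    rw [h1, CliffordAlgebra.contractLeft_ι_mul, CliffordAlgebra.contractLeft_ι_mul, hx, map_sub,
      map_smul, map_mul]
    congr 1
    congr 1
    exact (ExteriorAlgebra.map_apply_ι f m).symm

theorem range_ι_pow_eq_bot [Module.Finite K Y] {r : ℕ} (hr : Module.finrank K Y < r) :
    (LinearMap.range (ExteriorAlgebra.ι K : Y →ₗ[K] ExteriorAlgebra K Y)) ^ r = ⊥ := by
  change (⋀[K]^r Y) = ⊥
  rw [← ExteriorAlgebra.ιMulti_span_fixedDegree]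
  rw [Submodule.span_eq_bot]
  rintro _ ⟨v, rfl⟩
  apply AlternatingMap.map_linearDependent
  intro hv
  have := hv.fintype_card_le_finrank
  simp at this
  omega

end alg

section main
variable {N : Type*} [Group N] {K : Type*} [Field K] {Y : Type*} [AddCommGroup Y]
  [Module K Y]

/-- action on the exterior algebra -/
noncomputable def Ea (a : N → Y →ₗ[K] Y) (g : N) : Module.End K (ExteriorAlgebra K Y) :=
  (ExteriorAlgebra.map (a g)).toLinearMap

/-- left multiplication by `z g` after the action -/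
noncomputable def Mz (a : N → Y →ₗ[K] Y) (z : N → Y) (g : N) :
    Module.End K (ExteriorAlgebra K Y) :=
  LinearMap.mulLeft K (ExteriorAlgebra.ι K (z g)) * Ea a g

/-- contraction with `y g` before the action -/
noncomputable def Dy (a : N → Y →ₗ[K] Y) (y : N → Module.Dual K Y) (g : N) :
    Module.End K (ExteriorAlgebra K Y) :=
  Ea a g * contractLeft (Q := (0 : QuadraticForm K Y)) (y g)

variable (a : N → Y →ₗ[K] Y) (z : N → Y) (y : N → Module.Dual K Y)

theorem Ea_apply (g : N) (w : ExteriorAlgebra K Y) : Ea a g w = ExteriorAlgebra.map (a g) w := rfl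

theorem Mz_apply (g : N) (w : ExteriorAlgebra K Y) :
    Mz a z g w = ExteriorAlgebra.ι K (z g) * ExteriorAlgebra.map (a g) w := rfl

theorem Dy_apply (g : N) (w : ExteriorAlgebra K Y) :
    Dy a y g w = ExteriorAlgebra.map (a g) (contractLeft (Q := (0 : QuadraticForm K Y)) (y g) w) :=
  rfl

variable {a z y}

theorem Ea_mul (ha : ∀ g h, a (g * h) = a g ∘ₗ a h) (g h : N) : Ea a g * Ea a h = Ea a (g * h) := by
  apply LinearMap.ext; intro w
  simp only [Module.End.mul_apply, Ea_apply]
  rw [ha, ← ExteriorAlgebra.map_comp_map]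
  rfl

theorem map_map' (ha : ∀ g h, a (g * h) = a g ∘ₗ a h) (g h : N) (w : ExteriorAlgebra K Y) :
    ExteriorAlgebra.map (a g) (ExteriorAlgebra.map (a h) w) = ExteriorAlgebra.map (a (g * h)) w := by
  rw [ha, ← ExteriorAlgebra.map_comp_map]
  rfl

theorem Mz_coc (ha : ∀ g h, a (g * h) = a g ∘ₗ a h) (hz : ∀ g h, z (g * h) = z g + a g (z h))
    (g h : N) : Ea a g * Mz a z h - Mz a z (g * h) + Mz a z g * Ea a h = 0 := by
  apply LinearMap.ext; intro w
  simp only [Module.End.mul_apply, LinearMap.add_apply, LinearMap.sub_apply, Ea_apply, Mz_apply,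
    LinearMap.zero_apply, map_mul, ExteriorAlgebra.map_apply_ι, map_map' ha, hz, map_add, add_mul]
  abel

theorem Dy_coc (ha : ∀ g h, a (g * h) = a g ∘ₗ a h) (hy : ∀ g h, y (g * h) = y h + y g ∘ₗ a h)
    (g h : N) : Ea a g * Dy a y h - Dy a y (g * h) + Dy a y g * Ea a h = 0 := by
  apply LinearMap.ext; intro w
  simp only [Module.End.mul_apply, LinearMap.add_apply, LinearMap.sub_apply, Ea_apply, Dy_apply,
    LinearMap.zero_apply, contract_map, map_map' ha, hy, map_add]
  abel

/-- the homotopy between the two orders -/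
noncomputable def H0 (a : N → Y →ₗ[K] Y) (z : N → Y) (y : N → Module.Dual K Y) (g : N) :
    Module.End K (ExteriorAlgebra K Y) :=
  LinearMap.mulLeft K (ExteriorAlgebra.ι K (z g)) * Dy a y g

theorem H0_apply (g : N) (w : ExteriorAlgebra K Y) :
    H0 a z y g w = ExteriorAlgebra.ι K (z g) *
      ExteriorAlgebra.map (a g) (contractLeft (Q := (0 : QuadraticForm K Y)) (y g) w) := rfl

theorem comm_rel (ha : ∀ g h, a (g * h) = a g ∘ₗ a h) (hz : ∀ g h, z (g * h) = z g + a g (z h))
    (hy : ∀ g h, y (g * h) = y h + y g ∘ₗ a h) (g h : N) :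
    Dy a y g * Mz a z h - Mz a z g * Dy a y h = (y g (z h)) • Ea a (g * h)
      + (Ea a g * H0 a z y h - H0 a z y (g * h) + H0 a z y g * Ea a h) := by
  apply LinearMap.ext; intro w
  have h1 : contractLeft (Q := (0 : QuadraticForm K Y)) (y g)
      (ExteriorAlgebra.ι K (z h) * ExteriorAlgebra.map (a h) w)
      = (y g (z h)) • ExteriorAlgebra.map (a h) w - ExteriorAlgebra.ι K (z h) *
        ExteriorAlgebra.map (a h) (contractLeft (Q := (0 : QuadraticForm K Y)) (y g ∘ₗ a h) w) := by
    rw [← contract_map]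
    exact CliffordAlgebra.contractLeft_ι_mul (y g) (z h) _
  simp only [Module.End.mul_apply, LinearMap.add_apply, LinearMap.sub_apply, LinearMap.smul_apply,
    Ea_apply, Mz_apply, Dy_apply, H0_apply, h1, contract_map, map_sub, map_smul, map_mul,
    ExteriorAlgebra.map_apply_ι, map_map' ha, hz, hy, map_add, add_mul, mul_add]
  abel

/-! ### the operators on cochains -/

/-- the operator of cup product with `c` -/
noncomputable def Qc (a : N → Y →ₗ[K] Y) (c : N → N → K) : Module.End K (Co N (ExteriorAlgebra K Y)) :=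
  T2 (fun g h => c g h • Ea a (g * h))

theorem dl_Qc (ha : ∀ g h, a (g * h) = a g ∘ₗ a h) {c : N → N → K}
    (hc : ∀ g h k, c g h + c (g * h) k = c g (h * k) + c h k) :
    dl (Ea a) * Qc a c = Qc a c * dl (Ea a) := by
  have h := dl_T2 (Ea a) (fun g h => c g h • Ea a (g * h))
  have h2 : (fun g h k => Ea a g * (c h k • Ea a (h * k)) - c (g * h) k • Ea a (g * h * k)
      + c g (h * k) • Ea a (g * (h * k)) - (c g h • Ea a (g * h)) * Ea a k)
      = fun _ _ _ => (0 : Module.End K (ExteriorAlgebra K Y)) := by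
    funext g h k
    rw [mul_smul_comm, smul_mul_assoc, Ea_mul ha, Ea_mul ha, mul_assoc]
    have e : c g h = c g (h * k) + c h k - c (g * h) k := by rw [← hc g h k]; ring
    rw [e]
    module
  rw [h2] at h
  have h3 : (T3 fun _ _ _ => (0 : Module.End K (ExteriorAlgebra K Y)) :
      Module.End K (Co N (ExteriorAlgebra K Y))) = 0 := by
    apply LinearMap.ext; intro φ; funext l
    rcases l with _ | ⟨g, _ | ⟨h, _ | ⟨k, l⟩⟩⟩ <;> simp [T3]
  rw [h3] at h
  exact sub_eq_zero.mp h

theorem Qc_T1 (ha : ∀ g h, a (g * h) = a g ∘ₗ a h) {c : N → N → K}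
    (hc : ∀ g h k, c g h + c (g * h) k = c g (h * k) + c h k)
    {A : N → Module.End K (ExteriorAlgebra K Y)}
    (hA : ∀ g h, Ea a g * A h - A (g * h) + A g * Ea a h = 0) :
    Qc a c * T1 A - T1 A * Qc a c =
      dl (Ea a) * T2 (fun g h => c g h • A (g * h)) - T2 (fun g h => c g h • A (g * h)) * dl (Ea a) := by
  rw [dl_T2, Qc, T2_mul_T1, T1_mul_T2, ← T3_sub]
  congr 1
  funext g h k
  have e : c g h = c g (h * k) + c h k - c (g * h) k := by rw [← hc g h k]; ring
  have e1 : A (g * (h * k)) = Ea a g * A (h * k) + A g * Ea a (h * k) := by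
    have := hA g (h * k)
    rw [sub_add_eq_add_sub, sub_eq_zero] at this
    exact this.symm
  have e2 : A (g * h * k) = Ea a (g * h) * A k + A (g * h) * Ea a k := by
    have := hA (g * h) k
    rw [sub_add_eq_add_sub, sub_eq_zero] at this
    exact this.symm
  have e3 : A (g * (h * k)) = Ea a (g * h) * A k + A (g * h) * Ea a k := by
    rw [← mul_assoc]; exact e2
  simp only [mul_smul_comm, smul_mul_assoc]
  rw [e2]
  have e4 : Ea a g * A (h * k) = Ea a (g * h) * A k + A (g * h) * Ea a k - A g * Ea a (h * k) := by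
    rw [← e3, e1]; abel
  rw [e4, e3, e]
  module

theorem dl_T1_coc {A : N → Module.End K (ExteriorAlgebra K Y)}
    (hA : ∀ g h, Ea a g * A h - A (g * h) + A g * Ea a h = 0) :
    dl (Ea a) * T1 A = - (T1 A * dl (Ea a)) := by
  have h := dl_T1 (Ea a) A
  have h2 : (fun g h => Ea a g * A h - A (g * h) + A g * Ea a h)
      = fun _ _ => (0 : Module.End K (ExteriorAlgebra K Y)) := by
    funext g h; exact hA g h
  rw [h2] at h
  have h3 : (T2 fun _ _ => (0 : Module.End K (ExteriorAlgebra K Y)) :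
      Module.End K (Co N (ExteriorAlgebra K Y))) = 0 := by
    apply LinearMap.ext; intro φ; funext l
    rcases l with _ | ⟨g, _ | ⟨h, l⟩⟩ <;> simp [T2]
  rw [h3] at h
  exact eq_neg_of_add_eq_zero_left h

/-- values in the ideal power -/
theorem T1_range {a : N → Y →ₗ[K] Y} {z : N → Y} {r : ℕ} (φ : Co N (ExteriorAlgebra K Y))
    (hφ : ∀ l, φ l ∈ (LinearMap.range (ExteriorAlgebra.ι K : Y →ₗ[K] _)) ^ r *
      (⊤ : Submodule K (ExteriorAlgebra K Y))) (l : List N) :
    (T1 (Mz a z) * ep : Module.End K (Co N (ExteriorAlgebra K Y))) φ l ∈ (LinearMap.range (ExteriorAlgebra.ι K : Y →ₗ[K] _)) ^ (r + 1) *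
      (⊤ : Submodule K (ExteriorAlgebra K Y)) := by
  cases l with
  | nil => exact Submodule.zero_mem _
  | cons g l =>
    have h1 : (T1 (Mz a z) * ep : Module.End K (Co N (ExteriorAlgebra K Y))) φ (g :: l) = Mz a z g (((-1 : ℤ) ^ l.length) • φ l) := rfl
    rw [h1, map_zsmul]
    apply zsmul_mem
    rw [Mz_apply, pow_succ', mul_assoc]
    have h0 : ExteriorAlgebra.ι K (z g) ∈
        LinearMap.range (ExteriorAlgebra.ι K : Y →ₗ[K] ExteriorAlgebra K Y) := ⟨z g, rfl⟩
    refine Submodule.mul_mem_mul h0 ?_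
    have h2 := Submodule.mem_map_of_mem (f := (ExteriorAlgebra.map (a g)).toLinearMap) (hφ l)
    rw [Submodule.map_mul, Submodule.map_pow] at h2
    have h3 : Submodule.map (ExteriorAlgebra.map (a g)).toLinearMap
        (LinearMap.range (ExteriorAlgebra.ι K : Y →ₗ[K] ExteriorAlgebra K Y)) ≤
        LinearMap.range (ExteriorAlgebra.ι K : Y →ₗ[K] ExteriorAlgebra K Y) := by
      rintro _ ⟨_, ⟨w, rfl⟩, rfl⟩
      exact ⟨a g w, (ExteriorAlgebra.map_apply_ι (a g) w).symm⟩
    exact (mul_le_mul' (pow_le_pow_left' h3 r) le_top) h2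

theorem T1_pow_eq_zero {a : N → Y →ₗ[K] Y} {z : N → Y} [Module.Finite K Y] :
    (T1 (Mz a z) * ep : Module.End K (Co N (ExteriorAlgebra K Y))) ^ (Module.finrank K Y + 1) = 0 := by
  have key : ∀ r : ℕ, ∀ φ : Co N (ExteriorAlgebra K Y), ∀ l,
      ((T1 (Mz a z) * ep : Module.End K (Co N (ExteriorAlgebra K Y))) ^ r) φ l ∈
        (LinearMap.range (ExteriorAlgebra.ι K : Y →ₗ[K] _)) ^ r *
          (⊤ : Submodule K (ExteriorAlgebra K Y)) := by
    intro r
    induction r with
    | zero => intro φ l; simp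
    | succ r ih =>
      intro φ l
      rw [pow_succ' (T1 (Mz a z) * ep : Module.End K (Co N (ExteriorAlgebra K Y)))]
      exact T1_range _ (ih φ) l
  apply LinearMap.ext; intro φ; funext l
  have h := key (Module.finrank K Y + 1) φ l
  rw [range_ι_pow_eq_bot (Nat.lt_succ_self _), Submodule.bot_mul, Submodule.mem_bot] at h
  simpa using h

/-- **Nilpotency modulo null-homotopic operators.** -/
theorem Qc_pow_null [CharZero K] [Module.Finite K Y]
    (ha : ∀ g h, a (g * h) = a g ∘ₗ a h) (hz : ∀ g h, z (g * h) = z g + a g (z h))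
    (hy : ∀ g h, y (g * h) = y h + y g ∘ₗ a h) {c : N → N → K}
    (hc : ∀ g h k, c g h + c (g * h) k = c g (h * k) + c h k)
    {F : N → K} (hF : ∀ g h, c g h = y g (z h) + F g + F h - F (g * h)) :
    Null (dl (Ea a)) ((Qc a c) ^ (Module.finrank K Y + 1)) := by
  have hM := Mz_coc (z := z) ha hz
  have hD := Dy_coc (y := y) ha hy
  have hmul : T1 (Dy a y) * T1 (Mz a z) - T1 (Mz a z) * T1 (Dy a y) = Qc a c
      - (dl (Ea a) * T1 (fun g => F g • Ea a g) + T1 (fun g => F g • Ea a g) * dl (Ea a))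
      + (dl (Ea a) * T1 (H0 a z y) + T1 (H0 a z y) * dl (Ea a)) := by
    rw [T1_mul_T1, T1_mul_T1, dl_T1, dl_T1, ← T2_sub, Qc, ← T2_sub, ← T2_add]
    congr 1
    funext g h
    rw [comm_rel ha hz hy g h, hF g h]
    simp only [mul_smul_comm, smul_mul_assoc, Ea_mul ha]
    module
  have hr : (T1 (Mz a z) * ep : Module.End K (Co N (ExteriorAlgebra K Y))) ^
      (Module.finrank K Y + 1) = 0 := T1_pow_eq_zero
  exact null_main K ep_ep (ep_dl _) (ep_T1 _) (ep_T1 _) (ep_T2 _) (dl_T1_coc hM) (dl_T1_coc hD)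
    (dl_Qc ha hc) (Qc_T1 ha hc hM) (Qc_T1 ha hc hD) hmul _ hr

end main
end BurgheleaT
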