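import Mathlib

/-! The holomorph of a group and the augmentation ideal of its rational group algebra. -/

namespace BurgheleaT

/-- The holomorph `π ⋊ Aut(π)`. -/
abbrev Hol (π : Type*) [Group π] := π ⋊[MonoidHom.id (MulAut π)] MulAut π

/-- The augmentation `ℚ[π] → ℚ`. -/
noncomputable def aug (π : Type*) [Group π] : MonoidAlgebra ℚ π →ₐ[ℚ] ℚ :=
  MonoidAlgebra.lift ℚ ℚ π 1

/-- The augmentation ideal `I` of `ℚ[π]`, as a subspace. -/
noncomputable def augIdeal (π : Type*) [Group π] : Submodule ℚ (MonoidAlgebra ℚ π) :=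
  LinearMap.ker (aug π).toLinearMap

/-- The intersection of the powers `I ^ (k + 1)`, `k ≥ 0`, is zero. -/
def AugSeparated (π : Type*) [Group π] : Prop :=
  ∀ a : MonoidAlgebra ℚ π, (∀ k : ℕ, a ∈ augIdeal π ^ (k + 1)) → a = 0

end BurgheleaT
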