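import Mathlib
import Pool.Agent.Lib_helper52.BT.Ext

/-! From the exterior algebra to rational cochains. -/

set_option linter.unusedSectionVars false

namespace BurgheleaT

/-- cup product with an integral 2-cochain from the left -/
def cupz {N : Type*} {A : Type*} [AddCommGroup A] (c : N → N → ℤ) (φ : List N → A) : List N → A
  | g :: h :: l => c g h • φ l
  | _ => 0

/-- the action by the identity -/
def triv {N : Type*} {A : Type*} : N → A → A := fun _ v => v

section
variable {N : Type*} [Group N] {A : Type*} [AddCommGroup A] {A' : Type*} [AddCommGroup A']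

theorem cupz_map (f : A →+ A') (c : N → N → ℤ) (φ : List N → A) :
    cupz c (fun l => f (φ l)) = fun l => f (cupz c φ l) := by
  funext l
  rcases l with _ | ⟨g, _ | ⟨h, l⟩⟩ <;> simp [cupz]

theorem cupz_iter_map (f : A →+ A') (c : N → N → ℤ) (n : ℕ) (φ : List N → A) :
    (cupz c)^[n] (fun l => f (φ l)) = fun l => f ((cupz c)^[n] φ l) := by
  induction n generalizing φ with
  | zero => rfl
  | succ n ih => rw [Function.iterate_succ_apply, Function.iterate_succ_apply, cupz_map, ih]

/-- the property that is used in the end: the `r`-th power of the class is zero, in the form of an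
operator identity on cocycles -/
def CupNil (c : N → N → ℤ) (r : ℕ) (A : Type*) [AddCommGroup A] : Prop :=
  ∀ φ : List N → A, cob triv φ = 0 → ∃ η : List N → A, (cupz c)^[r] φ = cob triv η

end

section
variable {N : Type*} [Group N] {K : Type*} [Field K] [CharZero K] {Y : Type*} [AddCommGroup Y]
  [Module K Y] [Module.Finite K Y] {a : N → Y →ₗ[K] Y} {z : N → Y} {y : N → Module.Dual K Y}

theorem Qc_pow_apply (c : N → N → ℤ) (n : ℕ) (φ : List N → K) :
    ((Qc a (fun g h => ((c g h : ℤ) : K))) ^ n) (fun l => algebraMap K (ExteriorAlgebra K Y) (φ l)) =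
      fun l => algebraMap K (ExteriorAlgebra K Y) ((cupz c)^[n] φ l) := by
  induction n generalizing φ with
  | zero => rfl
  | succ n ih =>
    rw [pow_succ (Qc a (fun g h => ((c g h : ℤ) : K))) n]
    have h1 : (Qc a (fun g h => ((c g h : ℤ) : K))) (fun l => algebraMap K (ExteriorAlgebra K Y) (φ l))
        = fun l => algebraMap K (ExteriorAlgebra K Y) (cupz c φ l) := by
      funext l
      rcases l with _ | ⟨g, _ | ⟨h, l⟩⟩
      · simp [Qc, T2, cupz]
      · simp [Qc, T2, cupz]
      · simp [Qc, T2, cupz, Ea_apply, Algebra.smul_def]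
    have h2 := ih (cupz c φ)
    rw [← h1] at h2
    exact h2

theorem cupNil_field (ha : ∀ g h, a (g * h) = a g ∘ₗ a h) (hz : ∀ g h, z (g * h) = z g + a g (z h))
    (hy : ∀ g h, y (g * h) = y h + y g ∘ₗ a h) {c : N → N → ℤ}
    (hc : ∀ g h k, c g h + c (g * h) k = c g (h * k) + c h k)
    {F : N → K} (hF : ∀ g h, ((c g h : ℤ) : K) = y g (z h) + F g + F h - F (g * h)) :
    ∃ r, CupNil c r K := by
  have hcK : ∀ g h k, ((c g h : ℤ) : K) + ((c (g * h) k : ℤ) : K)
      = ((c g (h * k) : ℤ) : K) + ((c h k : ℤ) : K) := by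
    intro g h k; exact_mod_cast hc g h k
  obtain ⟨H, hH⟩ := Qc_pow_null (a := a) (z := z) (y := y) ha hz hy
    (c := fun g h => ((c g h : ℤ) : K)) hcK hF
  refine ⟨Module.finrank K Y + 1, fun φ hφ => ?_⟩
  have h1 := Qc_pow_apply (a := a) c (Module.finrank K Y + 1) φ
  rw [hH] at h1
  have h2 : dl (Ea a) (fun l => algebraMap K (ExteriorAlgebra K Y) (φ l)) = 0 := by
    have h3 := cob_map ((algebraMap K (ExteriorAlgebra K Y)).toAddMonoidHom) (triv : N → K → K)
      (fun g v => Ea a g v) (fun g v => by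
        simp [triv, Ea_apply]) φ
    rw [hφ] at h3
    refine h3.trans ?_
    funext l; simp
  have h4 : (dl (Ea a) * H + H * dl (Ea a)) (fun l => algebraMap K (ExteriorAlgebra K Y) (φ l))
      = dl (Ea a) (H (fun l => algebraMap K (ExteriorAlgebra K Y) (φ l))) := by
    rw [LinearMap.add_apply]
    change dl (Ea a) (H _) + H (dl (Ea a) _) = _
    rw [h2, map_zero, add_zero]
  rw [h4] at h1
  set ψ := H (fun l => algebraMap K (ExteriorAlgebra K Y) (φ l)) with hψ
  refine ⟨fun l => ExteriorAlgebra.algebraMapInv (ψ l), ?_⟩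
  have h5 := cob_map ((ExteriorAlgebra.algebraMapInv (R := K) (M := Y)).toAddMonoidHom)
    (fun g v => Ea a g v) (triv : N → K → K) (fun g v => by
      have h6 : (ExteriorAlgebra.algebraMapInv (R := K) (M := Y)).comp (ExteriorAlgebra.map (a g))
          = ExteriorAlgebra.algebraMapInv (R := K) (M := Y) := by
        apply ExteriorAlgebra.hom_ext
        apply LinearMap.ext
        intro v
        simp [ExteriorAlgebra.algebraMapInv]
      have h7 := congrArg (fun f => f v) h6
      exact h7) ψ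
  refine Eq.trans ?_ h5.symm
  funext l
  have h8 := congrFun h1 l
  change cob (fun g v => Ea a g v) ψ l = _ at h8
  change _ = ExteriorAlgebra.algebraMapInv (cob (fun g v => Ea a g v) ψ l)
  rw [h8]
  exact (ExteriorAlgebra.algebraMap_leftInverse Y _).symm

end

/-- descent to the rational numbers -/
theorem cupNil_rat {N : Type*} [Group N] {K : Type*} [Field K] [CharZero K] {c : N → N → ℤ} {r : ℕ}
    (h : CupNil c r K) : CupNil c r ℚ := by
  intro φ hφ
  have h1 := cob_map ((algebraMap ℚ K).toAddMonoidHom) (triv : N → ℚ → ℚ) (triv : N → K → K)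
    (fun g v => rfl) φ
  rw [hφ] at h1
  obtain ⟨η, hη⟩ := h (fun l => (algebraMap ℚ K).toAddMonoidHom (φ l)) (by
    rw [h1]; funext l; simp)
  rw [cupz_iter_map] at hη
  obtain ⟨θ, hθ⟩ := Module.Projective.exists_dual_ne_zero ℚ (one_ne_zero (α := K))
  set ψ : K →ₗ[ℚ] ℚ := (θ 1)⁻¹ • θ with hψ
  have hψ1 : ∀ q : ℚ, ψ (algebraMap ℚ K q) = q := by
    intro q
    rw [Algebra.algebraMap_eq_smul_one, map_smul, hψ, LinearMap.smul_apply, smul_eq_mul,
      smul_eq_mul, inv_mul_cancel₀ hθ, mul_one]
  refine ⟨fun l => ψ (η l), ?_⟩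
  have h2 := cob_map (ψ.toAddMonoidHom) (triv : N → K → K) (triv : N → ℚ → ℚ)
    (fun g v => rfl) η
  refine Eq.trans ?_ h2.symm
  rw [← hη]
  funext l
  exact (hψ1 _).symm

/-- the case of a class that is zero over the rational numbers -/
theorem cupNil_of_cob {N : Type*} [Group N] {c : N → N → ℤ} {F : N → ℚ}
    (hF : ∀ g h, ((c g h : ℤ) : ℚ) = F g + F h - F (g * h)) : CupNil c 1 ℚ := by
  intro φ hφ
  let a : N → Module.End ℚ ℚ := fun _ => 1
  have h := dl_T1 (K := ℚ) a (fun g => F g • (1 : Module.End ℚ ℚ))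
  have h1 := congrArg (fun T => T φ) h
  have h2 : dl (K := ℚ) a φ = 0 := hφ
  refine ⟨T1 (fun g => F g • (1 : Module.End ℚ ℚ)) φ, ?_⟩
  have h3 : (dl a * T1 (fun g => F g • (1 : Module.End ℚ ℚ))
      + T1 (fun g => F g • (1 : Module.End ℚ ℚ)) * dl a) φ
      = dl a (T1 (fun g => F g • (1 : Module.End ℚ ℚ)) φ) := by
    rw [LinearMap.add_apply]
    change dl a (T1 _ φ) + T1 _ (dl a φ) = _
    rw [h2, map_zero, add_zero]
  rw [h3] at h1
  refine Eq.trans ?_ h1.symm
  funext l
  rcases l with _ | ⟨g, _ | ⟨k, l⟩⟩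
  · simp [cupz, T2]
  · simp [cupz, T2]
  · have := hF g k
    simp only [Function.iterate_one, cupz, T2, LinearMap.coe_mk, AddHom.coe_mk, a, zsmul_eq_mul, this]
    simp only [one_mul, mul_one, LinearMap.add_apply, LinearMap.sub_apply, LinearMap.smul_apply,
      Module.End.one_apply, smul_eq_mul]
    ring

end BurgheleaT
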