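import Mathlib
import Pool.Agent.Lib_helper52.BT.Sca

/-! A representation of a central extension in which some vector is translated by an invariant
vector: the extension class is nilpotent. -/

set_option linter.unusedSectionVars false

namespace BurgheleaT

section coc
variable {Γ : Type*} [Group Γ] {N : Type*} [Group N]

/-- a set theoretic section and the integral cocycle of a central extension by the powers of `x` -/
structure ExtData (x : Γ) (s : N → Γ) (c : N → N → ℤ) : Prop where
  central : ∀ g : Γ, g * x = x * g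
  mul : ∀ g h, s g * s h = s (g * h) * x ^ (c g h)
  inf : ∀ n : ℤ, x ^ n = 1 → n = 0

theorem ExtData.coc {x : Γ} {s : N → Γ} {c : N → N → ℤ} (D : ExtData x s c) (g h k : N) :
    c g h + c (g * h) k = c g (h * k) + c h k := by
  have hx : ∀ (n : ℤ) (g : Γ), x ^ n * g = g * x ^ n := fun n g =>
    ((show Commute x g from (D.central g).symm).zpow_left n).eq
  have h1 : s g * s h * s k = s (g * h * k) * x ^ (c g h + c (g * h) k) := by
    rw [D.mul g h, mul_assoc, hx, ← mul_assoc, D.mul (g * h) k, mul_assoc, ← zpow_add, add_comm]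
  have h2 : s g * (s h * s k) = s (g * h * k) * x ^ (c g (h * k) + c h k) := by
    rw [D.mul h k, ← mul_assoc, D.mul g (h * k), mul_assoc, ← zpow_add, ← mul_assoc g]
  rw [mul_assoc, h2] at h1
  have h3 := mul_left_cancel h1
  have h4 : x ^ ((c g h + c (g * h) k) - (c g (h * k) + c h k)) = 1 := by
    rw [zpow_sub, h3, mul_inv_cancel]
  have := D.inf _ h4
  omega

end coc

section
variable {Γ : Type*} [Group Γ] {N : Type*} [Group N] {K : Type*} [Field K] [CharZero K]
  {E : Type*} [AddCommGroup E] [Module K E] [Module.Finite K E]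

/-- **Lemma A.** -/
theorem cupNil_of_vector {x : Γ} {s : N → Γ} {c : N → N → ℤ} (D : ExtData x s c)
    (α : Γ →* Module.End K E) (X : E) (hZ0 : α x X - X ≠ 0)
    (hZ : ∀ γ, α γ (α x X - X) = α x X - X) : ∃ r, CupNil c r K := by
  classical
  set Z : E := α x X - X with hZdef
  -- vectors fixed by `x`
  let U : Submodule K E := LinearMap.ker (α x - 1)
  have hU : ∀ v : E, v ∈ U ↔ α x v = v := by
    intro v
    simp only [U, LinearMap.mem_ker, LinearMap.sub_apply, Module.End.one_apply, sub_eq_zero]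
  have hmul : ∀ (γ γ' : Γ) (v : E), α (γ * γ') v = α γ (α γ' v) := by
    intro γ γ' v; rw [map_mul]; rfl
  have hxU : ∀ (n : ℤ) (v : E), v ∈ U → α (x ^ n) v = v := by
    intro n v hv
    have h1 : ∀ m : ℕ, α (x ^ m) v = v := by
      intro m
      induction m with
      | zero => rw [pow_zero, map_one]; rfl
      | succ m ih => rw [pow_succ, hmul, (hU v).mp hv, ih]
    obtain ⟨m, rfl | rfl⟩ := n.eq_nat_or_neg
    · rw [zpow_natCast]; exact h1 m
    · have h2 := h1 m
      have h3 : α (x ^ (-(m : ℤ))) (α (x ^ m) v) = v := by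
        rw [← hmul, zpow_neg, zpow_natCast, inv_mul_cancel, map_one]; rfl
      rw [h2] at h3
      exact h3
  have hUst : ∀ γ : Γ, ∀ v ∈ U, α γ v ∈ U := by
    intro γ v hv
    rw [hU] at hv ⊢
    rw [← hmul, ← D.central γ, hmul, hv]
  have hZU : Z ∈ U := (hU Z).mpr (hZ x)
  have hX1 : ∀ γ, α γ X - X ∈ U := by
    intro γ
    rw [hU, map_sub, ← hmul, ← D.central γ, hmul]
    have h1 : α x X = X + Z := by rw [hZdef]; abel
    rw [h1, map_add, hZ γ]
    abel
  have hXn : ∀ n : ℤ, α (x ^ n) X = X + n • Z := by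
    have h1 : α x X = X + Z := by rw [hZdef]; abel
    have h2 : ∀ m : ℕ, α (x ^ m) X = X + (m : ℤ) • Z := by
      intro m
      induction m with
      | zero => rw [pow_zero, map_one]; simp
      | succ m ih =>
        rw [pow_succ, hmul, h1, map_add, ih]
        have h3 := hxU (m : ℤ) Z hZU
        rw [zpow_natCast] at h3
        rw [h3]
        push_cast
        rw [add_smul, one_smul]
        abel
    intro n
    obtain ⟨m, rfl | rfl⟩ := n.eq_nat_or_neg
    · rw [zpow_natCast]; exact h2 m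
    · have h3 : α (x ^ (-(m : ℤ))) (α (x ^ m) X) = X := by
        rw [← hmul, zpow_neg, zpow_natCast, inv_mul_cancel, map_one]; rfl
      rw [h2 m, map_add, map_zsmul, hxU _ Z hZU] at h3
      rw [neg_smul]
      exact eq_add_neg_of_add_eq h3
  -- the functional
  obtain ⟨θ, hθ⟩ := Module.Projective.exists_dual_ne_zero K hZ0
  set lam : Module.Dual K E := (θ Z)⁻¹ • θ with hlam
  have hlamZ : lam Z = 1 := by
    rw [hlam, LinearMap.smul_apply, smul_eq_mul, inv_mul_cancel₀ hθ]
  -- the quotient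
  let ZU : U := ⟨Z, hZU⟩
  let P : Submodule K U := Submodule.span K {ZU}
  let αU : Γ → (U →ₗ[K] U) := fun γ => (α γ).restrict (hUst γ)
  have hαU : ∀ γ (u : U), ((αU γ u : U) : E) = α γ u := fun γ u => rfl
  have hP : ∀ γ, P ≤ P.comap (αU γ) := by
    intro γ
    rw [Submodule.span_le]
    rintro _ rfl
    have h1 : αU γ ZU = ZU := Subtype.ext (hZ γ)
    change αU γ ZU ∈ P
    rw [h1]
    exact Submodule.mem_span_singleton_self _
  let β : Γ → ((U ⧸ P) →ₗ[K] (U ⧸ P)) := fun γ => P.mapQ P (αU γ) (hP γ)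
  have hβ : ∀ γ (u : U), β γ (P.mkQ u) = P.mkQ (αU γ u) := fun γ u => rfl
  -- data on `N`
  let a : N → ((U ⧸ P) →ₗ[K] (U ⧸ P)) := fun g => β (s g)
  let z : N → (U ⧸ P) := fun g => P.mkQ ⟨α (s g) X - X, hX1 (s g)⟩
  have hyP : ∀ γ, P ≤ LinearMap.ker ((lam ∘ₗ α γ - lam) ∘ₗ U.subtype) := by
    intro γ
    rw [Submodule.span_le]
    rintro _ rfl
    simp only [SetLike.mem_coe, LinearMap.mem_ker, LinearMap.comp_apply, LinearMap.sub_apply,
      Submodule.subtype_apply, ZU, hZ γ, sub_self]
  let y : N → Module.Dual K (U ⧸ P) := fun g =>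
    P.liftQ ((lam ∘ₗ α (s g) - lam) ∘ₗ U.subtype) (hyP (s g))
  have hy' : ∀ g (u : U), y g (P.mkQ u) = lam (α (s g) u) - lam u := fun g u => rfl
  let F : N → K := fun g => lam (α (s g) X - X)
  -- the section
  have hs : ∀ g h (u : U), α (s (g * h)) u = α (s g) (α (s h) u) := by
    intro g h u
    have h1 : s (g * h) = s g * s h * x ^ (-(c g h)) := by
      rw [D.mul g h, mul_assoc, ← zpow_add, add_neg_cancel, zpow_zero, mul_one]
    rw [h1, hmul, hxU _ _ u.2, hmul]
  have hsX : ∀ g h, α (s g) (α (s h) X) = α (s (g * h)) X + (c g h) • Z := by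
    intro g h
    rw [← hmul, D.mul g h, hmul, hXn, map_add, map_zsmul, hZ]
  have ha : ∀ g h, a (g * h) = a g ∘ₗ a h := by
    intro g h
    apply LinearMap.ext
    intro w
    obtain ⟨u, rfl⟩ := P.mkQ_surjective w
    change P.mkQ (αU (s (g * h)) u) = P.mkQ (αU (s g) (αU (s h) u))
    congr 1
    exact Subtype.ext (hs g h u)
  have hz : ∀ g h, z (g * h) = z g + a g (z h) := by
    intro g h
    change P.mkQ _ = P.mkQ _ + P.mkQ (αU (s g) ⟨α (s h) X - X, hX1 (s h)⟩)
    rw [← map_add]
    have h1 : (⟨α (s (g * h)) X - X, hX1 (s (g * h))⟩ : U) = (⟨α (s g) X - X, hX1 (s g)⟩ : U)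
        + αU (s g) ⟨α (s h) X - X, hX1 (s h)⟩ - (c g h) • ZU := by
      apply Subtype.ext
      have h3 : (((c g h) • ZU : U) : E) = (c g h) • Z := map_zsmul U.subtype _ ZU
      rw [Submodule.coe_sub, Submodule.coe_add, hαU, h3]
      simp only [map_sub, hsX]
      abel
    rw [h1, map_sub]
    have h2 : P.mkQ ((c g h) • ZU) = 0 := by
      rw [Submodule.mkQ_apply, Submodule.Quotient.mk_eq_zero]
      exact zsmul_mem (Submodule.mem_span_singleton_self _) _
    rw [h2, sub_zero]
  have hy : ∀ g h, y (g * h) = y h + y g ∘ₗ a h := by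
    intro g h
    apply LinearMap.ext
    intro w
    obtain ⟨u, rfl⟩ := P.mkQ_surjective w
    rw [LinearMap.add_apply, LinearMap.comp_apply]
    change y (g * h) (P.mkQ u) = y h (P.mkQ u) + y g (P.mkQ (αU (s h) u))
    rw [hy', hy', hy', hαU, hs]
    ring
  have hF : ∀ g h, ((c g h : ℤ) : K) = y g (z h) + F g + F h - F (g * h) := by
    intro g h
    have h1 : y g (z h) = lam (α (s g) (α (s h) X - X)) - lam (α (s h) X - X) := hy' g _
    rw [h1]
    simp only [F, map_sub, hsX, map_add, map_zsmul, hlamZ]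
    simp only [zsmul_eq_mul, mul_one]
    ring
  exact cupNil_field ha hz hy D.coc hF

end

end BurgheleaT
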