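import Mathlib
import Pool.Agent.Lib_helper52.BT.LemA

/-! From a finite-dimensional representation in which the central element has infinite order to the
nilpotency of the extension class. -/

set_option linter.unusedSectionVars false

namespace BurgheleaT

open Polynomial

section char
variable {Γ : Type*} [Group Γ] {N : Type*} [Group N]

/-- A character of infinite order at `x`: the rational class is zero. -/
theorem cupNil_of_char {x : Γ} {s : N → Γ} {c : N → N → ℤ} (D : ExtData x s c)
    {K : Type*} [Field K] (χ : Γ →* Kˣ) (hχ : ∀ n : ℤ, χ x ^ n = 1 → n = 0) : CupNil c 1 ℚ := by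
  have hb : Module.Baer ℤ ℚ := Module.Baer.of_divisible ℚ
  obtain ⟨h, hh⟩ := hb.extension_property_addMonoidHom
    (zmultiplesHom (Additive Kˣ) (Additive.ofMul (χ x))) (by
      rw [injective_iff_map_eq_zero]
      intro n hn
      apply hχ
      rw [zmultiplesHom_apply] at hn
      exact hn) (Int.castAddHom ℚ)
  have h1 : ∀ n : ℤ, h (Additive.ofMul (χ x ^ n)) = n := by
    intro n
    have := DFunLike.congr_fun hh n
    simpa using this
  refine cupNil_of_cob (F := fun g => h (Additive.ofMul (χ (s g)))) fun g k => ?_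
  have h2 : h (Additive.ofMul (χ (s g))) + h (Additive.ofMul (χ (s k)))
      = h (Additive.ofMul (χ (s (g * k)))) + c g k := by
    have e : ∀ u v : Kˣ, h (Additive.ofMul u) + h (Additive.ofMul v) = h (Additive.ofMul (u * v)) :=
      fun u v => by rw [ofMul_mul, map_add]
    rw [← h1 (c g k), e, e, ← map_mul, ← map_zpow, ← map_mul, D.mul]
  linarith

end char

section unip
variable {K : Type*} [Field K] [CharZero K] {A : Type*} [Ring A] [Algebra K A]

/-- conjugation by a unit -/
noncomputable def conjE (K : Type*) [Field K] {A : Type*} [Ring A] [Algebra K A] :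
    Aˣ →* Module.End K A where
  toFun u := LinearMap.mulLeft K (u : A) * LinearMap.mulRight K ((u⁻¹ : Aˣ) : A)
  map_one' := by
    apply LinearMap.ext; intro v
    simp [Module.End.mul_apply]
  map_mul' u v := by
    apply LinearMap.ext; intro w
    simp [Module.End.mul_apply, mul_assoc]

theorem conjE_apply (u : Aˣ) (v : A) : conjE K u v = u * (v * ((u⁻¹ : Aˣ) : A)) := rfl

/-- the vector that is translated by an invariant vector -/
theorem unip_vector {T : Aˣ} {m k : ℕ} (hm : 0 < m) (hL : (((T : A) ^ m) - 1) ^ (k + 1 + 1) = 0)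
    {J : A} (hJ : (((T : A) ^ m) - 1) ^ (k + 1) * J * (((T : A) ^ m) - 1) ^ (k + 1)
      = (((T : A) ^ m) - 1) ^ (k + 1)) :
    ∃ X : A, conjE K T X - X = ((m : K)⁻¹) • (((T : A) ^ m) - 1) ^ (k + 1) := by
  set L : A := (T : A) ^ m - 1 with hLdef
  set X₀ : A := L ^ k * J * L ^ (k + 1) with hX₀
  have h1 : L * X₀ = L ^ (k + 1) := by
    rw [hX₀, ← mul_assoc, ← mul_assoc, ← pow_succ', hJ]
  have h2 : X₀ * L = 0 := by
    rw [hX₀, mul_assoc, ← pow_succ, hL, mul_zero]
  have hTm : ((T ^ m : Aˣ) : A) = 1 + L := by rw [hLdef, Units.val_pow_eq_pow_val]; abel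
  have h3 : conjE K (T ^ m) X₀ = X₀ + L ^ (k + 1) := by
    rw [conjE_apply, ← mul_assoc]
    have h4 : ((T ^ m : Aˣ) : A) * X₀ = (X₀ + L ^ (k + 1)) * ((T ^ m : Aˣ) : A) := by
      rw [hTm, add_mul, one_mul, h1, mul_add, mul_one, add_mul, h2, ← pow_succ, hL, add_zero,
        add_zero]
    rw [h4, mul_assoc, Units.mul_inv, mul_one]
  have h5 : (conjE K T ^ m) X₀ = X₀ + L ^ (k + 1) := by rw [← map_pow, h3]
  refine ⟨((m : K)⁻¹) • ∑ i ∈ Finset.range m, (conjE K T ^ i) X₀, ?_⟩
  rw [map_smul, map_sum, ← smul_sub]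
  congr 1
  have h6 : ∀ i, conjE K T ((conjE K T ^ i) X₀) = (conjE K T ^ (i + 1)) X₀ := by
    intro i; rw [pow_succ' (conjE K T) i]; rfl
  simp only [h6]
  rw [← Finset.sum_sub_distrib, Finset.sum_range_sub (fun i => (conjE K T ^ i) X₀), h5, pow_zero,
    Module.End.one_apply]
  abel

end unip

section ginv
variable {K : Type*} [Field K] {V : Type*} [AddCommGroup V] [Module K V]

theorem exists_ginv (f : Module.End K V) : ∃ J : Module.End K V, f * J * f = f := by
  obtain ⟨g, hg⟩ := f.rangeRestrict.exists_rightInverse_of_surjective f.range_rangeRestrict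
  obtain ⟨J, hJ⟩ := LinearMap.exists_extend g
  refine ⟨J, LinearMap.ext fun v => ?_⟩
  have h1 : J (f v) = g (f.rangeRestrict v) := DFunLike.congr_fun hJ (f.rangeRestrict v)
  have h2 : f.rangeRestrict (g (f.rangeRestrict v)) = f.rangeRestrict v :=
    DFunLike.congr_fun hg (f.rangeRestrict v)
  have h3 : f (g (f.rangeRestrict v)) = f v := congrArg Subtype.val h2
  change f (J (f v)) = f v
  rw [h1, h3]

end ginv

section case2
variable {Γ : Type*} [Group Γ] {N : Type*} [Group N] {K : Type*} [Field K] [CharZero K]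
  {V : Type*} [AddCommGroup V] [Module K V] [Module.Finite K V]

theorem cupNil_of_unip {x : Γ} {s : N → Γ} {c : N → N → ℤ} (D : ExtData x s c)
    (ρ : Γ →* (Module.End K V)ˣ) {m : ℕ} (hm : 0 < m)
    (hn : IsNilpotent (((ρ x : Module.End K V) ^ m) - 1))
    (h0 : ((ρ x : Module.End K V) ^ m) - 1 ≠ 0) : ∃ r, CupNil c r K := by
  classical
  set L : Module.End K V := ((ρ x : Module.End K V) ^ m) - 1 with hL
  -- the largest exponent
  obtain ⟨k, hk1, hk2⟩ : ∃ k : ℕ, L ^ (k + 1 + 1) = 0 ∧ L ^ (k + 1) ≠ 0 := by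
    have hex : ∃ n, L ^ n = 0 := hn
    have h1 := Nat.find_spec hex
    have h2 : ∀ n < Nat.find hex, L ^ n ≠ 0 := fun n hn => Nat.find_min hex hn
    have h3 : 2 ≤ Nat.find hex := by
      by_contra h
      have h4 : L ^ 1 = 0 := by
        have : 1 = Nat.find hex + (1 - Nat.find hex) := by omega
        rw [this, pow_add, h1, zero_mul]
      rw [pow_one] at h4
      exact h0 h4
    refine ⟨Nat.find hex - 2, ?_, ?_⟩
    · have : Nat.find hex - 2 + 1 + 1 = Nat.find hex := by omega
      rw [this]; exact h1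
    · exact h2 _ (by omega)
  obtain ⟨J, hJ⟩ := exists_ginv (L ^ (k + 1))
  obtain ⟨X, hX⟩ := unip_vector (K := K) (T := ρ x) hm hk1 hJ
  refine cupNil_of_vector (K := K) (E := Module.End K V) D ((conjE K).comp ρ) X ?_ ?_
  · change conjE K (ρ x) X - X ≠ 0
    rw [hX]
    exact smul_ne_zero (inv_ne_zero (Nat.cast_ne_zero.mpr hm.ne')) hk2
  · intro γ
    change conjE K (ρ γ) (conjE K (ρ x) X - X) = conjE K (ρ x) X - X
    rw [hX, map_smul]
    congr 1
    rw [conjE_apply]
    have hc : Commute (ρ γ : Module.End K V) (ρ x : Module.End K V) := by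
      change (ρ γ : Module.End K V) * (ρ x : Module.End K V) = ρ x * ρ γ
      rw [← Units.val_mul, ← Units.val_mul, ← map_mul, ← map_mul, D.central]
    have hc2 : Commute (ρ γ : Module.End K V) (L ^ (k + 1)) :=
      (((hc.pow_right m).sub_right (Commute.one_right _))).pow_right _
    rw [← mul_assoc, hc2.eq, mul_assoc, Units.mul_inv, mul_one]

end case2

section case1
variable {K : Type*} [Field K] {V : Type*} [AddCommGroup V] [Module K V] [Module.Finite K V]

theorem det_of_nilp {T : Module.End K V} {μ : K} (h : IsNilpotent (T - algebraMap K _ μ)) :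
    LinearMap.det T = μ ^ Module.finrank K V := by
  have h1 := h.charpoly_eq_X_pow_finrank
  have h2 := LinearMap.eval_charpoly (T - algebraMap K _ μ) (-μ)
  rw [h1, Polynomial.eval_pow, Polynomial.eval_X] at h2
  have h3 : (algebraMap K (Module.End K V) (-μ) - (T - algebraMap K _ μ)) = (-1 : K) • T := by
    rw [map_neg]
    apply LinearMap.ext; intro v
    simp only [LinearMap.sub_apply, LinearMap.neg_apply, Module.algebraMap_end_apply,
      LinearMap.smul_apply, neg_smul, one_smul]
    abel
  rw [h3, LinearMap.det_smul, neg_pow] at h2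
  have h4 : ((-1 : K) ^ Module.finrank K V) ≠ 0 := pow_ne_zero _ (by norm_num)
  exact (mul_left_cancel₀ h4 h2).symm

/-- the determinant on the generalized eigenspace of a central element -/
theorem exists_char {Γ : Type*} [Group Γ] {x : Γ} (hx : ∀ g : Γ, g * x = x * g)
    (ρ : Γ →* (Module.End K V)ˣ) {μ : K}
    (hμ : (ρ x : Module.End K V).HasEigenvalue μ) (hroot : ∀ n : ℕ, 0 < n → μ ^ n ≠ 1) :
    ∃ χ : Γ →* Kˣ, ∀ n : ℤ, χ x ^ n = 1 → n = 0 := by
  classical
  set T : Module.End K V := (ρ x : Module.End K V) with hT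
  set W : Submodule K V := T.maxGenEigenspace μ with hW
  have hst : ∀ γ : Γ, ∀ v ∈ W, (ρ γ : Module.End K V) v ∈ W := by
    intro γ
    have hc : Commute T (ρ γ : Module.End K V) := by
      change T * (ρ γ : Module.End K V) = ρ γ * T
      rw [hT, ← Units.val_mul, ← Units.val_mul, ← map_mul, ← map_mul, hx]
    exact T.mapsTo_maxGenEigenspace_of_comm hc μ
  let R : Γ →* Module.End K W :=
    { toFun := fun γ => (ρ γ : Module.End K V).restrict (hst γ)
      map_one' := by
        apply LinearMap.ext; intro v; apply Subtype.ext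
        simp [LinearMap.restrict_apply]
      map_mul' := by
        intro γ γ'
        apply LinearMap.ext; intro v; apply Subtype.ext
        simp [LinearMap.restrict_apply, Module.End.mul_apply] }
  let χ : Γ →* Kˣ := ((LinearMap.det : Module.End K W →* K).comp R).toHomUnits
  have hχ : ∀ γ, ((χ γ : Kˣ) : K) = LinearMap.det (R γ) := fun γ => rfl
  have hdet : LinearMap.det (R x) = μ ^ Module.finrank K W := by
    apply det_of_nilp
    have h1 := T.isNilpotent_restrict_maxGenEigenspace_sub_algebraMap μ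
    have h2 : (T - algebraMap K (Module.End K V) μ).restrict
        (T.mapsTo_maxGenEigenspace_of_comm (Algebra.mul_sub_algebraMap_commutes T μ) μ)
        = R x - algebraMap K _ μ := by
      apply LinearMap.ext; intro v; apply Subtype.ext
      rfl
    rw [← h2]
    exact h1
  have hfin : 0 < Module.finrank K W := by
    rw [Module.finrank_pos_iff_exists_ne_zero]
    obtain ⟨v, hv⟩ := hμ.exists_hasEigenvector
    refine ⟨⟨v, ?_⟩, fun h => hv.2 (congrArg Subtype.val h)⟩
    rw [hW]
    exact (T.genEigenspace μ).mono (le_top : (1 : ℕ∞) ≤ ⊤) hv.1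
  refine ⟨χ, ?_⟩
  have hpos : ∀ n : ℕ, χ x ^ n = 1 → n = 0 := by
    intro n hn
    by_contra h
    have h1 := congrArg (fun u : Kˣ => (u : K)) hn
    simp only [Units.val_pow_eq_pow_val, Units.val_one, hχ, hdet, ← pow_mul] at h1
    exact hroot _ (Nat.mul_pos hfin (Nat.pos_of_ne_zero h)) h1
  intro n hn
  obtain ⟨m, rfl | rfl⟩ := n.eq_nat_or_neg
  · rw [zpow_natCast] at hn
    exact_mod_cast hpos m hn
  · rw [zpow_neg, zpow_natCast, inv_eq_one] at hn
    simpa using hpos m hn

end case1

section cases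
variable {K : Type*} [Field K] [IsAlgClosed K] {V : Type*} [AddCommGroup V] [Module K V]
  [Module.Finite K V]

/-- an endomorphism all of whose eigenvalues are roots of unity has a unipotent power -/
theorem unip_of_roots (T : Module.End K V)
    (h : ∀ μ, T.HasEigenvalue μ → ∃ n : ℕ, 0 < n ∧ μ ^ n = 1) :
    ∃ m n : ℕ, 0 < m ∧ aeval T ((X ^ m - 1 : K[X]) ^ n) = 0 := by
  classical
  choose! f hf0 hf1 using h
  set P : K[X] := minpoly K T with hP
  have hP0 : P ≠ 0 := minpoly.ne_zero (Algebra.IsIntegral.isIntegral T)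
  set m : ℕ := ∏ μ ∈ P.roots.toFinset, f μ with hm
  have hroot : ∀ μ ∈ P.roots, T.HasEigenvalue μ := by
    intro μ hμ
    exact Module.End.hasEigenvalue_of_isRoot (Polynomial.isRoot_of_mem_roots hμ)
  have hm0 : 0 < m := by
    apply Finset.prod_pos
    intro μ hμ
    exact hf0 μ (hroot μ (Multiset.mem_toFinset.mp hμ))
  have hm1 : ∀ μ ∈ P.roots, μ ^ m = 1 := by
    intro μ hμ
    obtain ⟨k, hk⟩ : f μ ∣ m := Finset.dvd_prod_of_mem f (Multiset.mem_toFinset.mpr hμ)
    rw [hk, pow_mul, hf1 μ (hroot μ hμ), one_pow]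
  refine ⟨m, Multiset.card P.roots, hm0, ?_⟩
  have hsplit : P = (P.roots.map fun μ => X - C μ).prod := by
    have h1 := (IsAlgClosed.splits P).eq_prod_roots
    have h2 : P.leadingCoeff = 1 := minpoly.monic (Algebra.IsIntegral.isIntegral T)
    rw [h2, C_1, one_mul] at h1
    exact h1
  have hdvd : P ∣ (X ^ m - 1 : K[X]) ^ Multiset.card P.roots := by
    have h1 := Multiset.prod_dvd_prod_of_dvd (S := P.roots) (fun μ => X - C μ)
      (fun _ => (X ^ m - 1 : K[X])) (by
        intro μ hμ
        rw [Polynomial.dvd_iff_isRoot]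
        simp [hm1 μ hμ])
    rw [← hsplit, Multiset.map_const', Multiset.prod_replicate] at h1
    exact h1
  obtain ⟨R, hR⟩ := hdvd
  rw [hR, map_mul, hP, minpoly.aeval, zero_mul]

end cases

section final
variable {Γ : Type*} [Group Γ] {N : Type*} [Group N]

theorem cupNil_closed {x : Γ} {s : N → Γ} {c : N → N → ℤ} (D : ExtData x s c)
    {K : Type*} [Field K] [IsAlgClosed K] {V : Type*} [AddCommGroup V] [Module K V]
    [Module.Finite K V] (ρ : Γ →* (Module.End K V)ˣ) (hinf : ∀ n : ℕ, 0 < n → ρ x ^ n ≠ 1) :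
    ∃ r, CupNil c r ℚ := by
  classical
  by_cases h : ∀ μ, (ρ x : Module.End K V).HasEigenvalue μ → ∃ n : ℕ, 0 < n ∧ μ ^ n = 1
  · obtain ⟨m, n, hm, hmn⟩ := unip_of_roots _ h
    obtain ⟨p, hp⟩ := ExpChar.exists K
    cases hp with
    | zero =>
      have hn : IsNilpotent ((ρ x : Module.End K V) ^ m - 1) := by
        refine ⟨n, ?_⟩
        rw [map_pow, map_sub, map_pow, aeval_X, map_one] at hmn
        exact hmn
      have h0 : (ρ x : Module.End K V) ^ m - 1 ≠ 0 := by
        intro h1
        apply hinf m hm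
        apply Units.ext
        rw [Units.val_pow_eq_pow_val, Units.val_one]
        exact sub_eq_zero.mp h1
      obtain ⟨r, hr⟩ := cupNil_of_unip D ρ hm hn h0
      exact ⟨r, cupNil_rat hr⟩
    | prime hq =>
      exfalso
      haveI : Fact p.Prime := ⟨hq⟩
      have h1 : n ≤ p ^ n := (Nat.lt_pow_self hq.one_lt).le
      have h2 : aeval (ρ x : Module.End K V) ((X ^ m - 1 : K[X]) ^ (p ^ n)) = 0 := by
        obtain ⟨k, hk⟩ := Nat.exists_eq_add_of_le h1
        rw [hk, pow_add, map_mul, hmn, zero_mul]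
      rw [sub_pow_char_pow, one_pow, ← pow_mul, map_sub, map_pow, aeval_X, map_one] at h2
      apply hinf (m * p ^ n) (Nat.mul_pos hm (pow_pos hq.pos _))
      apply Units.ext
      rw [Units.val_pow_eq_pow_val, Units.val_one]
      exact sub_eq_zero.mp h2
  · push Not at h
    obtain ⟨μ, hμ, hroot⟩ := h
    obtain ⟨χ, hχ⟩ := exists_char D.central ρ hμ hroot
    exact ⟨1, cupNil_of_char D χ hχ⟩

/-- **The main algebraic theorem.** -/
theorem cupNil_of_rep {x : Γ} {s : N → Γ} {c : N → N → ℤ} (D : ExtData x s c)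
    {K : Type*} [Field K] {n : ℕ} (ρ : Γ →* Matrix.GeneralLinearGroup (Fin n) K)
    (hinf : ¬ IsOfFinOrder (ρ x)) : ∃ r, CupNil c r ℚ := by
  let f : Matrix.GeneralLinearGroup (Fin n) K →* (Module.End (AlgebraicClosure K)
      (Fin n → AlgebraicClosure K))ˣ :=
    (Matrix.GeneralLinearGroup.toLin (n := Fin n) (R := AlgebraicClosure K)).toMonoidHom.comp
      (Matrix.GeneralLinearGroup.map (algebraMap K (AlgebraicClosure K)))
  have hf : Function.Injective f := by
    apply (Matrix.GeneralLinearGroup.toLin (n := Fin n) (R := AlgebraicClosure K)).injective.comp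
    intro u v huv
    apply Units.ext
    have h1 := congrArg (fun w : Matrix.GeneralLinearGroup (Fin n) (AlgebraicClosure K) =>
      (w : Matrix (Fin n) (Fin n) (AlgebraicClosure K))) huv
    exact Matrix.map_injective (algebraMap K (AlgebraicClosure K)).injective h1
  refine cupNil_closed D (f.comp ρ) fun m hm h => hinf ?_
  rw [isOfFinOrder_iff_pow_eq_one]
  refine ⟨m, hm, hf ?_⟩
  rw [map_pow, map_one]
  exact h

end final

end BurgheleaT
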