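import Mathlib
import Pool.Agent.Lib_helper52.BT.Defs
import Pool.Agent.Lib_helper52.BT.Rep

/-! Bar chains and cochains. -/

set_option linter.unusedSectionVars false

namespace BurgheleaT

variable {N : Type*} [Group N]

/-- evaluation of a cochain on chains -/
noncomputable def ev (φ : List N → ℚ) : Chains N →ₗ[ℚ] ℚ := Finsupp.linearCombination ℚ φ

theorem ev_single (φ : List N → ℚ) (w : List N) (q : ℚ) : ev φ (Finsupp.single w q) = q * φ w := by
  simp [ev, Finsupp.linearCombination_single]

theorem sum_face : ∀ (w : List N), w ≠ [] → ∀ φ : List N → ℚ,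
    ∑ i ∈ Finset.range w.length, (-1 : ℚ) ^ (i + 1) * φ (face (i + 1) w) = inn w φ
  | [], h, _ => absurd rfl h
  | [g], _, φ => by simp [inn, face]
  | g :: h :: l, _, φ => by
      rw [List.length_cons, Finset.sum_range_succ']
      have h1 := sum_face (h :: l) (by simp) (fun l' => φ (g :: l'))
      rw [inn, ← h1]
      simp only [face, zero_add, pow_one]
      rw [add_comm, sub_eq_add_neg, ← Finset.sum_neg_distrib]
      congr 1
      · ring
      · refine Finset.sum_congr rfl fun i _ => ?_
        ring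

theorem ev_bdryWord (φ : List N → ℚ) (w : List N) : ev φ (bdryWord w) = cob triv φ w := by
  rcases w with _ | ⟨g, l⟩
  · simp [bdryWord, cob]
  · rw [bdryWord, if_neg (by simp), map_sum]
    simp only [ev_single]
    rw [Finset.sum_range_succ', sum_face (g :: l) (by simp) φ]
    simp only [cob, triv, face, pow_zero, one_mul, List.tail_cons]
    ring

theorem ev_bdry (φ : List N → ℚ) (σ : Chains N) : ev φ (bdry N σ) = ev (cob triv φ) σ := by
  induction σ using Finsupp.induction_linear with
  | zero => simp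
  | add f g hf hg => rw [map_add, map_add, map_add, hf, hg]
  | single w q =>
    rw [bdry, Finsupp.linearCombination_single, map_smul, ev_bdryWord, ev_single, smul_eq_mul]

theorem ev_cap (c : N → N → ℤ) (φ : List N → ℚ) (σ : Chains N) :
    ev φ (cap c σ) = ev (cupz c φ) σ := by
  induction σ using Finsupp.induction_linear with
  | zero => simp
  | add f g hf hg => rw [map_add, map_add, map_add, hf, hg]
  | single w q =>
    rw [cap, Finsupp.linearCombination_single, map_smul, ev_single, smul_eq_mul]
    rcases w with _ | ⟨g, _ | ⟨h, l⟩⟩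
    · simp [capWord, cupz]
    · simp [capWord, cupz]
    · simp only [capWord, cupz, ev_single, zsmul_eq_mul]

theorem ev_cap_pow (c : N → N → ℤ) (r : ℕ) (φ : List N → ℚ) (σ : Chains N) :
    ev φ ((cap c ^ r) σ) = ev ((cupz c)^[r] φ) σ := by
  induction r generalizing σ φ with
  | zero => rfl
  | succ r ih =>
    rw [pow_succ' (cap c) r, Function.iterate_succ_apply, ← ih, ← ev_cap]
    rfl

theorem chain_ext {σ τ : Chains N} (h : ∀ φ, ev φ σ = ev φ τ) : σ = τ := by
  classical
  apply Finsupp.ext
  intro w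
  have h1 := h (Pi.single w 1)
  have h2 : ∀ σ : Chains N, ev (Pi.single w 1) σ = σ w := by
    intro σ
    induction σ using Finsupp.induction_linear with
    | zero => simp
    | add f g hf hg => rw [map_add, hf, hg]; rfl
    | single v q =>
      rw [ev_single]
      by_cases hv : v = w
      · subst hv; simp
      · rw [Pi.single_eq_of_ne hv, mul_zero, Finsupp.single_eq_of_ne (Ne.symm hv)]
  rwa [h2, h2] at h1

theorem cob_cupz {c : N → N → ℤ} (hc : IsCoc c) (φ : List N → ℚ) :
    cob triv (cupz c φ) = cupz c (cob triv φ) := by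
  let a : N → Module.End ℚ ℚ := fun _ => 1
  have h := dl_T2 (K := ℚ) a (fun g h => ((c g h : ℤ) : ℚ) • (1 : Module.End ℚ ℚ))
  have hT : ∀ φ : List N → ℚ, T2 (fun g h => ((c g h : ℤ) : ℚ) • (1 : Module.End ℚ ℚ)) φ
      = cupz c φ := by
    intro φ
    funext l
    rcases l with _ | ⟨g, _ | ⟨h, l⟩⟩ <;> simp [T2, cupz]
  have h2 : (fun g h k => a g * (((c h k : ℤ) : ℚ) • (1 : Module.End ℚ ℚ))
      - ((c (g * h) k : ℤ) : ℚ) • (1 : Module.End ℚ ℚ)
      + ((c g (h * k) : ℤ) : ℚ) • (1 : Module.End ℚ ℚ)
      - (((c g h : ℤ) : ℚ) • (1 : Module.End ℚ ℚ)) * a k)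
      = fun _ _ _ => (0 : Module.End ℚ ℚ) := by
    funext g h k
    have e : ((c g h : ℤ) : ℚ) + ((c (g * h) k : ℤ) : ℚ) = ((c g (h * k) : ℤ) : ℚ) + ((c h k : ℤ) : ℚ) := by
      exact_mod_cast hc g h k
    apply LinearMap.ext
    intro v
    simp only [a, one_mul, mul_one, LinearMap.add_apply, LinearMap.sub_apply, LinearMap.smul_apply,
      Module.End.one_apply, smul_eq_mul, LinearMap.zero_apply]
    linear_combination (-v) * e
  rw [h2] at h
  have h1 := congrArg (fun T => T φ) h
  have h3 : T3 (fun _ _ _ => (0 : Module.End ℚ ℚ)) φ = (0 : List N → ℚ) := by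
    funext l
    rcases l with _ | ⟨g, _ | ⟨h, _ | ⟨k, l⟩⟩⟩ <;> simp [T3]
  have h4 : dl a (T2 (fun g h => ((c g h : ℤ) : ℚ) • (1 : Module.End ℚ ℚ)) φ)
      - T2 (fun g h => ((c g h : ℤ) : ℚ) • (1 : Module.End ℚ ℚ)) (dl a φ) = 0 := h1.trans h3
  rw [hT, hT] at h4
  exact sub_eq_zero.mp h4

theorem bdry_cap {c : N → N → ℤ} (hc : IsCoc c) (σ : Chains N) :
    bdry N (cap c σ) = cap c (bdry N σ) := by
  apply chain_ext
  intro φ
  rw [ev_bdry, ev_cap, ev_cap, ev_bdry, cob_cupz hc]

theorem length_face : ∀ (i : ℕ) (w : List N), w ≠ [] → i ≤ w.length →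
    (face i w).length + 1 = w.length
  | _, [], h, _ => absurd rfl h
  | 0, g :: w, _, _ => by simp [face]
  | i + 1, [g], _, _ => by simp [face]
  | 1, g :: h :: w, _, _ => by simp [face]
  | i + 2, g :: h :: w, _, hi => by
      have := length_face (i + 1) (h :: w) (by simp) (by simpa using hi)
      simp only [face, List.length_cons] at this ⊢
      omega

theorem bdryWord_mem (w : List N) (m : ℤ) (hw : (w.length : ℤ) = m + 1) : bdryWord w ∈ deg N m := by
  rw [bdryWord]
  split_ifs with h
  · exact Submodule.zero_mem _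
  · refine Submodule.sum_mem _ fun i hi => ?_
    rw [Finset.mem_range] at hi
    apply Finsupp.single_mem_supported
    have := length_face i w h (by omega)
    change ((face i w).length : ℤ) = m
    omega

theorem bdry_mem {m : ℤ} {σ : Chains N} (hσ : σ ∈ deg N (m + 1)) : bdry N σ ∈ deg N m := by
  rw [bdry, Finsupp.linearCombination_apply]
  refine Submodule.sum_mem _ fun w hw => ?_
  refine Submodule.smul_mem _ _ (bdryWord_mem w m ?_)
  exact (Finsupp.mem_supported ℚ σ).mp hσ hw

theorem cap_mem {c : N → N → ℤ} {a b : ℤ} (hab : a = b + 2) {σ : Chains N} (hσ : σ ∈ deg N a) :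
    cap c σ ∈ deg N b := by
  rw [cap, Finsupp.linearCombination_apply]
  refine Submodule.sum_mem _ fun w hw => ?_
  refine Submodule.smul_mem _ _ ?_
  have h1 : (w.length : ℤ) = a := (Finsupp.mem_supported ℚ σ).mp hσ hw
  rcases w with _ | ⟨g, _ | ⟨h, l⟩⟩
  · exact Submodule.zero_mem _
  · exact Submodule.zero_mem _
  · apply Finsupp.single_mem_supported
    change (l.length : ℤ) = b
    simp only [List.length_cons] at h1
    push_cast at h1
    omega

/-- the part of degree `m` -/
noncomputable def part (m : ℤ) : Chains N →ₗ[ℚ] Chains N :=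
  Finsupp.linearCombination ℚ (fun w : List N =>
    if (w.length : ℤ) = m then (Finsupp.single w (1 : ℚ) : Chains N) else 0)

theorem part_of_mem {m : ℤ} {σ : Chains N} (hσ : σ ∈ deg N m) : part m σ = σ := by
  rw [part, Finsupp.linearCombination_apply]
  conv_rhs => rw [← Finsupp.sum_single σ]
  refine Finset.sum_congr rfl fun w hw => ?_
  have h1 : (w.length : ℤ) = m := (Finsupp.mem_supported ℚ σ).mp hσ hw
  simp [h1]

theorem part_mem (m : ℤ) (σ : Chains N) : part m σ ∈ deg N m := by
  rw [part, Finsupp.linearCombination_apply]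
  refine Submodule.sum_mem _ fun w hw => ?_
  refine Submodule.smul_mem _ _ ?_
  split_ifs with h
  · exact Finsupp.single_mem_supported ℚ _ h
  · exact Submodule.zero_mem _

theorem part_of_mem_ne {m m' : ℤ} (hm : m' ≠ m) {σ : Chains N} (hσ : σ ∈ deg N m') :
    part m σ = 0 := by
  rw [part, Finsupp.linearCombination_apply]
  refine Finset.sum_eq_zero fun w hw => ?_
  have h1 : (w.length : ℤ) = m' := (Finsupp.mem_supported ℚ σ).mp hσ hw
  have h2 : ¬ ((w.length : ℤ) = m) := by rw [h1]; exact hm
  simp only [h2, if_false, smul_zero]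

theorem bdry_part (m : ℤ) (σ : Chains N) : bdry N (part (m + 1) σ) = part m (bdry N σ) := by
  induction σ using Finsupp.induction_linear with
  | zero => simp
  | add f g hf hg => simp only [map_add, hf, hg]
  | single w q =>
    have h0 : (Finsupp.single w q : Chains N) ∈ deg N (w.length : ℤ) :=
      Finsupp.single_mem_supported ℚ q rfl
    have h0' : (Finsupp.single w q : Chains N) ∈ deg N (((w.length : ℤ) - 1) + 1) := by
      rw [sub_add_cancel]; exact h0
    by_cases h : (w.length : ℤ) = m + 1
    · rw [h] at h0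
      rw [part_of_mem h0, part_of_mem (bdry_mem h0)]
    · rw [part_of_mem_ne h h0, map_zero, part_of_mem_ne (m' := (w.length : ℤ) - 1) (by omega)
        (bdry_mem h0')]

/-- **The power of the cap product of a cycle is a boundary.** -/
theorem cap_pow_bdr {c : N → N → ℤ} {r : ℕ} (h : CupNil c r ℚ) {a b : ℤ} (hab : a = b + 2 * r)
    {σ : Chains N} (hσ : σ ∈ Cyc N a) : (cap c ^ r) σ ∈ Bdr N b := by
  have hmem : ∀ (n : ℕ) (a b : ℤ), a = b + 2 * n → ∀ τ ∈ deg N a, (cap c ^ n) τ ∈ deg N b := by
    intro n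
    induction n with
    | zero => intro a b hab τ hτ; simp only [Nat.cast_zero, mul_zero, add_zero] at hab; subst hab; exact hτ
    | succ n ih =>
      intro a b hab τ hτ
      rw [pow_succ (cap c) n]
      exact ih (b + 2 * n) b rfl _ (cap_mem (by rw [hab]; push_cast; ring) hτ)
  have h1 : (cap c ^ r) σ ∈ LinearMap.range (bdry N) := by
    by_contra hn
    obtain ⟨f, hf1, hf2⟩ := Submodule.exists_le_ker_of_notMem hn
    set φ : List N → ℚ := fun w => f (Finsupp.single w 1) with hφ
    have hf : ∀ τ, f τ = ev φ τ := by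
      intro τ
      induction τ using Finsupp.induction_linear with
      | zero => simp
      | add f g hf hg => rw [map_add, map_add, hf, hg]
      | single w q =>
        rw [ev_single, hφ, ← smul_eq_mul, ← map_smul, Finsupp.smul_single, smul_eq_mul, mul_one]
    have h2 : cob triv φ = 0 := by
      funext w
      have h3 : f (bdry N (Finsupp.single w 1)) = 0 := hf2 ⟨_, rfl⟩
      rw [hf, ev_bdry, ev_single, one_mul] at h3
      exact h3
    obtain ⟨η, hη⟩ := h φ h2
    apply hf1
    rw [hf, ev_cap_pow, hη, ← ev_bdry]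
    have h4 : bdry N σ = 0 := hσ.2
    rw [h4, map_zero]
  obtain ⟨τ, hτ⟩ := h1
  refine ⟨part (b + 1) τ, part_mem _ _, ?_⟩
  rw [bdry_part, hτ]
  exact part_of_mem (hmem r a b hab σ hσ.1)

end BurgheleaT
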