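import Mathlib
import Pool.Agent.Lib_helper52.BT.Defs
import Pool.Agent.Lib_helper52.BT.Hom

/-!
# The terms `T_k(x, ℚ)`: the Gysin homomorphisms on homology and the inverse limits
-/

namespace BurgheleaT

section gysin

variable {N : Type*} [Group N]

theorem cap_cyc {c : N → N → ℤ} (hc : IsCoc c) {a b : ℤ} (hab : a = b + 2) (σ : Chains N)
    (hσ : σ ∈ Cyc N a) : cap c σ ∈ Cyc N b := by
  refine ⟨cap_mem hab hσ.1, ?_⟩
  have h1 : bdry N σ = 0 := hσ.2
  change bdry N (cap c σ) = 0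
  rw [bdry_cap hc, h1, map_zero]

theorem cap_bdr {c : N → N → ℤ} (hc : IsCoc c) {a b : ℤ} (hab : a = b + 2) (σ : Chains N)
    (hσ : σ ∈ Bdr N a) : cap c σ ∈ Bdr N b := by
  obtain ⟨τ, hτ, rfl⟩ := hσ
  refine ⟨cap c τ, cap_mem (by omega) hτ, ?_⟩
  rw [bdry_cap hc]

/-- The Gysin homomorphism `S : H_a(N; ℚ) → H_b(N; ℚ)`, `a = b + 2`: the cap product with the class
of the 2-cocycle `c`. -/
noncomputable def gysin (c : N → N → ℤ) (hc : IsCoc c) (a b : ℤ) (hab : a = b + 2) :
    H N a →ₗ[ℚ] H N b :=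
  Submodule.mapQ _ _ ((cap c).restrict (cap_cyc hc hab))
    (fun σ hσ => cap_bdr hc hab σ.1 hσ)

/-- The members of the inverse sequence `V^{(k)}_n = H_{k+2n}(N; ℚ)`. -/
abbrev V (N : Type*) [Group N] (k : ℤ) (n : ℕ) := H N (k + 2 * n)

/-- The maps `V^{(k)}_{n+1} → V^{(k)}_n` of the inverse sequence. -/
noncomputable def shift (c : N → N → ℤ) (hc : IsCoc c) (k : ℤ) (n : ℕ) :
    V N k (n + 1) →ₗ[ℚ] V N k n :=
  gysin c hc (k + 2 * (n + 1 : ℕ)) (k + 2 * n) (by push_cast; ring)

/-- The homomorphism `∏ V^{(k)}_n → ∏ V^{(k)}_n`, `(v_n) ↦ (v_n - S v_{n+1})`.  Its kernel is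
`lim_n V^{(k)}_n` and its cokernel is `lim¹_n V^{(k)}_n`. -/
noncomputable def oneSub (c : N → N → ℤ) (hc : IsCoc c) (k : ℤ) (v : ∀ n, V N k n) (n : ℕ) :
    V N k n := v n - shift c hc k n (v (n + 1))

/-- The term with index `k`, an extension of `lim_n V^{(k)}_n` by `lim¹_n V^{(k-1)}_n`, is zero:
the homomorphism `oneSub` is surjective for `k - 1` and injective for `k`. -/
def TermVanishes (c : N → N → ℤ) (hc : IsCoc c) (k : ℤ) : Prop :=
  Function.Surjective (oneSub c hc (k - 1)) ∧ Function.Injective (oneSub c hc k)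

/-- `S ^ r = 0` in all degrees: if `v_n ∈ V^{(k)}_n` and `S v_{n+1} = v_n` for `n < r`, then
`v_0 = 0`. -/
def PowVanishes (c : N → N → ℤ) (hc : IsCoc c) (r : ℕ) : Prop :=
  ∀ (k : ℤ) (v : ∀ n, V N k n), (∀ n < r, shift c hc k n (v (n + 1)) = v n) → v 0 = 0

end gysin

section group

variable {G : Type*} [Group G] {x : G}

theorem EulerCocycle.extData (e : EulerCocycle x) (hx : ¬ IsOfFinOrder x) :
    ExtData (gen x) e.s e.c where
  central g := by
    apply Subtype.ext
    exact Subgroup.mem_centralizer_singleton_iff.mp g.2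
  mul := e.hc
  inf n hn := by
    by_contra h0
    apply hx
    rw [isOfFinOrder_iff_zpow_eq_one]
    exact ⟨n, h0, congrArg Subtype.val hn⟩

theorem EulerCocycle.isCoc (e : EulerCocycle x) (hx : ¬ IsOfFinOrder x) : IsCoc e.c :=
  (e.extData hx).coc

variable (x)

/-- There are such cocycles. -/
theorem exists_eulerCocycle : Nonempty (EulerCocycle x) := by
  classical
  have hsurj : Function.Surjective (proj x) := QuotientGroup.mk'_surjective _
  let s : RedCen x → Cen x := fun g => (hsurj g).choose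
  have hs : ∀ g : RedCen x, proj x (s g) = g := fun g => (hsurj g).choose_spec
  have h : ∀ g h : RedCen x, ∃ n : ℤ, s g * s h = s (g * h) * gen x ^ n := by
    intro g h
    have h1 : proj x (s (g * h)) = proj x (s g * s h) := by
      rw [hs, map_mul, hs, hs]
    obtain ⟨n, hn⟩ := (QuotientGroup.eq (s := Subgroup.zpowers (gen x))).mp h1
    exact ⟨n, by rw [show gen x ^ n = _ from hn, mul_inv_cancel_left]⟩
  choose c hc using h
  exact ⟨⟨s, hs, c, hc⟩⟩

/-- If `x` has infinite order, then all the terms `T_k(x, ℚ)`, `k ∈ ℤ`, are zero, and the class of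
the central extension `1 → ⟨x⟩ → G_x → N_x → 1` is nilpotent on homology: `S ^ r = 0` for some `r`.
(For every choice of the cocycle; there are such cocycles.) -/
def TermsVanish : Prop :=
  ∀ hx : ¬ IsOfFinOrder x, Nonempty (EulerCocycle x) ∧
    ∀ e : EulerCocycle x,
      (∀ k : ℤ, TermVanishes e.c (e.isCoc hx) k) ∧ ∃ r : ℕ, PowVanishes e.c (e.isCoc hx) r

end group

end BurgheleaT
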