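import Mathlib
import Pool.Agent.Lib_helper52.BT.Terms

/-! Vanishing of the inverse limits from the nilpotency of the class. -/

namespace BurgheleaT

/-! ### Vanishing -/

section vanish

variable {N : Type*} [Group N]

theorem cap_pow_cyc {c : N → N → ℤ} (hc : IsCoc c) (r : ℕ) : ∀ (a b : ℤ), a = b + 2 * r →
    ∀ σ ∈ Cyc N a, (cap c ^ r) σ ∈ Cyc N b := by
  induction r with
  | zero => intro a b hab σ hσ; simp only [Nat.cast_zero, mul_zero, add_zero] at hab; subst hab; exact hσ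
  | succ n ih =>
    intro a b hab σ hσ
    rw [pow_succ (cap c) n]
    exact ih (b + 2 * n) b rfl _ (cap_cyc hc (by rw [hab]; push_cast; ring) σ hσ)

/-- the composite maps `V^{(k)}_{n+r} → V^{(k)}_n`, i.e. `S ^ r`. -/
noncomputable def shiftPow (c : N → N → ℤ) (hc : IsCoc c) (k : ℤ) (n : ℕ) :
    (r : ℕ) → (V N k (n + r) →ₗ[ℚ] V N k n)
  | 0 => LinearMap.id
  | r + 1 => shiftPow c hc k n r ∘ₗ shift c hc k (n + r)

/-- the class of a cycle -/
noncomputable def hmk {m : ℤ} (σ : Cyc N m) : H N m := Submodule.Quotient.mk σ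

theorem hmk_surjective {m : ℤ} (v : H N m) : ∃ σ : Cyc N m, hmk σ = v :=
  Submodule.Quotient.mk_surjective _ v

theorem hmk_eq_zero {m : ℤ} {σ : Cyc N m} (h : σ.1 ∈ Bdr N m) : hmk σ = 0 :=
  (Submodule.Quotient.mk_eq_zero ((Bdr N m).comap (Cyc N m).subtype)).mpr h

theorem shiftPow_mk {c : N → N → ℤ} (hc : IsCoc c) (k : ℤ) (n : ℕ) : ∀ (r : ℕ)
    (σ : Cyc N (k + 2 * (n + r : ℕ))),
    shiftPow c hc k n r (hmk σ) =
      hmk ⟨(cap c ^ r) σ.1,
        cap_pow_cyc hc r (k + 2 * (n + r : ℕ)) (k + 2 * n) (by push_cast; ring) σ.1 σ.2⟩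
  | 0, σ => rfl
  | r + 1, σ => by
      have h1 : shiftPow c hc k n (r + 1) (hmk σ)
          = shiftPow c hc k n r (hmk ⟨cap c σ.1,
            cap_cyc hc (by push_cast; ring) σ.1 σ.2⟩) := rfl
      rw [h1, shiftPow_mk hc k n r]
      congr 1

theorem shiftPow_eq_zero {c : N → N → ℤ} (hc : IsCoc c) {r : ℕ} (h : CupNil c r ℚ) (k : ℤ) (n : ℕ) :
    shiftPow c hc k n r = 0 := by
  apply LinearMap.ext
  intro v
  obtain ⟨σ, rfl⟩ := hmk_surjective v
  rw [shiftPow_mk, LinearMap.zero_apply]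
  exact hmk_eq_zero (cap_pow_bdr h (by push_cast; ring) σ.2)

/-- from the degree `j` down to the degree `n ≤ j` -/
noncomputable def down (c : N → N → ℤ) (hc : IsCoc c) (k : ℤ) (w : ∀ n, V N k n) (n r : ℕ) :
    V N k n := shiftPow c hc k n r (w (n + r))

theorem shift_down {c : N → N → ℤ} (hc : IsCoc c) (k : ℤ) (w : ∀ n, V N k n) (n r : ℕ) :
    shift c hc k n (down c hc k w (n + 1) r) = down c hc k w n (r + 1) := by
  have key : ∀ (m m' : ℕ) (hm : m = m') (hmn : m = n + 1 + r) (hmn' : m' = n + (r + 1)),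
      (∀ σ : Cyc N (k + 2 * (m : ℕ)), (hmk σ : V N k m) = w m →
        shift c hc k n (shiftPow c hc k (n + 1) r (hmn ▸ w m)) =
          hmk ⟨(cap c ^ (r + 1)) σ.1,
            cap_pow_cyc hc (r + 1) _ (k + 2 * n) (by rw [hmn]; push_cast; ring) σ.1 σ.2⟩) := by
    intro m m' hm hmn hmn' σ hσ
    subst hmn
    rw [← hσ]
    change shift c hc k n (shiftPow c hc k (n + 1) r (hmk σ)) = _
    rw [shiftPow_mk]
    apply congrArg hmk
    apply Subtype.ext
    change cap c ((cap c ^ r) σ.1) = (cap c ^ (r + 1)) σ.1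
    rw [pow_succ' (cap c) r]
    rfl
  obtain ⟨σ, hσ⟩ := hmk_surjective (w (n + 1 + r))
  have h1 := key (n + 1 + r) (n + (r + 1)) (by omega) rfl rfl σ hσ
  have h2 : ∀ (m : ℕ) (hm : n + 1 + r = m) (hmn' : m = n + (r + 1))
      (τ : Cyc N (k + 2 * (m : ℕ))), (hmk τ : V N k m) = w m → τ.1 = σ.1 →
        shiftPow c hc k n (r + 1) (hmn' ▸ w m) = hmk ⟨(cap c ^ (r + 1)) σ.1,
            cap_pow_cyc hc (r + 1) _ (k + 2 * n) (by push_cast; ring) σ.1 σ.2⟩ := by
    intro m hm hmn' τ hτ hτσ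
    subst hmn'
    rw [← hτ]
    change shiftPow c hc k n (r + 1) (hmk τ) = _
    rw [shiftPow_mk]
    apply congrArg hmk
    apply Subtype.ext
    change (cap c ^ (r + 1)) τ.1 = (cap c ^ (r + 1)) σ.1
    rw [hτσ]
  have h3 : ∀ (m : ℕ) (hm : n + 1 + r = m), ∃ τ : Cyc N (k + 2 * (m : ℕ)),
      (hmk τ : V N k m) = w m ∧ τ.1 = σ.1 := by
    intro m hm
    subst hm
    exact ⟨σ, hσ, rfl⟩
  obtain ⟨τ, hτ, hτσ⟩ := h3 (n + (r + 1)) (by omega)
  have h4 := h2 (n + (r + 1)) (by omega) rfl τ hτ hτσ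
  exact h1.trans h4.symm

theorem powVanishes_of_cupNil {c : N → N → ℤ} (hc : IsCoc c) {r : ℕ} (h : CupNil c r ℚ) :
    PowVanishes c hc r := by
  intro k v hv
  have h1 : ∀ i, i ≤ r → down c hc k v 0 i = v 0 := by
    intro i
    induction i with
    | zero => intro _; rfl
    | succ i ih =>
      intro hi
      rw [← ih (by omega)]
      change shiftPow c hc k 0 i (shift c hc k (0 + i) (v (0 + i + 1))) = _
      rw [hv (0 + i) (by omega)]
      rfl
  have h2 := h1 r le_rfl
  rw [down, shiftPow_eq_zero hc h, LinearMap.zero_apply] at h2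
  exact h2.symm

theorem termVanishes_of_cupNil {c : N → N → ℤ} (hc : IsCoc c) {r : ℕ} (h : CupNil c r ℚ) (k : ℤ) :
    TermVanishes c hc k := by
  constructor
  · intro w
    refine ⟨fun n => ∑ i ∈ Finset.range r, down c hc (k - 1) w n i, ?_⟩
    funext n
    change (∑ i ∈ Finset.range r, down c hc (k - 1) w n i)
      - shift c hc (k - 1) n (∑ i ∈ Finset.range r, down c hc (k - 1) w (n + 1) i) = w n
    rw [map_sum]
    simp only [shift_down]
    rw [← Finset.sum_sub_distrib, ← neg_inj, ← Finset.sum_neg_distrib]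
    simp only [neg_sub]
    rw [Finset.sum_range_sub (fun i => down c hc (k - 1) w n i)]
    have h1 : down c hc (k - 1) w n r = 0 := by
      rw [down, shiftPow_eq_zero hc h, LinearMap.zero_apply]
    have h2 : down c hc (k - 1) w n 0 = w n := rfl
    rw [h1, h2, zero_sub]
  · intro v₁ v₂ h12
    rw [← sub_eq_zero]
    set v := v₁ - v₂ with hvdef
    have hv' : ∀ n, shift c hc k n (v (n + 1)) = v n := by
      intro n
      have h1 := congrFun h12 n
      simp only [oneSub] at h1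
      rw [hvdef, Pi.sub_apply, Pi.sub_apply, map_sub]
      exact (sub_eq_sub_iff_sub_eq_sub.mp h1).symm
    funext n
    have h1 : ∀ i, down c hc k v n i = v n := by
      intro i
      induction i with
      | zero => rfl
      | succ i ih =>
        rw [← ih]
        change shiftPow c hc k n i (shift c hc k (n + i) (v (n + i + 1))) = _
        rw [hv' (n + i)]
        rfl
    have h2 := h1 r
    rw [down, shiftPow_eq_zero hc h, LinearMap.zero_apply] at h2
    exact h2.symm

end vanish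

end BurgheleaT
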