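import Mathlib
import Pool.Agent.Lib_helper52.BT.Van

/-! The criterion: representations of bounded dimension over varying fields. -/

set_option linter.unusedSectionVars false

namespace BurgheleaT

section ultra

variable {Γ : Type*} [Group Γ]

/-- One field for a sequence of representations of the same dimension over varying fields. -/
theorem exists_one_field {n : ℕ} (x : Γ) (K : ℕ → Type*) [∀ j, Field (K j)]
    (ρ : ∀ j, Γ →* Matrix.GeneralLinearGroup (Fin n) (K j))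
    (h : ∀ j, ρ j x ^ (j + 1).factorial ≠ 1) :
    ∃ (𝔪 : Ideal (∀ j, K j)) (_ : 𝔪.IsMaximal)
      (ρ' : Γ →* Matrix.GeneralLinearGroup (Fin n) ((∀ j, K j) ⧸ 𝔪)),
      ∀ m : ℕ, 0 < m → ρ' x ^ m ≠ 1 := by
  classical
  let I : Ideal (∀ j, K j) :=
    { carrier := {r | ∃ N, ∀ j, N ≤ j → r j = 0}
      add_mem' := by
        rintro a b ⟨N, hN⟩ ⟨N', hN'⟩
        exact ⟨max N N', fun j hj => by
          rw [Pi.add_apply, hN j (le_trans (le_max_left _ _) hj),
            hN' j (le_trans (le_max_right _ _) hj), add_zero]⟩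
      zero_mem' := ⟨0, fun _ _ => rfl⟩
      smul_mem' := by
        rintro c a ⟨N, hN⟩
        exact ⟨N, fun j hj => by rw [smul_eq_mul, Pi.mul_apply, hN j hj, mul_zero]⟩ }
  have hI : I ≠ ⊤ := by
    intro h1
    have h2 : (1 : ∀ j, K j) ∈ I := by rw [h1]; exact Submodule.mem_top
    obtain ⟨N, hN⟩ := h2
    exact one_ne_zero (hN N le_rfl)
  obtain ⟨𝔪, h𝔪, hI𝔪⟩ := Ideal.exists_le_maximal I hI
  let ρR : Γ →* Matrix (Fin n) (Fin n) (∀ j, K j) :=
    { toFun := fun g => Matrix.of fun a b j => (ρ j g : Matrix (Fin n) (Fin n) (K j)) a b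
      map_one' := by
        ext a b j
        simp only [map_one, Units.val_one, Matrix.of_apply, Matrix.one_apply]
        split_ifs <;> simp
      map_mul' := by
        intro g g'
        ext a b j
        simp only [map_mul, Units.val_mul, Matrix.of_apply, Matrix.mul_apply, Finset.sum_apply,
          Pi.mul_apply] }
  let ρ' : Γ →* Matrix.GeneralLinearGroup (Fin n) ((∀ j, K j) ⧸ 𝔪) :=
    (Matrix.GeneralLinearGroup.map (Ideal.Quotient.mk 𝔪)).comp ρR.toHomUnits
  refine ⟨𝔪, h𝔪, ρ', fun m hm h1 => ?_⟩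
  -- the entries of `ρR x ^ m - 1` are in `𝔪`
  have hent : ∀ a b, ((ρR x) ^ m - 1) a b ∈ 𝔪 := by
    intro a b
    rw [← Ideal.Quotient.eq_zero_iff_mem]
    have h2 := congrArg (fun u : Matrix.GeneralLinearGroup (Fin n) ((∀ j, K j) ⧸ 𝔪) =>
      (u : Matrix (Fin n) (Fin n) ((∀ j, K j) ⧸ 𝔪)) a b) h1
    have h3 : (ρ' x ^ m : Matrix.GeneralLinearGroup (Fin n) ((∀ j, K j) ⧸ 𝔪)) =
        Matrix.GeneralLinearGroup.map (Ideal.Quotient.mk 𝔪) (ρR.toHomUnits x ^ m) := by
      rw [map_pow]; rfl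
    simp only [h3] at h2
    have h4 : (Ideal.Quotient.mk 𝔪) (((ρR x) ^ m) a b)
        = (1 : Matrix (Fin n) (Fin n) ((∀ j, K j) ⧸ 𝔪)) a b := h2
    rw [Matrix.sub_apply, map_sub, h4, Matrix.one_apply, Matrix.one_apply]
    split_ifs <;> simp
  have hpow : ∀ j, ((ρR x) ^ m : Matrix (Fin n) (Fin n) (∀ j, K j)).map (fun r => r j)
      = ((ρ j x : Matrix (Fin n) (Fin n) (K j)) ^ m) := by
    intro j
    have h2 := map_pow ((Pi.evalRingHom K j).mapMatrix (m := Fin n)) (ρR x) m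
    exact h2
  have hne : ∀ j, m ≤ j → ∃ ab : Fin n × Fin n, (((ρR x) ^ m - 1) ab.1 ab.2) j ≠ 0 := by
    intro j hj
    by_contra h2
    push Not at h2
    apply h j
    obtain ⟨q, hq⟩ : m ∣ (j + 1).factorial := Nat.dvd_factorial hm (by omega)
    have h3 : ρ j x ^ m = 1 := by
      apply Units.ext
      rw [Units.val_pow_eq_pow_val, Units.val_one, ← hpow j]
      ext a b
      have h4 := h2 (a, b)
      simp only [Matrix.sub_apply, Pi.sub_apply, sub_eq_zero] at h4
      rw [Matrix.map_apply, h4, Matrix.one_apply, Matrix.one_apply]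
      split_ifs <;> simp
    rw [hq, pow_mul, h3, one_pow]
  have hnon : Nonempty (Fin n × Fin n) := ⟨(hne m le_rfl).choose⟩
  choose! f hf using hne
  let u : ∀ j, K j := ∑ ab : Fin n × Fin n,
    (fun j => if m ≤ j ∧ f j = ab then ((((ρR x) ^ m - 1) ab.1 ab.2) j)⁻¹ else 0) *
      (((ρR x) ^ m - 1) ab.1 ab.2)
  have hu : u ∈ 𝔪 := Ideal.sum_mem _ fun ab _ => Ideal.mul_mem_left _ _ (hent ab.1 ab.2)
  have hu1 : 1 - u ∈ 𝔪 := by
    apply hI𝔪
    refine ⟨m, fun j hj => ?_⟩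
    have h2 : u j = 1 := by
      simp only [u, Finset.sum_apply, Pi.mul_apply]
      rw [Finset.sum_eq_single (f j)]
      · rw [if_pos ⟨hj, rfl⟩, inv_mul_cancel₀ (hf j hj)]
      · intro ab _ hab
        rw [if_neg (fun h3 => hab h3.2.symm), zero_mul]
      · intro h3
        exact absurd (Finset.mem_univ _) h3
    rw [Pi.sub_apply, Pi.one_apply, h2, sub_self]
  apply h𝔪.ne_top
  rw [Ideal.eq_top_iff_one]
  have := 𝔪.add_mem hu1 hu
  rwa [sub_add_cancel] at this

end ultra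

section main

variable {G : Type*} [Group G] (x : G)

theorem termsVanish_of_cupNil
    (h : ∀ (_ : ¬ IsOfFinOrder x) (e : EulerCocycle x), ∃ r, CupNil e.c r ℚ) : TermsVanish x := by
  intro hx
  refine ⟨exists_eulerCocycle x, fun e => ?_⟩
  obtain ⟨r, hr⟩ := h hx e
  exact ⟨fun k => termVanishes_of_cupNil (e.isCoc hx) hr k, r,
    powVanishes_of_cupNil (e.isCoc hx) hr⟩

/-- **The criterion.** -/
theorem termsVanish_of_reps (n : ℕ)
    (h : ∀ m : ℕ, 0 < m → ∃ (K : Type*) (_ : Field K)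
      (ρ : Cen x →* Matrix.GeneralLinearGroup (Fin n) K), ρ (gen x) ^ m ≠ 1) :
    TermsVanish x := by
  classical
  choose K hK ρ hρ using fun j : ℕ => h ((j + 1).factorial) (Nat.factorial_pos _)
  obtain ⟨𝔪, h𝔪, ρ', hρ'⟩ := exists_one_field (gen x) K ρ hρ
  let _ : Field ((∀ j, K j) ⧸ 𝔪) := Ideal.Quotient.field 𝔪
  refine termsVanish_of_cupNil x fun hx e => ?_
  refine cupNil_of_rep (e.extData hx) ρ' ?_
  intro h1
  obtain ⟨m, hm, h2⟩ := isOfFinOrder_iff_pow_eq_one.mp h1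
  exact hρ' m hm h2

/-- Groups that are linear over a reduced commutative ring. -/
theorem termsVanish_linear {R : Type*} [CommRing R] [IsReduced R] (n : ℕ)
    (f : G →* Matrix.GeneralLinearGroup (Fin n) R) (hf : Function.Injective f) :
    TermsVanish x := by
  classical
  intro hx
  refine (termsVanish_of_reps x n fun m hm => ?_) hx
  -- a non-zero entry of `f x ^ m - 1`
  have h1 : f x ^ m ≠ 1 := by
    intro h2
    apply hx
    rw [isOfFinOrder_iff_pow_eq_one]
    exact ⟨m, hm, hf (by rw [map_pow, map_one]; exact h2)⟩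
  obtain ⟨a, b, hab⟩ : ∃ a b, ((f x : Matrix (Fin n) (Fin n) R) ^ m - 1) a b ≠ 0 := by
    by_contra h2
    push Not at h2
    apply h1
    apply Units.ext
    rw [Units.val_pow_eq_pow_val, Units.val_one]
    ext a b
    have h3 := h2 a b
    rw [Matrix.sub_apply, sub_eq_zero] at h3
    exact h3
  obtain ⟨𝔭, h𝔭, hr⟩ : ∃ 𝔭 : Ideal R, 𝔭.IsPrime ∧
      ((f x : Matrix (Fin n) (Fin n) R) ^ m - 1) a b ∉ 𝔭 := by
    by_contra h2
    push Not at h2
    apply hab
    have h3 : ((f x : Matrix (Fin n) (Fin n) R) ^ m - 1) a b ∈ nilradical R := by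
      rw [nilradical_eq_sInf, Submodule.mem_sInf]
      exact fun 𝔭 h𝔭 => h2 𝔭 h𝔭
    rw [nilradical_eq_zero] at h3
    exact h3
  let φ : R →+* FractionRing (R ⧸ 𝔭) := (algebraMap (R ⧸ 𝔭) (FractionRing (R ⧸ 𝔭))).comp
    (Ideal.Quotient.mk 𝔭)
  refine ⟨FractionRing (R ⧸ 𝔭), inferInstance,
    ((Matrix.GeneralLinearGroup.map φ).comp f).comp (Cen x).subtype, fun h2 => hr ?_⟩
  have h3 : Matrix.GeneralLinearGroup.map φ (f x ^ m) = 1 := by rw [map_pow]; exact h2
  have h4 := congrArg (fun u : Matrix.GeneralLinearGroup (Fin n) (FractionRing (R ⧸ 𝔭)) =>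
    (u : Matrix (Fin n) (Fin n) (FractionRing (R ⧸ 𝔭))) a b) h3
  have h5 : φ (((f x : Matrix (Fin n) (Fin n) R) ^ m) a b)
      = (1 : Matrix (Fin n) (Fin n) (FractionRing (R ⧸ 𝔭))) a b := h4
  have h6 : φ (((f x : Matrix (Fin n) (Fin n) R) ^ m - 1) a b) = 0 := by
    rw [Matrix.sub_apply, map_sub, h5, Matrix.one_apply, Matrix.one_apply]
    split_ifs <;> simp
  have h7 : Ideal.Quotient.mk 𝔭 (((f x : Matrix (Fin n) (Fin n) R) ^ m - 1) a b) = 0 := by
    apply IsFractionRing.injective (R ⧸ 𝔭) (FractionRing (R ⧸ 𝔭))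
    rw [map_zero]
    exact h6
  exact Ideal.Quotient.eq_zero_iff_mem.mp h7

end main

end BurgheleaT
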