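import Mathlib
import Pool.Agent.Lib_helper52.BT.Main
import Pool.Agent.Lib_helper52.BT.HolDefs

/-! Subgroups of the holomorph of a finitely generated group whose rational group algebra is
separated for the powers of the augmentation ideal. -/

set_option linter.unusedSectionVars false

namespace BurgheleaT

open MonoidAlgebra (single)

variable {π : Type*} [Group π]

theorem mem_aug {a : MonoidAlgebra ℚ π} : a ∈ augIdeal π ↔ aug π a = 0 := Iff.rfl

theorem aug_single (g : π) (q : ℚ) : aug π (single g q) = q := by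
  simp [aug]

theorem sub_one_mem (g : π) : (single g (1 : ℚ) : MonoidAlgebra ℚ π) - 1 ∈ augIdeal π := by
  rw [mem_aug, map_sub, aug_single, map_one, sub_self]

theorem mul_mem_aug_left (a : MonoidAlgebra ℚ π) {b : MonoidAlgebra ℚ π} (hb : b ∈ augIdeal π) :
    a * b ∈ augIdeal π := by
  rw [mem_aug] at hb ⊢
  rw [map_mul, hb, mul_zero]

theorem mul_mem_aug_right (a : MonoidAlgebra ℚ π) {b : MonoidAlgebra ℚ π} (hb : b ∈ augIdeal π) :
    b * a ∈ augIdeal π := by
  rw [mem_aug] at hb ⊢
  rw [map_mul, hb, zero_mul]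

theorem mul_mem_pow_left (a : MonoidAlgebra ℚ π) (k : ℕ) {b : MonoidAlgebra ℚ π}
    (hb : b ∈ augIdeal π ^ (k + 1)) : a * b ∈ augIdeal π ^ (k + 1) := by
  rw [pow_succ'] at hb ⊢
  induction hb using Submodule.mul_induction_on' with
  | mem_mul_mem u hu v hv =>
    rw [← mul_assoc]
    exact Submodule.mul_mem_mul (mul_mem_aug_left a hu) hv
  | add u _ v _ hu hv =>
    rw [mul_add]
    exact Submodule.add_mem _ hu hv

theorem mul_mem_pow_right (a : MonoidAlgebra ℚ π) (k : ℕ) {b : MonoidAlgebra ℚ π}
    (hb : b ∈ augIdeal π ^ (k + 1)) : b * a ∈ augIdeal π ^ (k + 1) := by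
  rw [pow_succ] at hb ⊢
  induction hb using Submodule.mul_induction_on' with
  | mem_mul_mem u hu v hv =>
    rw [mul_assoc]
    exact Submodule.mul_mem_mul hu (mul_mem_aug_right a hv)
  | add u _ v _ hu hv =>
    rw [add_mul]
    exact Submodule.add_mem _ hu hv

theorem pow_succ_le (k : ℕ) : augIdeal π ^ (k + 1 + 1) ≤ augIdeal π ^ (k + 1) := by
  rw [pow_succ]
  refine Submodule.mul_le.mpr fun u hu v _ => ?_
  exact mul_mem_pow_right v k hu

/-- the automorphism of the group algebra -/
noncomputable def autA (α : MulAut π) : MonoidAlgebra ℚ π →ₐ[ℚ] MonoidAlgebra ℚ π :=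
  MonoidAlgebra.mapDomainAlgHom ℚ ℚ (α : π ≃* π).toMonoidHom

theorem autA_single (α : MulAut π) (g : π) (q : ℚ) : autA α (single g q) = single (α g) q := by
  simp [autA]

theorem aug_autA (α : MulAut π) (a : MonoidAlgebra ℚ π) : aug π (autA α a) = aug π a := by
  have h : (aug π).comp (autA α) = aug π := by
    apply MonoidAlgebra.algHom_ext
    · intro g
      rw [AlgHom.comp_apply, autA_single, aug_single, aug_single]
    · apply AlgHom.ext
      intro q
      simp [autA_single, aug_single, MonoidAlgebra.singleOneAlgHom]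
  exact congrArg (fun f => f a) h

theorem autA_pow (α : MulAut π) (k : ℕ) {a : MonoidAlgebra ℚ π} (ha : a ∈ augIdeal π ^ k) :
    autA α a ∈ augIdeal π ^ k := by
  have h2 := Submodule.mem_map_of_mem (f := (autA α).toLinearMap) ha
  rw [Submodule.map_pow] at h2
  have h3 : Submodule.map (autA α).toLinearMap (augIdeal π) ≤ augIdeal π := by
    rintro _ ⟨w, hw, rfl⟩
    rw [SetLike.mem_coe, mem_aug] at hw
    rw [mem_aug]
    change aug π (autA α w) = 0
    rw [aug_autA, hw]
  exact (pow_le_pow_left' h3 k) h2

/-- the action of the holomorph on the group algebra -/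
noncomputable def act : Hol π →* Module.End ℚ (MonoidAlgebra ℚ π) where
  toFun h := LinearMap.mulLeft ℚ (single h.left (1 : ℚ)) * (autA h.right).toLinearMap
  map_one' := by
    apply LinearMap.ext
    intro a
    induction a using MonoidAlgebra.induction_linear with
    | zero => simp
    | add a b ha hb => rw [map_add, map_add, ha, hb]
    | single g q =>
      change single (1 : π) (1 : ℚ) * autA (1 : MulAut π) (single g q) = single g q
      rw [autA_single, MonoidAlgebra.single_mul_single]
      simp
  map_mul' h h' := by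
    apply LinearMap.ext
    intro a
    induction a using MonoidAlgebra.induction_linear with
    | zero => simp
    | add a b ha hb => rw [map_add, map_add, ha, hb]
    | single g q =>
      change single (h * h').left (1 : ℚ) * autA (h * h').right (single g q)
        = single h.left (1 : ℚ) * autA h.right (single h'.left (1 : ℚ) * autA h'.right (single g q))
      rw [map_mul, autA_single, autA_single, autA_single, autA_single,
        MonoidAlgebra.single_mul_single, MonoidAlgebra.single_mul_single,
        MonoidAlgebra.single_mul_single]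
      simp [SemidirectProduct.mul_left, SemidirectProduct.mul_right, mul_assoc]

theorem act_apply (h : Hol π) (a : MonoidAlgebra ℚ π) :
    act h a = single h.left (1 : ℚ) * autA h.right a := rfl

theorem act_pow (h : Hol π) (k : ℕ) {a : MonoidAlgebra ℚ π} (ha : a ∈ augIdeal π ^ (k + 1)) :
    act h a ∈ augIdeal π ^ (k + 1) := mul_mem_pow_left _ k (autA_pow _ _ ha)

theorem act_faithful (h : Hol π) (hh : ∀ a, act h a = a) : h = 1 := by
  have h1 := hh 1
  rw [act_apply, map_one, mul_one, MonoidAlgebra.one_def] at h1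
  have hs : ∀ g g' : π, (single g (1 : ℚ) : MonoidAlgebra ℚ π) = single g' 1 → g = g' :=
    fun g g' h => MonoidAlgebra.of_injective (R := ℚ) (M := π) h
  have hl : h.left = 1 := hs _ _ h1
  apply SemidirectProduct.ext
  · exact hl
  · apply MulEquiv.ext
    intro g
    have h2 := hh (single g 1)
    rw [act_apply, autA_single, MonoidAlgebra.single_mul_single, hl, one_mul, one_mul] at h2
    exact hs _ _ h2

/-- the representation on the quotient -/
noncomputable def actQ (k : ℕ) : Hol π →* Module.End ℚ (MonoidAlgebra ℚ π ⧸ augIdeal π ^ (k + 1)) where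
  toFun h := Submodule.mapQ _ _ (act h) (fun _ ha => act_pow h k ha)
  map_one' := by
    apply LinearMap.ext
    intro v
    obtain ⟨a, rfl⟩ := Submodule.mkQ_surjective _ v
    change Submodule.mkQ _ (act 1 a) = _
    rw [map_one]
    rfl
  map_mul' h h' := by
    apply LinearMap.ext
    intro v
    obtain ⟨a, rfl⟩ := Submodule.mkQ_surjective _ v
    change Submodule.mkQ _ (act (h * h') a) = Submodule.mkQ _ (act h (act h' a))
    rw [map_mul]
    rfl

theorem actQ_mk (k : ℕ) (h : Hol π) (a : MonoidAlgebra ℚ π) :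
    actQ k h (Submodule.Quotient.mk a) = Submodule.Quotient.mk (act h a) := rfl

/-! ### finite dimension -/

theorem exists_gens [Group.FG π] : ∃ D : Submodule ℚ (MonoidAlgebra ℚ π), D.FG ∧ D ≤ augIdeal π ∧
    augIdeal π ≤ D ⊔ augIdeal π ^ 2 := by
  classical
  obtain ⟨_, S, _, hS⟩ := Group.fg_iff'.mp (inferInstance : Group.FG π)
  set D : Submodule ℚ (MonoidAlgebra ℚ π) :=
    Submodule.span ℚ ((fun g : π => single g (1 : ℚ) - 1) '' (S : Set π)) with hD
  have hDI : D ≤ augIdeal π := by
    rw [hD, Submodule.span_le]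
    rintro _ ⟨g, _, rfl⟩
    exact sub_one_mem g
  refine ⟨D, Submodule.fg_span ((S.finite_toSet).image _), hDI, ?_⟩
  have h2 : ∀ g h : π, (single g (1 : ℚ) - 1 : MonoidAlgebra ℚ π) * (single h 1 - 1)
      ∈ augIdeal π ^ 2 := by
    intro g h
    rw [pow_two]
    exact Submodule.mul_mem_mul (sub_one_mem g) (sub_one_mem h)
  have hg : ∀ g : π, (single g (1 : ℚ) - 1 : MonoidAlgebra ℚ π) ∈ D ⊔ augIdeal π ^ 2 := by
    intro g
    have hgS : g ∈ Subgroup.closure (S : Set π) := by rw [hS]; exact Subgroup.mem_top g
    induction hgS using Subgroup.closure_induction with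
    | mem s hs => exact (le_sup_left : D ≤ _) (Submodule.subset_span ⟨s, hs, rfl⟩)
    | one =>
      rw [← MonoidAlgebra.one_def, sub_self]
      exact Submodule.zero_mem _
    | mul g h _ _ hg hh =>
      have e : (single (g * h) (1 : ℚ) - 1 : MonoidAlgebra ℚ π)
          = (single g 1 - 1) + (single h 1 - 1) + (single g 1 - 1) * (single h 1 - 1) := by
        have : (single (g * h) (1 : ℚ) : MonoidAlgebra ℚ π) = single g 1 * single h 1 := by
          rw [MonoidAlgebra.single_mul_single, one_mul]
        rw [this]; noncomm_ring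
      rw [e]
      exact Submodule.add_mem _ (Submodule.add_mem _ hg hh)
        ((le_sup_right : augIdeal π ^ 2 ≤ _) (h2 g h))
    | inv g _ hg =>
      have e : (single g⁻¹ (1 : ℚ) - 1 : MonoidAlgebra ℚ π)
          = -(single g 1 - 1) - (single g⁻¹ 1 - 1) * (single g 1 - 1) := by
        have : (single g⁻¹ (1 : ℚ) : MonoidAlgebra ℚ π) * single g 1 = 1 := by
          rw [MonoidAlgebra.single_mul_single, one_mul, inv_mul_cancel, MonoidAlgebra.one_def]
        have h3 : (single g⁻¹ (1 : ℚ) - 1 : MonoidAlgebra ℚ π) * (single g 1 - 1)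
            = single g⁻¹ 1 * single g 1 - single g⁻¹ 1 - single g 1 + 1 := by noncomm_ring
        rw [h3, this]; abel
      rw [e]
      exact Submodule.sub_mem _ (Submodule.neg_mem _ hg)
        ((le_sup_right : augIdeal π ^ 2 ≤ _) (h2 _ _))
  have ha : ∀ a : MonoidAlgebra ℚ π, a - aug π a • (1 : MonoidAlgebra ℚ π) ∈ D ⊔ augIdeal π ^ 2 := by
    intro a
    induction a using MonoidAlgebra.induction_linear with
    | zero => simp
    | add a b ha hb =>
      have e : a + b - aug π (a + b) • (1 : MonoidAlgebra ℚ π)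
          = (a - aug π a • 1) + (b - aug π b • 1) := by rw [map_add, add_smul]; abel
      rw [e]
      exact Submodule.add_mem _ ha hb
    | single g q =>
      have e : (single g q : MonoidAlgebra ℚ π) - aug π (single g q) • (1 : MonoidAlgebra ℚ π)
          = q • (single g (1 : ℚ) - 1) := by
        rw [aug_single, smul_sub, MonoidAlgebra.smul_single, smul_eq_mul, mul_one]
      rw [e]
      exact Submodule.smul_mem _ _ (hg g)
  intro a haI
  have h3 := ha a
  rw [mem_aug.mp haI, zero_smul, sub_zero] at h3
  exact h3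

theorem finite_quot [Group.FG π] (k : ℕ) :
    Module.Finite ℚ (MonoidAlgebra ℚ π ⧸ augIdeal π ^ (k + 1)) := by
  classical
  obtain ⟨D, hD, hDI, hI⟩ := exists_gens (π := π)
  have hpow : ∀ k : ℕ, augIdeal π ^ (k + 1) ≤ D ^ (k + 1) ⊔ augIdeal π ^ (k + 1 + 1) := by
    intro k
    induction k with
    | zero => simpa using hI
    | succ k ih =>
      have h1 : augIdeal π ^ (k + 1 + 1) ≤
          (D ^ (k + 1) ⊔ augIdeal π ^ (k + 1 + 1)) * (D ⊔ augIdeal π ^ 2) := by
        rw [pow_succ]
        exact mul_le_mul' ih hI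
      refine h1.trans ?_
      rw [Submodule.sup_mul, Submodule.mul_sup, Submodule.mul_sup]
      have hD' : D ^ (k + 1) ≤ augIdeal π ^ (k + 1) := pow_le_pow_left' hDI _
      refine sup_le (sup_le ?_ ?_) (sup_le ?_ ?_)
      · rw [← pow_succ]; exact le_sup_left
      · refine le_trans ?_ le_sup_right
        have : augIdeal π ^ (k + 1 + 1 + 1) = augIdeal π ^ (k + 1) * augIdeal π ^ 2 := by
          rw [← pow_add]
        rw [this]
        exact mul_le_mul' hD' le_rfl
      · refine le_trans ?_ le_sup_right
        rw [pow_succ (augIdeal π) (k + 1 + 1)]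
        exact mul_le_mul' le_rfl hDI
      · refine le_trans ?_ le_sup_right
        have : augIdeal π ^ (k + 1 + 1) * augIdeal π ^ 2 = augIdeal π ^ (k + 1 + 1 + 1 + 1) := by
          rw [← pow_add]
        rw [this]
        exact pow_succ_le (k + 1 + 1)
  have key : ∀ k : ℕ, ∃ F : Submodule ℚ (MonoidAlgebra ℚ π), F.FG ∧ F ⊔ augIdeal π ^ (k + 1) = ⊤ := by
    intro k
    induction k with
    | zero =>
      refine ⟨Submodule.span ℚ {1}, Submodule.fg_span_singleton _, ?_⟩
      rw [eq_top_iff]
      intro a _
      rw [zero_add, pow_one, Submodule.mem_sup]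
      refine ⟨aug π a • 1, Submodule.smul_mem _ _ (Submodule.mem_span_singleton_self _),
        a - aug π a • 1, ?_, by abel⟩
      rw [mem_aug, map_sub, map_smul, map_one, smul_eq_mul, mul_one, sub_self]
    | succ k ih =>
      obtain ⟨F, hF, hF'⟩ := ih
      refine ⟨F ⊔ D ^ (k + 1), hF.sup (hD.pow _), ?_⟩
      rw [eq_top_iff, ← hF', sup_assoc]
      exact sup_le_sup_left (hpow k) F
  obtain ⟨F, hF, hF'⟩ := key k
  refine ⟨?_⟩
  have h1 : (⊤ : Submodule ℚ (MonoidAlgebra ℚ π ⧸ augIdeal π ^ (k + 1)))
      = F.map (Submodule.mkQ _) := by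
    have h2 : (⊤ : Submodule ℚ (MonoidAlgebra ℚ π)).map (augIdeal π ^ (k + 1)).mkQ = ⊤ := by
      rw [Submodule.map_top, Submodule.range_mkQ]
    rw [← h2, ← hF', Submodule.map_sup]
    rw [Submodule.mkQ_map_self, sup_bot_eq]
  rw [h1]
  exact hF.map _

/-! ### the theorem -/

/-- an element that acts trivially modulo `I ^ 2` is unipotent -/
theorem unip_act {y : Hol π} (hy : ∀ a, act y a - a ∈ augIdeal π ^ 2) :
    ∀ (j : ℕ) (a : MonoidAlgebra ℚ π), a ∈ augIdeal π ^ (j + 1) →
      act y a - a ∈ augIdeal π ^ (j + 1 + 1) := by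
  have h1 : (single y.left (1 : ℚ) - 1 : MonoidAlgebra ℚ π) ∈ augIdeal π ^ 2 := by
    have := hy 1
    rwa [act_apply, map_one, mul_one] at this
  have haut : ∀ (j : ℕ) (a : MonoidAlgebra ℚ π), a ∈ augIdeal π ^ (j + 1) →
      autA y.right a - a ∈ augIdeal π ^ (j + 1 + 1) := by
    intro j
    induction j with
    | zero =>
      intro a _
      have h2 := hy a
      rw [act_apply] at h2
      have e : autA y.right a - a = (single y.left (1 : ℚ) * autA y.right a - a)
          - (single y.left (1 : ℚ) - 1) * autA y.right a := by noncomm_ring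
      rw [e]
      exact Submodule.sub_mem _ h2 (mul_mem_pow_right _ 1 h1)
    | succ j ih =>
      intro a ha
      rw [pow_succ] at ha
      induction ha using Submodule.mul_induction_on' with
      | mem_mul_mem u hu v hv =>
        have e : autA y.right (u * v) - u * v
            = (autA y.right u - u) * autA y.right v + u * (autA y.right v - v) := by
          rw [map_mul]; noncomm_ring
        rw [e]
        refine Submodule.add_mem _ ?_ ?_
        · rw [pow_succ (augIdeal π) (j + 1 + 1)]
          refine Submodule.mul_mem_mul (ih u hu) ?_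
          have := autA_pow y.right 1 (a := v) (by rwa [pow_one])
          rwa [pow_one] at this
        · have h3 : augIdeal π ^ (j + 1 + 1 + 1) = augIdeal π ^ (j + 1) * augIdeal π ^ 2 := by
            rw [← pow_add]
          rw [h3]
          refine Submodule.mul_mem_mul hu ?_
          have h2 := hy v
          rw [act_apply] at h2
          have e : autA y.right v - v = (single y.left (1 : ℚ) * autA y.right v - v)
              - (single y.left (1 : ℚ) - 1) * autA y.right v := by noncomm_ring
          rw [e]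
          exact Submodule.sub_mem _ h2 (mul_mem_pow_right _ 1 h1)
      | add u _ v _ hu hv =>
        have e : autA y.right (u + v) - (u + v)
            = (autA y.right u - u) + (autA y.right v - v) := by rw [map_add]; abel
        rw [e]
        exact Submodule.add_mem _ hu hv
  intro j a ha
  have e : act y a - a = (single y.left (1 : ℚ) - 1) * autA y.right a + (autA y.right a - a) := by
    rw [act_apply]; noncomm_ring
  rw [e]
  refine Submodule.add_mem _ ?_ (haut j a ha)
  have h3 : augIdeal π ^ (j + 1 + 1) = augIdeal π * augIdeal π ^ (j + 1) := pow_succ' _ _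
  rw [h3]
  refine Submodule.mul_mem_mul (sub_one_mem _) (autA_pow _ _ ha)

theorem cupNil_of_module {Γ : Type*} [Group Γ] {N : Type*} [Group N] {x : Γ} {s : N → Γ}
    {c : N → N → ℤ} (D : ExtData x s c) {K : Type*} [Field K] {V : Type*} [AddCommGroup V]
    [Module K V] [Module.Finite K V] (ρ : Γ →* (Module.End K V)ˣ)
    (hinf : ∀ n : ℕ, 0 < n → ρ x ^ n ≠ 1) : ∃ r, CupNil c r ℚ := by
  classical
  let e : Module.End K V ≃ₐ[K] Matrix (Fin (Module.finrank K V)) (Fin (Module.finrank K V)) K :=
    LinearMap.toMatrixAlgEquiv (Module.finBasis K V)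
  let f : (Module.End K V)ˣ ≃* Matrix.GeneralLinearGroup (Fin (Module.finrank K V)) K :=
    Units.mapEquiv e.toMulEquiv
  refine cupNil_of_rep D (f.toMonoidHom.comp ρ) ?_
  intro h
  obtain ⟨m, hm, h2⟩ := isOfFinOrder_iff_pow_eq_one.mp h
  apply hinf m hm
  apply f.injective
  rw [map_pow, map_one]
  exact h2

/-- **Homomorphisms to the holomorph.** -/
theorem termsVanish_hol [Group.FG π] (hπ : AugSeparated π) {G : Type*} [Group G] (x : G)
    (f : Cen x →* Hol π) (hf : ¬ IsOfFinOrder (f (gen x))) : TermsVanish x := by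
  classical
  refine termsVanish_of_cupNil x fun hx e => ?_
  have D := e.extData hx
  let R : ∀ k : ℕ, Cen x →* (Module.End ℚ (MonoidAlgebra ℚ π ⧸ augIdeal π ^ (k + 1)))ˣ :=
    fun k => ((actQ k).comp f).toHomUnits
  have hR : ∀ k m, (((R k (gen x) : (Module.End ℚ (MonoidAlgebra ℚ π ⧸ augIdeal π ^ (k + 1)))ˣ) :
      Module.End ℚ (MonoidAlgebra ℚ π ⧸ augIdeal π ^ (k + 1))) ^ m) = actQ k (f (gen x) ^ m) := by
    intro k m
    rw [map_pow]
    rfl
  by_cases hcase : ∀ m : ℕ, 0 < m → R 1 (gen x) ^ m ≠ 1
  · have := finite_quot (π := π) 1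
    exact cupNil_of_module D (R 1) hcase
  · push Not at hcase
    obtain ⟨m, hm, h1⟩ := hcase
    set y : Hol π := f (gen x) ^ m with hy
    have hy1 : y ≠ 1 := by
      intro h2
      apply hf
      rw [isOfFinOrder_iff_pow_eq_one]
      exact ⟨m, hm, h2⟩
    have hy2 : ∀ a, act y a - a ∈ augIdeal π ^ 2 := by
      intro a
      have h2 := congrArg (fun u : (Module.End ℚ (MonoidAlgebra ℚ π ⧸ augIdeal π ^ (1 + 1)))ˣ =>
        (u : Module.End ℚ (MonoidAlgebra ℚ π ⧸ augIdeal π ^ (1 + 1))) (Submodule.Quotient.mk a)) h1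
      simp only [Units.val_pow_eq_pow_val, hR, Units.val_one] at h2
      have h3 : (Submodule.Quotient.mk (act y a) : MonoidAlgebra ℚ π ⧸ augIdeal π ^ (1 + 1))
          = Submodule.Quotient.mk a := h2
      exact (Submodule.Quotient.eq _).mp h3
    obtain ⟨a, ha⟩ : ∃ a, act y a - a ≠ 0 := by
      by_contra h2
      push Not at h2
      exact hy1 (act_faithful y fun a => sub_eq_zero.mp (h2 a))
    obtain ⟨k, hk⟩ : ∃ k : ℕ, act y a - a ∉ augIdeal π ^ (k + 1) := by
      by_contra h2
      push Not at h2
      exact ha (hπ _ h2)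
    have := finite_quot (π := π) k
    have hstep := unip_act hy2
    -- powers of `act y - 1`
    have hpow : ∀ (j : ℕ) (b : MonoidAlgebra ℚ π),
        ((act y - 1 : Module.End ℚ (MonoidAlgebra ℚ π)) ^ (j + 1)) b ∈ augIdeal π ^ (j + 1) := by
      intro j
      induction j with
      | zero =>
        intro b
        have h2 := hy2 b
        have h3 := pow_succ_le (π := π) 0 h2
        simpa using h3
      | succ j ih =>
        intro b
        rw [pow_succ' (act y - 1 : Module.End ℚ (MonoidAlgebra ℚ π)) (j + 1)]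
        exact hstep j _ (ih b)
    have hq : ∀ (j : ℕ) (b : MonoidAlgebra ℚ π),
        ((actQ k y - 1 : Module.End ℚ (MonoidAlgebra ℚ π ⧸ augIdeal π ^ (k + 1))) ^ j)
          (Submodule.Quotient.mk b)
        = Submodule.Quotient.mk (((act y - 1 : Module.End ℚ (MonoidAlgebra ℚ π)) ^ j) b) := by
      intro j
      induction j with
      | zero => intro b; rfl
      | succ j ih =>
        intro b
        rw [pow_succ (actQ k y - 1 : Module.End ℚ (MonoidAlgebra ℚ π ⧸ augIdeal π ^ (k + 1))) j,
          pow_succ (act y - 1 : Module.End ℚ (MonoidAlgebra ℚ π)) j]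
        exact ih ((act y - 1 : Module.End ℚ (MonoidAlgebra ℚ π)) b)
    obtain ⟨r, hr⟩ := cupNil_of_unip (K := ℚ) D (R k) hm (by
        rw [hR]
        refine ⟨k + 1, LinearMap.ext fun v => ?_⟩
        obtain ⟨b, rfl⟩ := Submodule.Quotient.mk_surjective _ v
        rw [← hy, hq, LinearMap.zero_apply, Submodule.Quotient.mk_eq_zero]
        exact hpow k b) (by
        rw [hR]
        intro h2
        apply hk
        have h3 := congrArg (fun T : Module.End ℚ (MonoidAlgebra ℚ π ⧸ augIdeal π ^ (k + 1)) =>
          T (Submodule.Quotient.mk a)) h2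
        have h4 : (Submodule.Quotient.mk (act y a) : MonoidAlgebra ℚ π ⧸ augIdeal π ^ (k + 1))
          - Submodule.Quotient.mk a = 0 := h3
        rw [sub_eq_zero] at h4
        exact (Submodule.Quotient.eq _).mp h4)
    exact ⟨r, hr⟩

end BurgheleaT
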