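import Pool.Agent.Lib_helper43.BT.Wanted3
import Pool.Agent.Lib_helper43.TB.F.FRI
import Pool.Agent.Lib_helper43.TB.B.LCD
import Pool.Agent.Lib_helper83.VCdt.Lob
import Pool.Agent.Lib_helper83.VCdt.BW

/-!
# Block RGP: the pair identity
-/

set_option autoImplicit false

open Complex Pool.Agent.VCdt.Geo Pool.Agent.VCdt.HV

namespace Pool.Agent.BT

open Pool.Agent.TB

open Pool.Agent.VCdt

/-! ### the value at `I` (compare block FR0) -/

theorem rgp_Lob_half : V83.Lob (Real.pi / 2) = 0 := by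
  have h1 : V83.Lob Real.pi = 2 * V83.Lob (Real.pi / 2) := by
    unfold V83.Lob
    have h2 : ∫ t in (0 : ℝ)..Real.pi, Real.log |2 * Real.sin t| =
        (∫ t in (0 : ℝ)..(Real.pi / 2), Real.log |2 * Real.sin t|) +
        ∫ t in (Real.pi / 2)..Real.pi, Real.log |2 * Real.sin t| :=
      (intervalIntegral.integral_add_adjacent_intervals (V83.lob_integrable _ _)
        (V83.lob_integrable _ _)).symm
    have h3 : ∫ t in (Real.pi / 2)..Real.pi, Real.log |2 * Real.sin t| =
        ∫ t in (0 : ℝ)..(Real.pi / 2), Real.log |2 * Real.sin t| := by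
      have h4 := intervalIntegral.integral_comp_sub_left
        (fun t : ℝ => Real.log |2 * Real.sin t|) (a := 0) (b := Real.pi / 2) Real.pi
      simp only [Real.sin_pi_sub] at h4
      rw [h4]
      congr 1 <;> ring
    rw [h2, h3]
    ring
  have h2 := V83.Lob_pi
  linarith

theorem rgp_Lc : Lc (Real.pi / 4) = ((V83.Lob (Real.pi / 4) : ℝ) : ℂ) := by
  have hpi := Real.pi_pos
  unfold Lc
  have h1 : ∫ s in (0 : ℝ)..1, Complex.log (2 * Complex.cos (s * (Real.pi / 4))) =
      ∫ s in (0 : ℝ)..1, ((Real.log (2 * Real.cos (s * (Real.pi / 4))) : ℝ) : ℂ) := by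
    apply intervalIntegral.integral_congr
    intro s hs
    rw [Set.uIcc_of_le zero_le_one] at hs
    have h2 : 0 < Real.cos (s * (Real.pi / 4)) := by
      apply Real.cos_pos_of_mem_Ioo
      constructor
      · have := mul_nonneg hs.1 (by positivity : (0:ℝ) ≤ Real.pi / 4)
        linarith
      · have := mul_le_mul_of_nonneg_right hs.2 (by positivity : (0:ℝ) ≤ Real.pi / 4)
        linarith
    have h3 : (2 * Complex.cos (s * (Real.pi / 4))) = ((2 * Real.cos (s * (Real.pi / 4)) : ℝ) : ℂ) := by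
      push_cast
      rfl
    simp only
    rw [h3, Complex.ofReal_log (by positivity)]
  rw [h1, intervalIntegral.integral_ofReal]
  have h4 : (Real.pi / 4 : ℝ) * ∫ s in (0 : ℝ)..1, Real.log (2 * Real.cos (s * (Real.pi / 4))) =
      V83.Lob (Real.pi / 4) := by
    have h5 := intervalIntegral.mul_integral_comp_mul_right
      (f := fun t : ℝ => Real.log (2 * Real.cos t)) (a := 0) (b := 1) (Real.pi / 4)
    rw [h5]
    have h6 := intervalIntegral.integral_comp_sub_left
      (fun t : ℝ => Real.log (2 * Real.sin t)) (a := 0) (b := Real.pi / 4) (Real.pi / 2)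
    simp only [Real.sin_pi_div_two_sub] at h6
    rw [zero_mul, one_mul, h6]
    have h7 := rgp_Lob_half
    unfold V83.Lob at h7 ⊢
    have h2 : ∫ t in (0 : ℝ)..(Real.pi / 2), Real.log |2 * Real.sin t| =
        (∫ t in (0 : ℝ)..(Real.pi / 4), Real.log |2 * Real.sin t|) +
        ∫ t in (Real.pi / 4)..(Real.pi / 2), Real.log |2 * Real.sin t| :=
      (intervalIntegral.integral_add_adjacent_intervals (V83.lob_integrable _ _)
        (V83.lob_integrable _ _)).symm
    rw [h2] at h7
    have e1 : Real.pi / 2 - Real.pi / 4 = Real.pi / 4 := by ring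
    rw [e1, sub_zero]
    simp only [Real.log_abs] at h7 ⊢
    linarith
  rw [← h4]
  push_cast
  ring

theorem rgp_arg : arg (1 - I) = -(Real.pi / 4) := by
  have h4 : (1 - I) = ((Real.sqrt 2 : ℝ) : ℂ) * (Complex.cos ((-(Real.pi / 4) : ℝ) : ℂ) +
      Complex.sin ((-(Real.pi / 4) : ℝ) : ℂ) * I) := by
    rw [← Complex.ofReal_cos, ← Complex.ofReal_sin, Real.cos_neg, Real.sin_neg,
      Real.cos_pi_div_four, Real.sin_pi_div_four]
    have h5 : (Real.sqrt 2 : ℂ) * Real.sqrt 2 = 2 := by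
      rw [← Complex.ofReal_mul, Real.mul_self_sqrt (by norm_num)]
      norm_num
    push_cast
    linear_combination (-(1/2) + I / 2) * h5
  rw [h4]
  apply Complex.arg_mul_cos_add_sin_mul_I (by positivity)
  constructor
  · linarith [Real.pi_pos]
  · linarith [Real.pi_pos]

theorem rgp_BW : V83.BW I = 2 * V83.Lob (Real.pi / 4) := by
  have hI : 0 < I.im := by simp
  obtain ⟨-, h1, -, h2, -⟩ := V83.angles hI
  rw [V83.BW_lob hI, h1, h2, arg_I, rgp_Lob_half, rgp_arg]
  have e1 : -(-(Real.pi / 4)) = Real.pi / 4 := by ring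
  have e2 : Real.pi + -(Real.pi / 4) - Real.pi / 2 = Real.pi / 4 := by ring
  rw [e1, e2]
  ring

theorem rgp_norm : ‖(1 - I : ℂ)‖ = Real.sqrt 2 := by
  rw [Complex.norm_def]
  congr 1
  simp [Complex.normSq_apply]
  norm_num

theorem rgp_log : log (1 - I) = Real.log 2 / 2 - Real.pi * I / 4 := by
  unfold Complex.log
  rw [rgp_norm, rgp_arg, Real.log_sqrt (by norm_num)]
  push_cast
  ring

theorem rgp_log' : log (1 + I) = Real.log 2 / 2 + Real.pi * I / 4 := by
  have h1 : (1 + I : ℂ) = (starRingEnd ℂ) (1 - I) := by simp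
  rw [h1, Complex.log_conj, rgp_log]
  · simp only [map_sub, map_div₀, map_mul, conj_ofReal, conj_I]
    have h2 : (starRingEnd ℂ) 2 = 2 := Complex.conj_ofNat 2
    have h4 : (starRingEnd ℂ) 4 = 4 := Complex.conj_ofNat 4
    rw [h2, h4]
    ring
  · rw [rgp_arg]
    have := Real.pi_pos
    intro h
    linarith

theorem rgp_Phi_neg : V83.Phi (-I) = (starRingEnd ℂ) (V83.Phi I) := by
  unfold V83.Phi
  rw [intervalIntegral.integral_of_le zero_le_one, intervalIntegral.integral_of_le zero_le_one,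
    ← integral_conj]
  apply MeasureTheory.setIntegral_congr_fun measurableSet_Ioc
  intro t ht
  show Complex.log (1 - t * -I) / t = (starRingEnd ℂ) (Complex.log (1 - t * I) / t)
  rw [map_div₀, conj_ofReal]
  congr 1
  rw [← Complex.log_conj]
  · congr 1
    simp
  · have h : 0 < (1 - (t : ℂ) * I).re := by simp
    intro hp
    rw [Complex.arg_eq_pi_iff] at hp
    linarith [hp.1]

theorem rgp_Phi : V83.Phi I = (Real.pi : ℂ) ^ 2 / 48 -
    2 * ((V83.Lob (Real.pi / 4) : ℝ) : ℂ) * I := by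
  have hslit : (1 - I : ℂ) ∈ slitPlane := by
    rw [mem_slitPlane_iff]
    left
    simp
  have him : (V83.Phi I).im = -(2 * V83.Lob (Real.pi / 4)) := by
    have h := V83.BW_eq hslit
    rw [rgp_BW] at h
    simp at h
    linarith
  have hinv := Rg_inv (z := I) (by simp) 0 0
  have hre : (V83.Phi I).re = Real.pi ^ 2 / 48 := by
    have e1 : (1 / I : ℂ) = -I := by simp
    rw [e1] at hinv
    have e2 : Rg I 0 0 = log I * log (1 - I) / 2 - V83.Phi I - Real.pi ^ 2 / 6 := by
      unfold Rg V83.Phi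
      simp
    have e3 : Rg (-I) (-0) (1 + 0 + 0) = log (-I) * log (1 - -I) / 2 - V83.Phi (-I) +
        Real.pi * I / 2 * log (-I) - Real.pi ^ 2 / 6 := by
      unfold Rg V83.Phi
      simp
    rw [e2, e3, rgp_Phi_neg, Complex.log_neg_I, Complex.log_I, sub_neg_eq_add, rgp_log,
      rgp_log'] at hinv
    have e4 : (V83.Phi I) + (starRingEnd ℂ) (V83.Phi I) = ((Real.pi ^ 2 / 24 : ℝ) : ℂ) := by
      push_cast
      linear_combination -hinv - (Real.pi : ℂ) ^ 2 * (3 / 8) * I_sq
    have e5 := congrArg Complex.re e4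
    rw [Complex.add_re, Complex.conj_re, Complex.ofReal_re] at e5
    linarith
  apply Complex.ext
  · rw [hre]
    have : ((Real.pi : ℂ) ^ 2 / 48 - 2 * ((V83.Lob (Real.pi / 4) : ℝ) : ℂ) * I) =
      ((Real.pi ^ 2 / 48 : ℝ) : ℂ) + ((-(2 * V83.Lob (Real.pi / 4)) : ℝ) : ℂ) * I := by
      push_cast
      ring
    rw [this]
    simp only [add_re, ofReal_re, mul_re, I_re, ofReal_im, I_im]
    ring
  · rw [him]
    have : ((Real.pi : ℂ) ^ 2 / 48 - 2 * ((V83.Lob (Real.pi / 4) : ℝ) : ℂ) * I) =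
      ((Real.pi ^ 2 / 48 : ℝ) : ℂ) + ((-(2 * V83.Lob (Real.pi / 4)) : ℝ) : ℂ) * I := by
      push_cast
      ring
    rw [this]
    simp only [add_im, ofReal_re, mul_im, I_re, ofReal_im, I_im]
    ring

theorem rgp_Rg (z : ℂ) (p q : ℤ) : Rg z p q = log z * log (1 - z) / 2 - V83.Phi z +
    Real.pi * I / 2 * (p * log (1 - z) + q * log z) - Real.pi ^ 2 / 6 := rfl

/-- the derivative of the regulator (compare block FRD) -/
theorem rgp_one {z : ℂ → ℂ} {z' x : ℂ} (h : HasDerivAt z z' x) (him : 0 < (z x).im) (p q : ℤ) :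
    HasDerivAt (fun y => Rg (z y) p q)
      (1 / 2 * ((-log (1 - z x) + q * (Real.pi * I)) * (z' / z x) -
        (log (z x) + p * (Real.pi * I)) * (z' / (1 - z x)))) x := by
  have s0 : z x ∈ slitPlane := by
    rw [mem_slitPlane_iff]
    exact Or.inr him.ne'
  have s1 : 1 - z x ∈ slitPlane := by
    rw [mem_slitPlane_iff]
    right
    simpa using him.ne'
  have z0 : z x ≠ 0 := slitPlane_ne_zero s0
  have z1 : 1 - z x ≠ 0 := slitPlane_ne_zero s1
  have h0 : HasDerivAt (fun y => log (z y)) (z' / z x) x := h.clog s0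
  have h1 : HasDerivAt (fun y => log (1 - z y)) (-z' / (1 - z x)) x := (h.const_sub 1).clog s1
  have h3 : HasDerivAt (fun y => V83.Phi (z y)) (log (1 - z x) / z x * z') x :=
    (V83.hasDerivAt_Phi s1 z0).comp x h
  have h4 := ((((h0.mul h1).div_const 2).sub h3).add
    (((h1.const_mul (p : ℂ)).add (h0.const_mul (q : ℂ))).const_mul (Real.pi * I / 2))).sub_const
      ((Real.pi : ℂ) ^ 2 / 6)
  have e : (fun y => Rg (z y) p q) = fun y => log (z y) * log (1 - z y) / 2 - V83.Phi (z y) +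
      Real.pi * I / 2 * (p * log (1 - z y) + q * log (z y)) - Real.pi ^ 2 / 6 :=
    funext fun y => rgp_Rg _ _ _
  rw [e]
  refine h4.congr_deriv ?_
  field_simp
  ring

/-! ### the shapes -/

/-- `1 - z` -/
theorem rgp_sub {g : Fin 3 → ℂ} (hs : g 0 + g 1 + g 2 = Real.pi) (h1 : sin (g 1) ≠ 0)
    (h2 : sin (g 2) ≠ 0) : 1 - zA g false = exp (-I * g 1) * (sin (g 0) / sin (g 2)) ∧
      1 - zA g true = exp (-I * g 2) * (sin (g 0) / sin (g 1)) := by
  have e0 : exp (I * g 0) = cos (g 0) + sin (g 0) * I := by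
    rw [mul_comm, Complex.exp_mul_I]
  have e1 : exp (-I * g 1) = cos (g 1) - sin (g 1) * I := by
    rw [show -I * g 1 = (-(g 1)) * I by ring, Complex.exp_mul_I, Complex.cos_neg, Complex.sin_neg]
    ring
  have e2 : exp (-I * g 2) = cos (g 2) - sin (g 2) * I := by
    rw [show -I * g 2 = (-(g 2)) * I by ring, Complex.exp_mul_I, Complex.cos_neg, Complex.sin_neg]
    ring
  have s2 : sin (g 2) = sin (g 0) * cos (g 1) + cos (g 0) * sin (g 1) := by
    rw [← Complex.sin_add, ← Complex.sin_pi_sub]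
    congr 1
    linear_combination -hs
  have s1 : sin (g 1) = sin (g 0) * cos (g 2) + cos (g 0) * sin (g 2) := by
    rw [← Complex.sin_add, ← Complex.sin_pi_sub]
    congr 1
    linear_combination -hs
  constructor
  · simp only [zA, Bool.false_eq_true, if_false]
    rw [e0, e1]
    field_simp
    linear_combination s2
  · simp only [zA, if_true]
    rw [e0, e2]
    field_simp
    linear_combination s1

/-- the derivative of a product -/
theorem rgp_prod {p q r : ℂ → ℂ} {p' q' r' x : ℂ} (c : ℂ) (hp : HasDerivAt p p' x)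
    (hq : HasDerivAt q q' x) (hr : HasDerivAt r r' x) (h1 : sin (q x) ≠ 0) (h2 : sin (r x) ≠ 0) :
    HasDerivAt (fun t => exp (c * p t) * (sin (q t) / sin (r t)))
      (exp (c * p x) * (sin (q x) / sin (r x)) * (c * p' + ct (q x) * q' - ct (r x) * r')) x := by
  have h := ((hp.const_mul c).cexp).mul (hq.csin.div hr.csin h2)
  refine h.congr_deriv ?_
  simp only [Pi.div_apply]
  unfold ct
  field_simp
  ring

/-- nonvanishing and slit plane -/
theorem rgp_slit {g : Fin 3 → ℂ} (hg : Tm g) (i : Fin 3) :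
    sin (g i) ∈ slitPlane ∧ sin (g i) ≠ 0 ∧ |(g i - Real.pi / 2).re| < Real.pi / 2 := by
  have hne := hg.tame.ne i
  have hre : (g 0).re + (g 1).re + (g 2).re = Real.pi := by
    have := congrArg Complex.re hg.sum
    simpa using this
  have hp := hg.pos
  have hlt : ∀ k, (g k).re < Real.pi := by
    intro k
    have p0 := hp 0
    have p1 := hp 1
    have p2 := hp 2
    fin_cases k
    · show (g 0).re < _
      linarith
    · show (g 1).re < _
      linarith
    · show (g 2).re < _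
      linarith
  refine ⟨?_, hne, ?_⟩
  · rw [mem_slitPlane_iff_arg]
    refine ⟨?_, hne⟩
    obtain ⟨j, k, h1, h2, h3⟩ :=
      (by decide : ∀ i : Fin 3, ∃ j k : Fin 3, j ≠ i ∧ i ≠ k ∧ j ≠ k) i
    have h := hg.arg j i k h1 h2 h3
    have h4 := abs_nonneg (sin (g k)).arg
    have h5 := hlt j
    have h6 : |(sin (g i)).arg| < Real.pi := by linarith
    intro h7
    rw [h7, abs_of_pos Real.pi_pos] at h6
    exact lt_irrefl _ h6
  · have e : (g i - Real.pi / 2).re = (g i).re - Real.pi / 2 := by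
      simp
    rw [e, abs_lt]
    constructor
    · linarith [hp i]
    · linarith [hlt i]

theorem rgp_uniq {f g : ℂ → ℂ} {f' g' x : ℂ} (hf : HasDerivAt f f' x) (hg : HasDerivAt g g' x)
    (h : ∀ᶠ y in nhds x, f y = g y) : f' = g' :=
  hf.unique (hg.congr_of_eventuallyEq h)

/-- the derivatives of the shapes -/
theorem rgp_dz (G : ℂ → Fin 3 → ℂ) (b : Fin 3 → ℂ) (x : ℂ)
    (hd : ∀ i, HasDerivAt (fun t => G t i) (b i) x)
    (hsum : ∀ t, G t 0 + G t 1 + G t 2 = Real.pi) (hT : Tm (G x)) :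
    ∃ z' y' : ℂ, HasDerivAt (fun t => zA (G t) false) z' x ∧
      HasDerivAt (fun t => zA (G t) true) y' x ∧
      z' / zA (G x) false = I * b 0 + ct (G x 1) * b 1 - ct (G x 2) * b 2 ∧
      z' / (1 - zA (G x) false) = I * b 1 + ct (G x 2) * b 2 - ct (G x 0) * b 0 ∧
      y' / zA (G x) true = I * b 0 + ct (G x 2) * b 2 - ct (G x 1) * b 1 ∧
      y' / (1 - zA (G x) true) = I * b 2 + ct (G x 1) * b 1 - ct (G x 0) * b 0 := by
  have hne : ∀ i, sin (G x i) ≠ 0 := fun i => (rgp_slit hT i).2.1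
  have hev : ∀ i, ∀ᶠ t in nhds x, sin (G t i) ≠ 0 := by
    intro i
    have hc : ContinuousAt (fun t => sin (G t i)) x := (hd i).csin.continuousAt
    exact hc.eventually_ne (hne i)
  have d1 := rgp_prod I (hd 0) (hd 1) (hd 2) (hne 1) (hne 2)
  have d2 := rgp_prod I (hd 0) (hd 2) (hd 1) (hne 2) (hne 1)
  have d3 := rgp_prod (-I) (hd 1) (hd 0) (hd 2) (hne 0) (hne 2)
  have d4 := rgp_prod (-I) (hd 2) (hd 0) (hd 1) (hne 0) (hne 1)
  have e1 : ∀ t, zA (G t) false = exp (I * G t 0) * (sin (G t 1) / sin (G t 2)) := by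
    intro t
    simp only [zA, Bool.false_eq_true, if_false]
  have e2 : ∀ t, zA (G t) true = exp (I * G t 0) * (sin (G t 2) / sin (G t 1)) := by
    intro t
    simp only [zA, if_true]
  obtain ⟨f3, f4⟩ := rgp_sub (hsum x) (hne 1) (hne 2)
  have u1 := rgp_uniq (d1.const_sub 1) d3 (by
    filter_upwards [hev 1, hev 2] with t h1 h2
    rw [← e1 t]
    exact (rgp_sub (hsum t) h1 h2).1)
  have u2 := rgp_uniq (d2.const_sub 1) d4 (by
    filter_upwards [hev 1, hev 2] with t h1 h2
    rw [← e2 t]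
    exact (rgp_sub (hsum t) h1 h2).2)
  have g0 := hne 0
  have g1 := hne 1
  have g2 := hne 2
  have d1' := d1.congr_of_eventuallyEq (Filter.Eventually.of_forall e1)
  have d2' := d2.congr_of_eventuallyEq (Filter.Eventually.of_forall e2)
  refine ⟨_, _, d1', d2', ?_, ?_, ?_, ?_⟩
  · rw [e1 x, mul_div_cancel_left₀]
    exact mul_ne_zero (exp_ne_zero _) (div_ne_zero g1 g2)
  · rw [f3, neg_eq_iff_eq_neg.1 u1, neg_div, mul_div_cancel_left₀]
    · ring
    · exact mul_ne_zero (exp_ne_zero _) (div_ne_zero g0 g2)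
  · rw [e2 x, mul_div_cancel_left₀]
    exact mul_ne_zero (exp_ne_zero _) (div_ne_zero g2 g1)
  · rw [f4, neg_eq_iff_eq_neg.1 u2, neg_div, mul_div_cancel_left₀]
    · ring
    · exact mul_ne_zero (exp_ne_zero _) (div_ne_zero g0 g1)

/-- the logarithms of the shapes -/
theorem rgp_logs {g : Fin 3 → ℂ} (hg : Tm g) :
    log (zA g false) = lpn g false 0 ∧ -log (1 - zA g false) = lpn g false 1 ∧
    log (zA g true) = lpn g true 0 ∧ -log (1 - zA g true) = lpn g true 2 ∧
    0 < (zA g false).im ∧ 0 < (zA g true).im := by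
  have ht := hg.tame
  have hl : ∀ z : ℂ, 0 < z.im → log (1 / (1 - z)) = -log (1 - z) := by
    intro z hz
    rw [one_div, Complex.log_inv]
    intro h
    have := (Complex.arg_eq_pi_iff.1 h).2
    simp at this
    linarith
  have i0 := zA_im ht false
  have i1 := zA_im ht true
  have h1 := (log_par ht false 0 1 (by decide)).1
  have h2 := (log_par ht false 0 2 (by decide)).1
  have h3 := (log_par ht true 0 1 (by decide)).1
  have h4 := (log_par ht true 0 3 (by decide)).1
  refine ⟨h1, ?_, h3, ?_, i0, i1⟩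
  · rw [← hl _ i0]
    exact h2
  · rw [← hl _ i1]
    exact h4

/-- the difference of the two sides -/
noncomputable def rgp_F (n n' : Fin 3 → ℤ) (g : Fin 3 → ℂ) : ℂ :=
  Rg (zA g false) (n 0) (n 1) + Rg (zA g true) (n' 0) (n' 2) -
    (2 * I * (Lb (g 0) + Lb (g 1) + Lb (g 2)) +
      (wl g false n 0 * wl g true n' 1 - wl g false n 1 * wl g true n' 0) / 2 -
      Real.pi * (((n 1 : ℂ) - n' 1) * g 0 - ((n 0 : ℂ) - n' 0) * g 1) +
      (Real.pi : ℂ) ^ 2 / 2 * (n' 0 + n 0 * n' 1 - n' 0 * n 1))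

/-- The difference has the derivative `0`. -/
theorem rgp_deriv (G : ℂ → Fin 3 → ℂ) (b : Fin 3 → ℂ) (x : ℂ)
    (hd : ∀ i, HasDerivAt (fun t => G t i) (b i) x)
    (hsum : ∀ t, G t 0 + G t 1 + G t 2 = Real.pi) (hT : Tm (G x)) (n n' : Fin 3 → ℤ)
    (hn' : n' 0 + n' 1 + n' 2 = -1) :
    HasDerivAt (fun t => rgp_F n n' (G t)) 0 x := by
  obtain ⟨z', y', dz, dy, q1, q2, q3, q4⟩ := rgp_dz G b x hd hsum hT
  obtain ⟨l0, l1, m0, m2, i0, i1⟩ := rgp_logs hT
  have dR0 := rgp_one dz i0 (n 0) (n 1)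
  have dR1 := rgp_one dy i1 (n' 0) (n' 2)
  rw [q1, q2, l0, l1] at dR0
  rw [q3, q4, m0, m2] at dR1
  have hb : b 0 + b 1 + b 2 = 0 := by
    have h1 := ((hd 0).add (hd 1)).add (hd 2)
    have h2 : HasDerivAt (fun _ : ℂ => (Real.pi : ℂ)) 0 x := hasDerivAt_const _ _
    exact rgp_uniq h1 h2 (Filter.Eventually.of_forall hsum)
  have dl : ∀ i, HasDerivAt (fun t => log (sin (G t i))) (ct (G x i) * b i) x := by
    intro i
    refine ((hd i).csin.clog (rgp_slit hT i).1).congr_deriv ?_
    unfold ct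
    ring
  have dLb : ∀ i, HasDerivAt (fun t => Lb (G t i)) (-((Real.log 2 + log (sin (G x i))) * b i)) x := by
    intro i
    have h1 : HasDerivAt (fun t => G t i - Real.pi / 2) (b i) x := (hd i).sub_const _
    have h2 := (Lc_hasDeriv (rgp_slit hT i).2.2).comp x h1
    have h3 : log (2 * cos (G x i - Real.pi / 2)) = Real.log 2 + log (sin (G x i)) := by
      rw [Complex.cos_sub_pi_div_two, show (2 : ℂ) = ((2 : ℝ) : ℂ) by norm_num,
        Complex.log_ofReal_mul (by norm_num) (rgp_slit hT i).2.1]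
    rw [h3] at h2
    exact h2.neg
  have dw : ∀ (s : Bool) (m : Fin 3 → ℤ), HasDerivAt (fun t => wl (G t) s m 0)
      (I * b 0 + sb s * (ct (G x 1) * b 1 - ct (G x 2) * b 2)) x ∧
      HasDerivAt (fun t => wl (G t) s m 1)
      (I * b 1 + sb s * (ct (G x 2) * b 2 - ct (G x 0) * b 0)) x := by
    intro s m
    constructor
    · exact ((((hd 0).const_mul I).add (((dl 1).sub (dl 2)).const_mul (sb s))).add_const _)
    · exact ((((hd 1).const_mul I).add (((dl 2).sub (dl 0)).const_mul (sb s))).add_const _)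
  have h := (dR0.add dR1).sub (((((((dLb 0).add (dLb 1)).add (dLb 2)).const_mul (2 * I)).add
    ((((dw false n).1.mul (dw true n').2).sub ((dw false n).2.mul (dw true n').1)).div_const 2)).sub
    ((((hd 0).const_mul ((n 1 : ℂ) - n' 1)).sub ((hd 1).const_mul ((n 0 : ℂ) - n' 0))).const_mul
      (Real.pi : ℂ))).add_const ((Real.pi : ℂ) ^ 2 / 2 * (n' 0 + n 0 * n' 1 - n' 0 * n 1)))
  have h' : HasDerivAt (fun t => rgp_F n n' (G t)) _ x := h
  refine h'.congr_deriv ?_
  have hx := hsum x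
  have hb2 : b 2 = -b 0 - b 1 := by linear_combination hb
  have hg2 : G x 2 = Real.pi - G x 0 - G x 1 := by linear_combination hx
  have hn2 : (n' 2 : ℂ) = -1 - n' 0 - n' 1 := by
    have : ((n' 0 + n' 1 + n' 2 : ℤ) : ℂ) = ((-1 : ℤ) : ℂ) := by rw [hn']
    push_cast at this
    linear_combination this
  have e0 : lpn (G x) false 0 = I * G x 0 + (log (sin (G x 1)) - log (sin (G x 2))) := by
    simp only [lpn, sb, Bool.false_eq_true, if_false, one_mul]
    rfl
  have e1 : lpn (G x) false 1 = I * G x 1 + (log (sin (G x 2)) - log (sin (G x 0))) := by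
    simp only [lpn, sb, Bool.false_eq_true, if_false, one_mul]
    rfl
  have e2 : lpn (G x) true 0 = I * G x 0 - (log (sin (G x 1)) - log (sin (G x 2))) := by
    have : lpn (G x) true 0 = I * G x 0 + -1 * (log (sin (G x 1)) - log (sin (G x 2))) := by
      simp only [lpn, sb, if_true]
      rfl
    rw [this]
    ring
  have e3 : lpn (G x) true 1 = I * G x 1 - (log (sin (G x 2)) - log (sin (G x 0))) := by
    have : lpn (G x) true 1 = I * G x 1 + -1 * (log (sin (G x 2)) - log (sin (G x 0))) := by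
      simp only [lpn, sb, if_true]
      rfl
    rw [this]
    ring
  have e4 : lpn (G x) true 2 = I * G x 2 - (log (sin (G x 0)) - log (sin (G x 1))) := by
    have : lpn (G x) true 2 = I * G x 2 + -1 * (log (sin (G x 0)) - log (sin (G x 1))) := by
      simp only [lpn, sb, if_true]
      rfl
    rw [this]
    ring
  have s0 : sb false = 1 := rfl
  have s1 : sb true = -1 := rfl
  simp only [wl, e0, e1, e2, e3, e4, s0, s1, hn2]
  generalize log (sin (G x 0)) = L0
  generalize log (sin (G x 1)) = L1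
  generalize log (sin (G x 2)) = L2
  generalize ct (G x 0) = c0
  generalize ct (G x 1) = c1
  generalize ct (G x 2) = c2
  generalize ((Real.log 2 : ℝ) : ℂ) = l2
  rw [hg2, hb2]
  generalize G x 0 = g0
  generalize G x 1 = g1
  generalize b 0 = b0
  generalize b 1 = b1
  generalize (n 0 : ℂ) = n0
  generalize (n 1 : ℂ) = n1
  generalize (n' 0 : ℂ) = p0
  generalize (n' 1 : ℂ) = p1
  generalize (Real.pi : ℂ) = p
  ring_nf
  simp only [I_sq]
  ring

/-- Constancy along a segment. -/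
theorem rgp_path (a b : Fin 3 → ℂ) (hs : a 0 + a 1 + a 2 = Real.pi) (hb : b 0 + b 1 + b 2 = 0)
    (hT : ∀ t : ℝ, 0 ≤ t → t ≤ 1 → Tm (fun i => a i + t * b i)) (n n' : Fin 3 → ℤ)
    (hn' : n' 0 + n' 1 + n' 2 = -1) :
    rgp_F n n' (fun i => a i + b i) = rgp_F n n' a := by
  have hd : ∀ t : ℝ, 0 ≤ t → t ≤ 1 →
      HasDerivAt (fun t : ℝ => rgp_F n n' (fun i => a i + (t : ℂ) * b i)) 0 t := by
    intro t h0 h1
    have h := rgp_deriv (fun (t : ℂ) (i : Fin 3) => a i + t * b i) b (t : ℂ) ?_ ?_ (hT t h0 h1) n n'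
      hn'
    · exact h.comp_ofReal
    · intro i
      have := ((hasDerivAt_id (t : ℂ)).mul_const (b i)).const_add (a i)
      simpa using this
    · intro s
      linear_combination hs + s * hb
  have h := Convex.norm_image_sub_le_of_norm_hasDerivWithin_le (𝕜 := ℝ)
    (f := fun t : ℝ => rgp_F n n' (fun i => a i + (t : ℂ) * b i)) (f' := fun _ => 0)
    (s := Set.Icc (0 : ℝ) 1) (x := 0) (y := 1) (C := 0)
    (fun t ht => (hd t ht.1 ht.2).hasDerivWithinAt) (fun t _ => by simp) (convex_Icc 0 1)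
    (by simp) (by simp)
  have h2 : rgp_F n n' (fun i => a i + ((1 : ℝ) : ℂ) * b i) -
      rgp_F n n' (fun i => a i + ((0 : ℝ) : ℂ) * b i) = 0 := by
    rw [← norm_le_zero_iff]
    simpa using h
  have h3 := sub_eq_zero.1 h2
  simpa using h3

/-- real angles -/
theorem rgp_real (ρ : Fin 3 → ℝ) (hs : ρ 0 + ρ 1 + ρ 2 = Real.pi) (hp : ∀ i, 0 < ρ i) :
    Tm (fun i => (ρ i : ℂ)) := by
  have hlt : ∀ k, ρ k < Real.pi := by
    intro k
    have p0 := hp 0
    have p1 := hp 1
    have p2 := hp 2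
    fin_cases k
    · show ρ 0 < _
      linarith
    · show ρ 1 < _
      linarith
    · show ρ 2 < _
      linarith
  have ha : ∀ k, (sin (ρ k : ℂ)).arg = 0 := by
    intro k
    rw [← Complex.ofReal_sin, Complex.arg_ofReal_of_nonneg]
    exact (Real.sin_pos_of_pos_of_lt_pi (hp k) (hlt k)).le
  refine ⟨?_, ?_, ?_⟩
  · exact_mod_cast hs
  · intro i
    simpa using hp i
  · intro i j k _ _ _
    simp only [ha, abs_zero, add_zero, Complex.ofReal_re]
    exact hp i

/-- the argument for positive real part -/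
theorem rgp_arctan {z : ℂ} (hz : 0 < z.re) : z.arg = Real.arctan (z.im / z.re) := by
  rw [← Complex.tan_arg, Real.arctan_tan]
  · have := (Complex.abs_arg_lt_pi_div_two_iff.2 (.inl hz))
    exact (abs_lt.1 this).1
  · have := (Complex.abs_arg_lt_pi_div_two_iff.2 (.inl hz))
    exact (abs_lt.1 this).2

/-- `|arg sin|` increases along vertical lines. -/
theorem rgp_mono {x y : ℝ} (h0 : 0 < x) (h1 : x < Real.pi) {t : ℝ} (t0 : 0 ≤ t) (t1 : t ≤ 1) :
    |(sin (x + ((t * y : ℝ) : ℂ) * I)).arg| ≤ |(sin (x + (y : ℂ) * I)).arg| := by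
  have hs := Real.sin_pos_of_pos_of_lt_pi h0 h1
  have hre : ∀ u : ℝ, (sin (x + (u : ℂ) * I)).re = Real.sin x * Real.cosh u ∧
      (sin (x + (u : ℂ) * I)).im = Real.cos x * Real.sinh u := by
    intro u
    rw [Complex.sin_add_mul_I]
    constructor
    · simp [← Complex.ofReal_cos, ← Complex.ofReal_cosh, ← Complex.ofReal_sin,
        ← Complex.ofReal_sinh]
    · simp [← Complex.ofReal_cos, ← Complex.ofReal_cosh, ← Complex.ofReal_sin,
        ← Complex.ofReal_sinh]
  have hpos : ∀ u : ℝ, 0 < (sin (x + (u : ℂ) * I)).re := by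
    intro u
    rw [(hre u).1]
    exact mul_pos hs (Real.cosh_pos u)
  rw [rgp_arctan (hpos _), rgp_arctan (hpos _), (hre _).1, (hre _).2, (hre _).1, (hre _).2]
  have hab : ∀ v : ℝ, |Real.arctan v| = Real.arctan |v| := by
    intro v
    rcases le_total 0 v with h | h
    · rw [abs_of_nonneg h, abs_of_nonneg (Real.arctan_nonneg.2 h)]
    · have h2 : Real.arctan v ≤ 0 := by
        have := Real.arctan_strictMono.monotone h
        rwa [Real.arctan_zero] at this
      rw [abs_of_nonpos h, Real.arctan_neg, abs_of_nonpos h2]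
  rw [hab, hab]
  refine Real.arctan_strictMono.monotone ?_
  rw [abs_div, abs_div, abs_mul, abs_mul, abs_mul, abs_mul, abs_of_pos hs,
    abs_of_pos (Real.cosh_pos _), abs_of_pos (Real.cosh_pos _), Real.abs_sinh, Real.abs_sinh,
    ← Real.cosh_abs (t * y), ← Real.cosh_abs y, abs_mul, abs_of_nonneg t0]
  have hy := abs_nonneg y
  generalize |y| = w at hy
  rw [div_le_div_iff₀ (mul_pos hs (Real.cosh_pos _)) (mul_pos hs (Real.cosh_pos _))]
  have h2 : 0 ≤ Real.sinh (w - t * w) := by
    rw [Real.sinh_nonneg_iff]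
    nlinarith
  rw [Real.sinh_sub] at h2
  have h3 : 0 ≤ |Real.cos x| * Real.sin x := mul_nonneg (abs_nonneg _) hs.le
  nlinarith [mul_nonneg h3 h2]

/-- the vertical path -/
theorem rgp_vert {g : Fin 3 → ℂ} (hg : Tm g) {t : ℝ} (t0 : 0 ≤ t) (t1 : t ≤ 1) :
    Tm (fun i => ((g i).re : ℂ) + t * (((g i).im : ℂ) * I)) := by
  have hre : (g 0).re + (g 1).re + (g 2).re = Real.pi := by
    have := congrArg Complex.re hg.sum
    simpa using this
  have him : (g 0).im + (g 1).im + (g 2).im = 0 := by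
    have := congrArg Complex.im hg.sum
    simpa using this
  have hp := hg.pos
  have hlt : ∀ k, (g k).re < Real.pi := by
    intro k
    have p0 := hp 0
    have p1 := hp 1
    have p2 := hp 2
    fin_cases k
    · show (g 0).re < _
      linarith
    · show (g 1).re < _
      linarith
    · show (g 2).re < _
      linarith
  have ha : ∀ k, |(sin (((g k).re : ℂ) + t * (((g k).im : ℂ) * I))).arg| ≤ |(sin (g k)).arg| := by
    intro k
    have h := rgp_mono (y := (g k).im) (hp k) (hlt k) t0 t1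
    rw [Complex.re_add_im] at h
    have e : ((g k).re : ℂ) + t * (((g k).im : ℂ) * I) =
        (g k).re + ((t * (g k).im : ℝ) : ℂ) * I := by
      push_cast
      ring
    rw [e]
    exact h
  refine ⟨?_, ?_, ?_⟩
  · have h1 : (((g 0).re + (g 1).re + (g 2).re : ℝ) : ℂ) = Real.pi := by rw [hre]
    have h2 : (((g 0).im + (g 1).im + (g 2).im : ℝ) : ℂ) = 0 := by rw [him]; simp
    push_cast at h1 h2
    linear_combination h1 + t * I * h2
  · intro i
    simpa using hp i
  · intro i j k h1 h2 h3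
    have h := hg.arg i j k h1 h2 h3
    have h4 := ha j
    have h5 := ha k
    have h6 : (((g i).re : ℂ) + t * (((g i).im : ℂ) * I)).re = (g i).re := by simp
    rw [h6]
    linarith

/-- the base point -/
noncomputable def rgp_B : Fin 3 → ℝ := ![Real.pi / 2, Real.pi / 4, Real.pi / 4]

theorem rgp_base (n n' : Fin 3 → ℤ) (hn' : n' 0 + n' 1 + n' 2 = -1) :
    rgp_F n n' (fun i => (rgp_B i : ℂ)) = 0 := by
  have b0 : ((rgp_B 0 : ℝ) : ℂ) = Real.pi / 2 := by simp [rgp_B]
  have b1 : ((rgp_B 1 : ℝ) : ℂ) = Real.pi / 4 := by simp [rgp_B]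
  have b2 : ((rgp_B 2 : ℝ) : ℂ) = Real.pi / 4 := by simp [rgp_B]
  have hq : (0 : ℝ) < Real.sqrt 2 / 2 := by positivity
  have hs4 : sin ((Real.pi : ℂ) / 4) = ((Real.sqrt 2 / 2 : ℝ) : ℂ) := by
    rw [← Real.sin_pi_div_four]
    push_cast
    rfl
  have hs2 : sin ((Real.pi : ℂ) / 2) = 1 := Complex.sin_pi_div_two
  have hne : sin ((Real.pi : ℂ) / 4) ≠ 0 := by
    rw [hs4]
    exact_mod_cast hq.ne'
  have he : exp (I * ((Real.pi : ℂ) / 2)) = I := by
    rw [mul_comm, Complex.exp_mul_I, Complex.cos_pi_div_two, Complex.sin_pi_div_two]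
    ring
  have z0 : ∀ s, zA (fun i => (rgp_B i : ℂ)) s = I := by
    intro s
    cases s
    · simp only [zA, Bool.false_eq_true, if_false, b0, b1, b2]
      rw [he, div_self hne, mul_one]
    · simp only [zA, if_true, b0, b1, b2]
      rw [he, div_self hne, mul_one]
  have hl4 : log (sin ((Real.pi : ℂ) / 4)) = -(Real.log 2 / 2) := by
    rw [hs4, ← Complex.ofReal_log hq.le, Real.log_div (by positivity) (by norm_num),
      Real.log_sqrt (by norm_num)]
    push_cast
    ring
  have hl2 : log (sin ((Real.pi : ℂ) / 2)) = 0 := by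
    rw [hs2, Complex.log_one]
  have w0 : ∀ (s : Bool) (m : Fin 3 → ℤ), wl (fun i => (rgp_B i : ℂ)) s m 0 =
      I * (Real.pi / 2) + m 0 * (Real.pi * I) := by
    intro s m
    have : wl (fun i => (rgp_B i : ℂ)) s m 0 = I * (rgp_B 0 : ℂ) + sb s *
        (log (sin (rgp_B 1 : ℂ)) - log (sin (rgp_B 2 : ℂ))) + m 0 * (Real.pi * I) := rfl
    rw [this, b0, b1, b2]
    ring
  have w1 : ∀ (s : Bool) (m : Fin 3 → ℤ), wl (fun i => (rgp_B i : ℂ)) s m 1 =
      I * (Real.pi / 4) - sb s * (Real.log 2 / 2) + m 1 * (Real.pi * I) := by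
    intro s m
    have : wl (fun i => (rgp_B i : ℂ)) s m 1 = I * (rgp_B 1 : ℂ) + sb s *
        (log (sin (rgp_B 2 : ℂ)) - log (sin (rgp_B 0 : ℂ))) + m 1 * (Real.pi * I) := rfl
    rw [this, b0, b1, b2, hl4, hl2]
    ring
  have L0 : Lb (rgp_B 0 : ℂ) = 0 := by
    rw [b0]
    unfold Lb Lc
    simp
  have L1 : Lb ((Real.pi : ℂ) / 4) = ((V83.Lob (Real.pi / 4) : ℝ) : ℂ) := by
    unfold Lb
    rw [show (Real.pi : ℂ) / 4 - Real.pi / 2 = -(Real.pi / 4) by ring, Lc_neg, neg_neg, rgp_Lc]
  have s0 : sb false = 1 := rfl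
  have s1 : sb true = -1 := rfl
  have hn2 : (n' 2 : ℂ) = -1 - n' 0 - n' 1 := by
    have : ((n' 0 + n' 1 + n' 2 : ℤ) : ℂ) = ((-1 : ℤ) : ℂ) := by rw [hn']
    push_cast at this
    linear_combination this
  unfold rgp_F
  rw [z0, z0, w0, w1, w0, w1]
  beta_reduce
  rw [L0, b0, b1, b2, L1, rgp_Rg, rgp_Rg, rgp_Phi, rgp_log, Complex.log_I, s0, s1, hn2]
  ring_nf
  simp only [I_sq]
  ring

/-- The pair identity. -/
theorem Rg_pair_pr {g : Fin 3 → ℂ} (hg : Tm g) (n n' : Fin 3 → ℤ) (hn : n 0 + n 1 + n 2 = -1)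
    (hn' : n' 0 + n' 1 + n' 2 = -1) :
    Rg (zA g false) (n 0) (n 1) + Rg (zA g true) (n' 0) (n' 2) =
      2 * I * ∑ i, Lb (g i) +
      (wl g false n 0 * wl g true n' 1 - wl g false n 1 * wl g true n' 0) / 2 -
      Real.pi * (((n 1 : ℂ) - n' 1) * g 0 - ((n 0 : ℂ) - n' 0) * g 1) +
      (Real.pi : ℂ) ^ 2 / 2 * (n' 0 + n 0 * n' 1 - n' 0 * n 1) := by
  have hre : (g 0).re + (g 1).re + (g 2).re = Real.pi := by
    have := congrArg Complex.re hg.sum
    simpa using this
  have him : (g 0).im + (g 1).im + (g 2).im = 0 := by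
    have := congrArg Complex.im hg.sum
    simpa using this
  have hB : rgp_B 0 + rgp_B 1 + rgp_B 2 = Real.pi := by
    simp only [rgp_B, Matrix.cons_val]
    ring
  have hBp : ∀ i, 0 < rgp_B i := by
    have := Real.pi_pos
    intro i
    fin_cases i <;> simp [rgp_B] <;> positivity
  have h1 := rgp_path (fun i => ((g i).re : ℂ)) (fun i => ((g i).im : ℂ) * I)
    (by exact_mod_cast hre)
    (by
      have h : (((g 0).im + (g 1).im + (g 2).im : ℝ) : ℂ) = 0 := by rw [him]; simp
      push_cast at h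
      linear_combination I * h)
    (fun t t0 t1 => rgp_vert hg t0 t1) n n' hn'
  have h2 := rgp_path (fun i => (rgp_B i : ℂ)) (fun i => (((g i).re - rgp_B i : ℝ) : ℂ))
    (by exact_mod_cast hB)
    (by
      have h : (g 0).re - rgp_B 0 + ((g 1).re - rgp_B 1) + ((g 2).re - rgp_B 2) = 0 := by linarith
      exact_mod_cast h)
    (fun t t0 t1 => by
      have h := rgp_real (fun i => rgp_B i + t * ((g i).re - rgp_B i)) (by linear_combination (1 - t) * hB + t * hre)
        (fun i => by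
          have p1 := hBp i
          have p2 := hg.pos i
          have e : rgp_B i + t * ((g i).re - rgp_B i) = (1 - t) * rgp_B i + t * (g i).re := by ring
          rw [e]
          rcases t0.eq_or_lt with h | h
          · rw [← h]
            simpa using p1
          · have := mul_pos h p2
            have := mul_nonneg (sub_nonneg.2 t1) p1.le
            linarith)
      have e : (fun i => ((rgp_B i + t * ((g i).re - rgp_B i) : ℝ) : ℂ)) =
          fun i => (rgp_B i : ℂ) + t * (((g i).re - rgp_B i : ℝ) : ℂ) := by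
        funext i
        push_cast
        ring
      rw [← e]
      exact h) n n' hn'
  have e1 : (fun i => ((g i).re : ℂ) + ((g i).im : ℂ) * I) = g := by
    funext i
    exact Complex.re_add_im _
  have e2 : (fun i => (rgp_B i : ℂ) + (((g i).re - rgp_B i : ℝ) : ℂ)) =
      fun i => ((g i).re : ℂ) := by
    funext i
    push_cast
    ring
  rw [e1] at h1
  rw [e2, rgp_base n n' hn'] at h2
  rw [h2] at h1
  have h3 := sub_eq_zero.1 h1
  rw [Fin.sum_univ_three]
  exact h3

end Pool.Agent.BT
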