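import Pool.Agent.Lib_helper43.BT.Wanted4

/-!
# Block WID: the width at a vertex
-/

set_option autoImplicit false

open Complex Pool.Agent.VCdt.Geo Filter Topology

namespace Pool.Agent.BT

open Pool.Agent.TB

theorem wid_trig {m r k al th φ : ℂ} (h : sin al = m * r * sin k) (hal : al = Real.pi - th - k) :
    m * (r * (cos φ - cos (φ - 2 * k))) = cos (φ + th) - cos (φ - 2 * k - th) := by
  have h1 : sin al = sin (th + k) := by
    rw [hal, show (Real.pi : ℂ) - th - k = Real.pi - (th + k) by ring, Complex.sin_pi_sub]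
  rw [h1] at h
  have h2 : cos φ - cos (φ - 2 * k) = -2 * sin (φ - k) * sin k := by
    rw [Complex.cos_sub_cos]
    congr 2
    · congr 1
      ring
    · ring
  have h3 : cos (φ + th) - cos (φ - 2 * k - th) = -2 * sin (φ - k) * sin (th + k) := by
    rw [Complex.cos_sub_cos]
    congr 2
    · congr 1
      ring
    · ring
  rw [h2, h3, h]
  ring

theorem wid_pi (x : ℂ) : cos (x + Real.pi) = -cos x := by
  rw [Complex.cos_add_pi]

theorem wid_T (s : ℕ → ℂ) (i : ℕ) : TT s (i + 1) = TT s i + (Real.pi - 2 * s i) := by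
  simp only [TT, Finset.sum_range_succ]

theorem wid_T0 (s : ℕ → ℂ) : TT s 0 = 0 := by
  simp [TT]

/-- the regions on the left -/
theorem wid_left (T T' r r' : ℕ → ℂ) (p : ℕ) (ru : ℂ) (hr : ∀ i, i + 1 < p → r' i = r i)
    (hT : ∀ i, i < p → T' i = T i) (hl : ∀ i, i + 1 = p → r' i = ru ∧ r i = ru) :
    (∑ i ∈ Finset.range p, r' i * (cos (T' i) + cos (T' (i + 1)))) -
      ∑ i ∈ Finset.range p, r i * (cos (T i) + cos (T (i + 1))) =
      if p = 0 then 0 else ru * (cos (T' p) - cos (T p)) := by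
  rcases p with _ | p
  · simp
  · rw [Finset.sum_range_succ, Finset.sum_range_succ, if_neg (Nat.succ_ne_zero p)]
    have h1 : (∑ i ∈ Finset.range p, r' i * (cos (T' i) + cos (T' (i + 1)))) =
        ∑ i ∈ Finset.range p, r i * (cos (T i) + cos (T (i + 1))) := by
      refine Finset.sum_congr rfl fun i hi => ?_
      have hi' := Finset.mem_range.1 hi
      rw [hr i (by omega), hT i (by omega), hT (i + 1) (by omega)]
    obtain ⟨h2, h3⟩ := hl p rfl
    rw [h1, h2, h3, hT p (by omega)]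
    ring

/-- the regions on the right -/
theorem wid_right (T T' r r' : ℕ → ℂ) (a a' q : ℕ) (r3 : ℂ)
    (hr : ∀ i, 0 < i → r' (a' + i) = r (a + i)) (hT : ∀ i, 0 < i → T' (a' + i) = T (a + i))
    (hl : 0 < q → r' a' = r3 ∧ r a = r3) :
    (∑ i ∈ Finset.range q, r' (a' + i) * (cos (T' (a' + i)) + cos (T' (a' + i + 1)))) -
      ∑ i ∈ Finset.range q, r (a + i) * (cos (T (a + i)) + cos (T (a + i + 1))) =
      if q = 0 then 0 else r3 * (cos (T' a') - cos (T a)) := by
  rcases q with _ | q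
  · simp
  · rw [Finset.sum_range_succ', Finset.sum_range_succ', if_neg (Nat.succ_ne_zero q)]
    have h1 : (∑ i ∈ Finset.range q, r' (a' + (i + 1)) *
        (cos (T' (a' + (i + 1))) + cos (T' (a' + (i + 1) + 1)))) =
        ∑ i ∈ Finset.range q, r (a + (i + 1)) *
          (cos (T (a + (i + 1))) + cos (T (a + (i + 1) + 1))) := by
      refine Finset.sum_congr rfl fun i _ => ?_
      rw [hr (i + 1) (by omega), hT (i + 1) (by omega),
        show a' + (i + 1) + 1 = a' + (i + 1 + 1) by omega,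
        show a + (i + 1) + 1 = a + (i + 1 + 1) by omega, hT (i + 1 + 1) (by omega)]
    obtain ⟨h2, h3⟩ := hl (by omega)
    simp only [add_zero]
    rw [h1, h2, h3, hT 1 (by omega)]
    ring

/-- the radii below a vertex -/
theorem wid_nsR (p : ℕ) (u : Fin 3) (e : Bool) (a : ℤ) (kk : Bool) (rc : Fin 4 → ℂ) (r : ℕ → ℂ) :
    (∀ i, i + 1 < p → nsR ⟨p, u, e, a, kk⟩ rc r i = r i) ∧
    (∀ i, i + 1 = p → nsR ⟨p, u, e, a, kk⟩ rc r i = rc ⟨u.1, by omega⟩) ∧
    nsR ⟨p, u, e, a, kk⟩ rc r (p + 2 - u.1) = rc 3 ∧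
    (∀ i, 0 < i → nsR ⟨p, u, e, a, kk⟩ rc r (p + 2 - u.1 + i) = r (p + u.1 + i)) := by
  have hu := u.2
  refine ⟨?_, ?_, ?_, ?_⟩
  · intro i hi
    simp only [nsR, res, if_pos hi]
  · intro i hi
    simp only [nsR, res]
    rw [if_neg (by omega), if_pos hi]
  · simp only [nsR, res]
    rw [if_neg (by omega), if_neg (by omega), if_neg (by omega)]
    simp
  · intro i hi
    simp only [nsR, res]
    rw [if_neg (by omega), if_neg (by omega), if_neg (by omega), if_neg (by omega)]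
    simp only
    congr 1
    omega

/-- the new regions -/
theorem wid_new (p : ℕ) (u : Fin 3) (e : Bool) (a : ℤ) (kk : Bool) (rc k : Fin 4 → ℂ)
    (r s : ℕ → ℂ) (d : ℕ) (hd : d < 2 - u.1) (j : Fin 4) (hj : Fin.ofNat 4 (u.1 + 1 + d) = j)
    (hk : kd u j = .create) : nsR ⟨p, u, e, a, kk⟩ rc r (p + d) = rc j ∧
      nsL ⟨p, u, e, a, kk⟩ k s (p + d) = k j := by
  have h : res ⟨p, u, e, a, kk⟩ (p + d) = .inl j := by
    simp only [res]
    rw [if_neg (by omega), if_neg (by omega), if_pos (by omega), Nat.add_sub_cancel_left, hj]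
  constructor
  · simp only [nsR, h]
  · simp only [nsL, h, hk, if_true, zero_add]

/-- the kept strands -/
theorem wid_kept (p : ℕ) (u : Fin 3) (e : Bool) (a : ℤ) (kk : Bool) :
    (∀ i, i < p → resS ⟨p, u, e, a, kk⟩ i = .inr i) ∧
    (∀ i, 0 < i → resS ⟨p, u, e, a, kk⟩ (p + 2 - u.1 + i) = .inr (p + u.1 + i)) := by
  have hu := u.2
  constructor
  · intro i hi
    simp only [resS, if_pos hi]
  · intro i hi
    simp only [resS]
    rw [if_neg (by omega), if_neg (by omega)]
    congr 1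
    omega

/-- the local data at a vertex -/
structure wid_H (b : Vtx) (g : ℕ) (s r : ℕ → ℂ) (k rc al th : Fin 4 → ℂ) (m : ℂ) : Prop where
  hg : b.p + b.u.1 ≤ g
  hk : k 0 + k 1 + k 2 + k 3 = Real.pi
  cl : ∀ j, kd b.u j = .close → s (gabove b j) = Real.pi - k j
  l0 : b.p = 0 → ∀ j, kd b.u j = .left → k j = 0
  r0 : b.p + b.u.1 = g → k 3 = 0
  rT : TT s g = 0
  rl : b.p ≠ 0 → ∀ j, kd b.u j = .left → rc j = r (gabove b j) ∧ sin (al j) = m * rc j * sin (k j)
  rr : b.p + b.u.1 ≠ g → rc 3 = r (gabove b 3) ∧ sin (al 3) = m * rc 3 * sin (k 3)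
  rc' : ∀ j, kd b.u j = .close → rc j = r (gabove b j) ∧ sin (al j) = m * rc j * sin (k j)
  rn : ∀ j, kd b.u j = .create → sin (al j) = m * rc j * sin (k j)
  ha : ∀ j, al j = Real.pi - th j - k j
  ht : ∀ j, th (j + 1) = Real.pi - th j

/-- the contribution of the left corner -/
theorem wid_cl {m x y z k0 al th : ℂ} {P : Prop} [Decidable P] (h1 : y = x - 2 * k0)
    (hc : P → x = 0 ∧ k0 = 0) (hn : ¬P → sin al = m * z * sin k0)
    (ha : al = Real.pi - th - k0) :
    m * (if P then 0 else z * (cos y - cos x)) = -(cos (x + th) + cos (y + (Real.pi - th))) := by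
  by_cases h : P
  · obtain ⟨h2, h3⟩ := hc h
    rw [if_pos h, h1, h2, h3]
    rw [show (0 : ℂ) - 2 * 0 + (Real.pi - th) = Real.pi - th by ring, Complex.cos_pi_sub]
    ring_nf
  · have h4 := wid_trig (φ := x) (hn h) ha
    rw [if_neg h, h1]
    have h5 : cos (x - 2 * k0 + (Real.pi - th)) = -cos (x - 2 * k0 - th) := by
      rw [show x - 2 * k0 + (Real.pi - th) = (x - 2 * k0 - th) + Real.pi by ring,
        Complex.cos_add_pi]
    rw [h5]
    linear_combination -h4

/-- the contribution of the right corner -/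
theorem wid_cr {m x y z k3 al th : ℂ} {P : Prop} [Decidable P] (h1 : y = x + 2 * k3)
    (hc : P → x = 0 ∧ k3 = 0) (hn : ¬P → sin al = m * z * sin k3)
    (ha : al = Real.pi - th - k3) :
    m * (if P then 0 else z * (cos y - cos x)) = cos (y + th) + cos (x + (Real.pi - th)) := by
  by_cases h : P
  · obtain ⟨h2, h3⟩ := hc h
    rw [if_pos h, h1, h2, h3]
    rw [show (0 : ℂ) + (Real.pi - th) = Real.pi - th by ring, Complex.cos_pi_sub]
    ring_nf
  · have h4 := wid_trig (φ := y) (hn h) ha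
    rw [if_neg h]
    have h6 : y - 2 * k3 = x := by rw [h1]; ring
    rw [h6] at h4
    have h5 : cos (x + (Real.pi - th)) = -cos (x - th) := by
      rw [show x + (Real.pi - th) = (x - th) + Real.pi by ring, Complex.cos_add_pi]
    rw [h5]
    linear_combination h4

/-- the contribution of a corner at the top or at the bottom of the vertex -/
theorem wid_cc {m x y z k1 al th : ℂ} (h1 : y = x + (Real.pi - 2 * k1))
    (hn : sin al = m * z * sin k1) (ha : al = Real.pi - th - k1) :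
    m * (z * (cos x + cos y)) = cos (x + th) - cos (y + (Real.pi - th)) := by
  have h4 := wid_trig (φ := x) hn ha
  have h5 : cos y = -cos (x - 2 * k1) := by
    rw [h1, show x + (Real.pi - 2 * k1) = (x - 2 * k1) + Real.pi by ring, Complex.cos_add_pi]
  have h6 : cos (y + (Real.pi - th)) = cos (x - 2 * k1 - th) := by
    rw [h1, show x + (Real.pi - 2 * k1) + (Real.pi - th) = (x - 2 * k1 - th) + 2 * Real.pi by ring,
      Complex.cos_add_two_pi]
  rw [h5, h6]
  linear_combination h4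

theorem wid_core (b : Vtx) (g : ℕ) (s r : ℕ → ℂ) (k rc al th : Fin 4 → ℂ) (m : ℂ) (hm : m ≠ 0)
    (H : wid_H b g s r k rc al th m) :
    Wd (nsL b k s) (nsR b rc r) (g + 2 - 2 * b.u.1) = Wd s r g := by
  obtain ⟨hg, hk, cl, l0, r0, rT, rl, rr, rc', rn, ha, ht⟩ := H
  obtain ⟨t1, t2, t3⟩ := nsL_TT b k s hk cl l0
  have th1 : th 1 = Real.pi - th 0 := ht 0
  have th2 : th 2 = th 0 := by
    have : th 2 = Real.pi - th 1 := ht 1
    rw [this, th1]
    ring
  have th3 : th 3 = Real.pi - th 0 := by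
    have : th 3 = Real.pi - th 2 := ht 2
    rw [this, th2]
  obtain ⟨p, u, e, a, kk⟩ := b
  obtain ⟨q, rfl⟩ : ∃ q, g = p + u.1 + q := ⟨g - (p + u.1), by simp only at hg; omega⟩
  simp only at *
  obtain ⟨n1, n2, n3, n4⟩ := wid_nsR p u e a kk rc r
  obtain ⟨m1, m2⟩ := wid_kept p u e a kk
  have u1 : ∀ i, i < p → TT (nsL ⟨p, u, e, a, kk⟩ k s) i = TT s i := fun i hi => t1 i i (m1 i hi)
  have u2 : ∀ i, 0 < i → TT (nsL ⟨p, u, e, a, kk⟩ k s) (p + 2 - u.1 + i) = TT s (p + u.1 + i) :=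
    fun i hi => t1 _ _ (m2 i hi)
  have hL : p ≠ 0 → rc ⟨u.1, by omega⟩ = r (p - 1) ∧
      sin (al ⟨u.1, by omega⟩) = m * rc ⟨u.1, by omega⟩ * sin (k ⟨u.1, by omega⟩) := by
    intro hp
    have hkd : kd u ⟨u.1, by omega⟩ = .left := by
      simp [kd]
    have := rl hp ⟨u.1, by omega⟩ hkd
    simpa only [gabove, hkd] using this
  have hR : p + u.1 ≠ p + u.1 + q → rc 3 = r (p + u.1) ∧ sin (al 3) = m * rc 3 * sin (k 3) := by
    intro hq
    have hkd : kd u 3 = .right := (by decide : ∀ u : Fin 3, kd u 3 = .right) u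
    have := rr hq
    simpa only [gabove, hkd] using this
  have hq0 : q = 0 → TT s (p + u.1) = 0 ∧ k 3 = 0 := by
    intro hq
    subst hq
    exact ⟨rT, r0 rfl⟩
  have hp0 : p = 0 → TT s p = 0 ∧ k ⟨u.1, by omega⟩ = 0 := by
    intro hp
    have hkd : kd u ⟨u.1, by omega⟩ = .left := by
      simp [kd]
    refine ⟨?_, l0 hp _ hkd⟩
    subst hp
    exact wid_T0 s
  have X1 := wid_left (TT s) (TT (nsL ⟨p, u, e, a, kk⟩ k s)) r (nsR ⟨p, u, e, a, kk⟩ rc r) p
    (rc ⟨u.1, by omega⟩) n1 u1 (fun i hi => ⟨n2 i hi, by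
      have h := (hL (by omega)).1
      rw [h]
      congr 1
      omega⟩)
  have X2 := wid_right (TT s) (TT (nsL ⟨p, u, e, a, kk⟩ k s)) r (nsR ⟨p, u, e, a, kk⟩ rc r)
    (p + u.1) (p + 2 - u.1) q (rc 3) n4 u2 (fun hq => ⟨n3, ((hR (by omega)).1).symm⟩)
  have t2' : TT (nsL ⟨p, u, e, a, kk⟩ k s) p = TT s p - 2 * k ⟨u.1, by omega⟩ :=
    t2 ⟨u.1, by omega⟩ (by simp [kd])
  have X3 := wid_cl (m := m) (z := rc ⟨u.1, by omega⟩) (al := al ⟨u.1, by omega⟩)
    (th := th ⟨u.1, by omega⟩) t2' hp0 (fun hp => (hL hp).2) (ha _)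
  have X4 := wid_cr (m := m) (z := rc 3) (al := al 3) (th := th 3) t3 hq0
    (fun hq => (hR (by omega)).2) (ha _)
  unfold Wd
  apply mul_left_cancel₀ hm
  obtain rfl | rfl | rfl : u = 0 ∨ u = 1 ∨ u = 2 :=
    (by decide : ∀ u : Fin 3, u = 0 ∨ u = 1 ∨ u = 2) u
  · have e1 : p + ((0 : Fin 3) : ℕ) + q + 2 - 2 * ((0 : Fin 3) : ℕ) = p + 2 + q := by
      simp only [Fin.val_zero]
      omega
    have e2 : p + ((0 : Fin 3) : ℕ) + q = p + q := by
      simp only [Fin.val_zero]
      omega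
    have e3 : p + 2 - ((0 : Fin 3) : ℕ) = p + 2 := by simp
    have e4 : p + ((0 : Fin 3) : ℕ) = p := by simp
    have e5 : (⟨((0 : Fin 3) : ℕ), by omega⟩ : Fin 4) = 0 := rfl
    rw [e3] at X2 X4
    simp only [e4, e5] at X1 X2 X3 X4
    obtain ⟨v1, w1⟩ := wid_new p 0 e a kk rc k r s 0 (by decide) 1 rfl rfl
    obtain ⟨v2, w2⟩ := wid_new p 0 e a kk rc k r s 1 (by decide) 2 rfl rfl
    rw [add_zero] at v1 w1
    have x1 := wid_T (nsL ⟨p, 0, e, a, kk⟩ k s) p
    have x2 := wid_T (nsL ⟨p, 0, e, a, kk⟩ k s) (p + 1)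
    rw [w1] at x1
    rw [w2, show p + 1 + 1 = p + 2 by omega] at x2
    have X5 := wid_cc (m := m) (z := rc 1) (al := al 1) (th := th 1) x1 (rn 1 rfl) (ha _)
    have X6 := wid_cc (m := m) (z := rc 2) (al := al 2) (th := th 2) x2 (rn 2 rfl) (ha _)
    rw [e1, e2, Finset.sum_range_add _ (p + 2) q, Finset.sum_range_add _ p 2,
      Finset.sum_range_succ _ 1, Finset.sum_range_one, Finset.sum_range_add _ p q]
    simp only [add_zero]
    rw [v1, v2, show p + 1 + 1 = p + 2 by omega]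
    simp only [th1, th2, th3, sub_sub_cancel] at X3 X4 X5 X6
    linear_combination m * X1 + m * X2 + X3 + X4 + X5 + X6
  · have e1 : p + ((1 : Fin 3) : ℕ) + q + 2 - 2 * ((1 : Fin 3) : ℕ) = p + 1 + q := by
      simp only [Fin.val_one]
      omega
    have e2 : p + ((1 : Fin 3) : ℕ) + q = p + 1 + q := by
      simp only [Fin.val_one]
    have e3 : p + 2 - ((1 : Fin 3) : ℕ) = p + 1 := by simp
    have e4 : p + ((1 : Fin 3) : ℕ) = p + 1 := by simp
    have e5 : (⟨((1 : Fin 3) : ℕ), by omega⟩ : Fin 4) = 1 := rfl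
    rw [e3] at X2 X4
    simp only [e4, e5] at X1 X2 X3 X4
    obtain ⟨v1, w1⟩ := wid_new p 1 e a kk rc k r s 0 (by decide) 2 rfl rfl
    rw [add_zero] at v1 w1
    have x1 := wid_T (nsL ⟨p, 1, e, a, kk⟩ k s) p
    rw [w1] at x1
    have X5 := wid_cc (m := m) (z := rc 2) (al := al 2) (th := th 2) x1 (rn 2 rfl) (ha _)
    have c1 : s p = Real.pi - k 0 := cl 0 rfl
    have c2 : rc 0 = r p := (rc' 0 rfl).1
    have x2 := wid_T s p
    rw [c1] at x2
    have x2' : TT s p = TT s (p + 1) + (Real.pi - 2 * k 0) := by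
      rw [x2]
      ring
    have X6 := wid_cc (m := m) (z := rc 0) (al := al 0) (th := th 0) x2' (rc' 0 rfl).2 (ha _)
    rw [e1, e2, Finset.sum_range_add _ (p + 1) q, Finset.sum_range_succ _ p,
      Finset.sum_range_add _ (p + 1) q, Finset.sum_range_succ _ p]
    rw [v1, ← c2]
    simp only [th1, th2, th3, sub_sub_cancel] at X3 X4 X5 X6
    linear_combination m * X1 + m * X2 + X3 + X4 + X5 - X6
  · have e1 : p + ((2 : Fin 3) : ℕ) + q + 2 - 2 * ((2 : Fin 3) : ℕ) = p + q := by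
      simp only [Fin.val_two]
      omega
    have e2 : p + ((2 : Fin 3) : ℕ) + q = p + 2 + q := by
      simp only [Fin.val_two]
    have e3 : p + 2 - ((2 : Fin 3) : ℕ) = p := by simp
    have e4 : p + ((2 : Fin 3) : ℕ) = p + 2 := by simp
    have e5 : (⟨((2 : Fin 3) : ℕ), by omega⟩ : Fin 4) = 2 := rfl
    rw [e3] at X2 X4
    simp only [e4, e5] at X1 X2 X3 X4
    have c1 : s (p + 1) = Real.pi - k 0 := cl 0 rfl
    have c2 : rc 0 = r (p + 1) := (rc' 0 rfl).1
    have d1 : s p = Real.pi - k 1 := cl 1 rfl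
    have d2 : rc 1 = r p := (rc' 1 rfl).1
    have x1 := wid_T s p
    rw [d1] at x1
    have x1' : TT s p = TT s (p + 1) + (Real.pi - 2 * k 1) := by
      rw [x1]
      ring
    have x2 := wid_T s (p + 1)
    rw [c1, show p + 1 + 1 = p + 2 by omega] at x2
    have x2' : TT s (p + 1) = TT s (p + 2) + (Real.pi - 2 * k 0) := by
      rw [x2]
      ring
    have X5 := wid_cc (m := m) (z := rc 0) (al := al 0) (th := th 0) x2' (rc' 0 rfl).2 (ha _)
    have X6 := wid_cc (m := m) (z := rc 1) (al := al 1) (th := th 1) x1' (rc' 1 rfl).2 (ha _)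
    rw [e1, e2, Finset.sum_range_add _ (p + 2) q, Finset.sum_range_add _ p 2,
      Finset.sum_range_succ _ 1, Finset.sum_range_one, Finset.sum_range_add _ p q]
    simp only [add_zero]
    rw [← d2, ← c2, show p + 1 + 1 = p + 2 by omega]
    simp only [th1, th2, th3, sub_sub_cancel] at X3 X4 X5 X6
    linear_combination m * X1 + m * X2 + X3 + X4 - X5 - X6

theorem wid_fit (l : List Vtx) (g : ℕ) (h : Fit l g) (v : Vx l) :
    (bk l v).p + (bk l v).u.1 ≤ gapL l g v := by
  induction l generalizing g with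
  | nil => exact v.elim
  | cons b l ih =>
    obtain ⟨h1, h2, h3⟩ := h
    rcases v with _ | v
    · exact h1
    · exact ih _ h3 v

namespace PSol

variable {K : Plan} {P : PSol K}

theorem wd_step_pr (h : Fit K.mid 2) (hP : P.Ok) (hm : ∀ v, P.m v ≠ 0) (v : Vx K.mid) :
    Wd (P.Lbe v) (P.Rbe v) (K.gb v) = Wd (P.La v) (P.Ra v) (K.ga v) := by
  have hu := (bk K.mid v).u.2
  have hleft : ∀ j : Fin 4, kd (bk K.mid v).u j = .left → j.1 = (bk K.mid v).u.1 := by
    intro j hj
    exact (by decide : ∀ (u : Fin 3) (j : Fin 4), kd u j = .left → j.1 = u.1) _ _ hj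
  have hinn : ∀ j : Fin 4, kd (bk K.mid v).u j = .close ∨ kd (bk K.mid v).u j = .create →
      K.inn v j := by
    intro j hj r hr
    exfalso
    cases r
    · have h1 : j.1 = (bk K.mid v).u.1 := by rw [hr]; rfl
      exact (by decide : ∀ (u : Fin 3) (j : Fin 4), kd u j = .close ∨ kd u j = .create →
        j.1 ≠ u.1) _ _ hj h1
    · have h1 : j = 3 := hr
      subst h1
      exact (by decide : ∀ (u : Fin 3), ¬(kd u 3 = .close ∨ kd u 3 = .create)) _ hj
  refine wid_core (bk K.mid v) (K.ga v) (P.La v) (P.Ra v) (P.κ v) (P.rc v) (P.al v) (P.th v)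
    (P.m v) (hm v) ⟨wid_fit _ _ h v, hP.sum v, hP.close v, ?_, ?_, (T_wall h hP).1 v, ?_, ?_, ?_,
      ?_, fun j => rfl, ?_⟩
  · intro hp j hj
    apply hP.cut v j
    intro hi
    have h1 := hi false (Fin.ext (hleft j hj))
    simp [cutL, hp] at h1
  · intro hp
    apply hP.cut v 3
    intro hi
    have h1 := hi true rfl
    simp only [cutL, if_true, decide_eq_false_iff_not] at h1
    exact h1 hp
  · intro hp j hj
    have hi : K.inn v j := by
      intro r hr
      cases r
      · simp [cutL, hp]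
      · exfalso
        have h1 := hleft j hj
        have h2 : j = 3 := hr
        rw [h2] at h1
        have h3 : (3 : Fin 4).1 = 3 := rfl
        omega
    have hkd : kd (bk K.mid v).u j ≠ .create := by rw [hj]; decide
    exact ⟨hP.rab v j hkd hi, hP.mult v j hi⟩
  · intro hq
    have hkd : kd (bk K.mid v).u 3 ≠ .create := by
      have := (by decide : ∀ (u : Fin 3), kd u 3 ≠ .create) (bk K.mid v).u
      exact this
    have hi : K.inn v 3 := by
      intro r hr
      cases r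
      · exfalso
        have h1 : (3 : Fin 4).1 = (bk K.mid v).u.1 := by
          rw [hr]
          rfl
        have h3 : (3 : Fin 4).1 = 3 := rfl
        omega
      · simp only [cutL, if_true, decide_eq_false_iff_not]
        exact hq
    exact ⟨hP.rab v 3 hkd hi, hP.mult v 3 hi⟩
  · intro j hj
    have hi := hinn j (.inl hj)
    have hkd : kd (bk K.mid v).u j ≠ .create := by rw [hj]; decide
    exact ⟨hP.rab v j hkd hi, hP.mult v j hi⟩
  · intro j hj
    exact hP.mult v j (hinn j (.inr hj))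
  · intro j
    have h1 : odd4 (j + 1) = !odd4 j := (by decide : ∀ j : Fin 4, odd4 (j + 1) = !odd4 j) j
    unfold PSol.th
    rw [h1]
    cases odd4 j <;> cases (bk K.mid v).e <;> simp

end PSol

end Pool.Agent.BT
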